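import Pool.Agent.TH130.CI.Main

/-!
Injectivity of multiplication by powers of a general linear form in low degrees of a Gorenstein
algebra: abstract form, with a lower bound for the length of the quotients as a hypothesis.
-/

open MvPolynomial
open Pool.Agent.W515.SLP (AnnP Deg annP_zero annP_of_gt annP_of_homog lin)
open H503R3.QCI (Homog comp_mul comp_mul_of_lt)

namespace TH130CI

variable {K : Type*} [Field K] {n : ℕ}

/-- **Main theorem**, abstract form: the length of a nonzero principal ideal is bounded above by the
Hilbert function in low degrees. -/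
theorem main_abs [CharZero K] {φ : MvPolynomial (Fin n) K →ₗ[K] K} {σ : ℕ} (hφ : Deg φ σ) {N : ℕ}
    (hNσ : N ≤ σ) {B : ℕ} (hB : ∀ M < N, Module.finrank K (AA (gor φ) M) ≤ B)
    (hlen : ∀ i < N, ∀ ψ : MvPolynomial (Fin n) K →ₗ[K] K, Deg ψ (σ - i) → gor φ ≤ gor ψ →
      (∃ h : MvPolynomial (Fin n) K, h.IsHomogeneous (σ - i) ∧ h ∉ gor ψ) →
      (σ - i + 1) * B < Module.finrank K (MvPolynomial (Fin n) K ⧸ gor ψ)) :
    ∃ q : Fin n → K, ∀ i ≤ N, ∀ g : MvPolynomial (Fin n) K, g.IsHomogeneous i →
      lin q ^ (N - i) * g ∈ gor φ → g ∈ gor φ := by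
  classical
  set I := gor φ with hI
  have hf : Module.Finite K (MvPolynomial (Fin n) K ⧸ I) := gor_finite hφ
  obtain ⟨q, hq⟩ := exists_max I N
  refine ⟨q, fun i hi g hg hgl => ?_⟩
  by_contra hgI
  have hiN : i < N := by
    rcases lt_or_eq_of_le hi with h | h
    · exact h
    · subst h
      rw [Nat.sub_self, pow_zero, one_mul] at hgl
      exact absurd hgl hgI
  set Q := MvPolynomial (Fin n) K ⧸ I with hQ
  set w : Q := Ideal.Quotient.mk I g with hw
  have hk : 1 ≤ N - i := by omega
  have hwk : (Ideal.Quotient.mk I (lin q)) ^ (N - i) * w = 0 := by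
    rw [hw, ← map_pow, ← map_mul]
    exact Ideal.Quotient.eq_zero_iff_mem.mpr hgl
  have hwA : w ∈ AA I i := mem_AA.mpr ⟨g, hg, rfl⟩
  -- the bound on the graded pieces of `w A`
  let Wm : ℕ → Submodule K Q := fun M => (AA I M).map (LinearMap.mulRight K w)
  have hWm : ∀ M, Module.finrank K (Wm M) ≤ B := by
    intro M
    rcases lt_or_ge M (N - i - 1) with hM | hM
    · exact le_trans (Submodule.finrank_map_le _ _) (hB M (by omega))
    · set Xm : Submodule K Q := (AA I (N - 1)).map
        (LinearMap.mulLeft K ((Ideal.Quotient.mk I (lin q)) ^ (M - (N - i - 1)))) with hXm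
      have h1 : Wm M ≤ Xm := by
        rintro _ ⟨x, hx, rfl⟩
        obtain ⟨h, hh, rfl⟩ := mem_AA.mp hx
        let Wc : Submodule K (MvPolynomial (Fin n) K) :=
          Xm.comap ((LinearMap.mulRight K w) ∘ₗ (Ideal.Quotient.mkₐ K I).toLinearMap)
        have h2 : ∀ q' : Fin n → K, (lin q' ^ M : MvPolynomial (Fin n) K) ∈ Wc := by
          intro q'
          change Ideal.Quotient.mk I (lin q' ^ M) * w ∈ Xm
          rw [map_pow]
          refine lift_mem (V := AA I i) hk hM ?_ ?_ hwA hwk
          · rintro v hv a b hab
            obtain ⟨v', hv', rfl⟩ := mem_AA.mp hv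
            rw [← map_pow, ← map_pow, ← map_mul, ← map_mul]
            refine mem_AA.mpr ⟨_, ?_, rfl⟩
            have := (((lin_homog q).pow a).mul ((lin_homog q').pow b)).mul hv'
            rwa [show 1 * a + 1 * b + i = N - 1 by omega] at this
          · have h3 := finite_excess hf hi hq q'
            refine h3.subset ?_
            intro t ht
            change rk I N i q < rk I N i (q + t • q')
            have e1 : rk I N i q = Module.finrank K ((AA I i).map
              (LinearMap.mulLeft K ((Ideal.Quotient.mk I (lin q)) ^ (N - i)))) := rfl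
            have e2 : rk I N i (q + t • q') = Module.finrank K ((AA I i).map
              (LinearMap.mulLeft K ((Ideal.Quotient.mk I (lin q) +
                t • Ideal.Quotient.mk I (lin q')) ^ (N - i)))) := by
              rw [rk, lin_add_smul, map_add]
              rfl
            rw [e1, e2]
            exact ht
        exact pow_span h2 hh
      calc Module.finrank K (Wm M) ≤ Module.finrank K Xm := Submodule.finrank_mono h1
        _ ≤ Module.finrank K (AA I (N - 1)) := Submodule.finrank_map_le _ _
        _ ≤ B := hB (N - 1) (by omega)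
  -- the colon ideal
  let φ' : MvPolynomial (Fin n) K →ₗ[K] K := φ ∘ₗ LinearMap.mulLeft K g
  have hφ' : Deg φ' (σ - i) := by
    intro p hp h hh
    change φ (g * h) = 0
    exact hφ (i + p) (by omega) _ (hg.mul hh)
  have hcol : ∀ h, h ∈ gor φ' ↔ g * h ∈ gor φ := by
    intro h
    constructor
    · intro hh x
      have := hh x
      change φ (g * (h * x)) = 0 at this
      rwa [← mul_assoc] at this
    · intro hh x
      change φ (g * (h * x)) = 0
      rw [← mul_assoc]
      exact hh x
  have hle : gor φ ≤ gor φ' := fun h hh => (hcol h).mpr ((gor φ).mul_mem_left _ hh)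
  -- upper bound for the length
  have hup : Module.finrank K (MvPolynomial (Fin n) K ⧸ gor φ') ≤ (σ - i + 1) * B := by
    let m : Q →ₗ[K] Q := LinearMap.mulRight K w
    let c : Q →ₗ[K] (MvPolynomial (Fin n) K ⧸ gor φ') := (Ideal.Quotient.factorₐ K hle).toLinearMap
    have hc : Function.Surjective c := Ideal.Quotient.factor_surjective hle
    have hker : LinearMap.ker m = LinearMap.ker c := by
      ext y
      obtain ⟨h, rfl⟩ := Ideal.Quotient.mk_surjective y
      rw [LinearMap.mem_ker, LinearMap.mem_ker]
      change Ideal.Quotient.mk I h * Ideal.Quotient.mk I g = 0 ↔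
        Ideal.Quotient.mk (gor φ') h = 0
      rw [← map_mul, Ideal.Quotient.eq_zero_iff_mem, Ideal.Quotient.eq_zero_iff_mem, hcol, mul_comm]
    have e1 := LinearMap.finrank_range_add_finrank_ker m
    have e2 := LinearMap.finrank_range_add_finrank_ker c
    rw [LinearMap.range_eq_top.mpr hc, finrank_top, ← hker] at e2
    have e3 : LinearMap.range m ≤ ⨆ M ∈ Finset.range (σ - i + 1), Wm M := by
      rintro _ ⟨y, rfl⟩
      obtain ⟨h, rfl⟩ := Ideal.Quotient.mk_surjective y
      rw [← sum_homogeneousComponent h, map_sum, map_sum]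
      refine Submodule.sum_mem _ fun M _ => ?_
      by_cases hM : M < σ - i + 1
      · have h2 : Wm M ≤ ⨆ M ∈ Finset.range (σ - i + 1), Wm M :=
          le_biSup (fun M => Wm M) (Finset.mem_range.mpr hM)
        exact h2 ⟨_, mem_AA.mpr ⟨_, homogeneousComponent_isHomogeneous _ _, rfl⟩, rfl⟩
      · have h2 : homogeneousComponent M h * g ∈ I := by
          refine annP_of_gt hφ ?_ ((homogeneousComponent_isHomogeneous _ _).mul hg)
          omega
        have h3 : m (Ideal.Quotient.mk I (homogeneousComponent M h)) = 0 := by
          change Ideal.Quotient.mk I (homogeneousComponent M h) * Ideal.Quotient.mk I g = 0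
          rw [← map_mul]
          exact Ideal.Quotient.eq_zero_iff_mem.mpr h2
        rw [h3]
        exact Submodule.zero_mem _
    have e4 := Submodule.finrank_mono e3
    have e5 := finrank_sum_le Wm hWm (σ - i + 1)
    omega
  -- lower bound for the length
  have hne : ∃ h : MvPolynomial (Fin n) K, h.IsHomogeneous (σ - i) ∧ h ∉ gor φ' := by
    by_contra hcon
    push Not at hcon
    apply hgI
    apply annP_of_homog hφ (by omega) hg
    intro v hv
    have := hcon v hv 1
    rw [mul_one] at this
    exact this
  have hlow := hlen i hiN φ' hφ' hle hne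
  omega

end TH130CI
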