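import Pool.Agent.TH130.CI.Len2

/-!
Base change of regular sequences; Artinian complete intersections over an arbitrary field are
Gorenstein; the colength of an almost complete intersection over an arbitrary field.
-/

open MvPolynomial
open Pool.Agent.W515.SLP (AnnP Deg annP_zero annP_of_gt annP_of_homog lin)
open H503R3.QCI (Homog comp_mul comp_mul_of_lt NZD Reg homog_span isSocleDegree_ci gr mem_gr HS_ci
  HS cip)

namespace TH130CI

section bc

variable {K L : Type*} [Field K] [Field L] [Algebra K L] {n : ℕ}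

/-- apply a `K`-linear functional of `L` to all coefficients -/
noncomputable def cf (ρ : L →ₗ[K] K) (p : MvPolynomial (Fin n) L) : MvPolynomial (Fin n) K :=
  ∑ a ∈ p.support, monomial a (ρ (coeff a p))

lemma coeff_cf (ρ : L →ₗ[K] K) (p : MvPolynomial (Fin n) L) (a : Fin n →₀ ℕ) :
    coeff a (cf ρ p) = ρ (coeff a p) := by
  classical
  rw [cf, coeff_sum]
  simp only [coeff_monomial]
  rw [Finset.sum_ite_eq']
  split_ifs with h
  · rfl
  · rw [notMem_support_iff.mp h, map_zero]

lemma cf_add (ρ : L →ₗ[K] K) (p q : MvPolynomial (Fin n) L) :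
    cf ρ (p + q) = cf ρ p + cf ρ q := by
  ext a
  rw [coeff_cf, coeff_add, map_add, coeff_add, coeff_cf, coeff_cf]

lemma cf_zero (ρ : L →ₗ[K] K) : cf ρ (0 : MvPolynomial (Fin n) L) = 0 := by
  ext a
  rw [coeff_cf, coeff_zero, map_zero, coeff_zero]

lemma cf_mul (ρ : L →ₗ[K] K) (f : MvPolynomial (Fin n) K) (p : MvPolynomial (Fin n) L) :
    cf ρ (map (algebraMap K L) f * p) = f * cf ρ p := by
  ext a
  rw [coeff_cf, coeff_mul, map_sum, coeff_mul]
  refine Finset.sum_congr rfl fun x _ => ?_
  rw [coeff_map, coeff_cf, ← Algebra.smul_def, map_smul, smul_eq_mul]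

lemma cf_mem {I : Ideal (MvPolynomial (Fin n) K)} {x : MvPolynomial (Fin n) L}
    (hx : x ∈ I.map (map (algebraMap K L))) (ρ : L →ₗ[K] K) : cf ρ x ∈ I := by
  have h : ∀ c : MvPolynomial (Fin n) L, cf ρ (c * x) ∈ I := by
    rw [Ideal.map] at hx
    induction hx using Submodule.span_induction with
    | mem y hy =>
      intro c
      obtain ⟨f, hf, rfl⟩ := hy
      rw [mul_comm, cf_mul]
      exact I.mul_mem_right _ hf
    | zero => intro c; rw [mul_zero, cf_zero]; exact I.zero_mem
    | add y z _ _ hy hz => intro c; rw [mul_add, cf_add]; exact I.add_mem (hy c) (hz c)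
    | smul a y _ hy => intro c; rw [smul_eq_mul, ← mul_assoc]; exact hy _
  have := h 1
  rwa [one_mul] at this

lemma mem_of_cf {I : Ideal (MvPolynomial (Fin n) K)} {x : MvPolynomial (Fin n) L}
    (hx : ∀ ρ : L →ₗ[K] K, cf ρ x ∈ I) : x ∈ I.map (map (algebraMap K L)) := by
  classical
  let b := Module.Basis.ofVectorSpace K L
  let T : Finset _ := x.support.biUnion fun a => (b.repr (coeff a x)).support
  have h : x = ∑ j ∈ T, C (b j) * map (algebraMap K L) (cf (b.coord j) x) := by
    ext a
    rw [coeff_sum]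
    simp only [coeff_C_mul, coeff_map, coeff_cf]
    by_cases ha : a ∈ x.support
    · have h1 : (b.repr (coeff a x)).support ⊆ T := by
        intro j hj
        exact Finset.mem_biUnion.mpr ⟨a, ha, hj⟩
      conv_lhs => rw [← b.linearCombination_repr (coeff a x)]
      rw [Finsupp.linearCombination_apply, Finsupp.sum_of_support_subset _ h1 _ (by simp)]
      refine Finset.sum_congr rfl fun j _ => ?_
      rw [Algebra.smul_def, mul_comm, Module.Basis.coord_apply]
    · rw [notMem_support_iff.mp ha]
      simp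
  rw [h]
  refine Ideal.sum_mem _ fun j _ => Ideal.mul_mem_left _ _ ?_
  exact Ideal.mem_map_of_mem _ (hx _)

lemma nzd_map {I : Ideal (MvPolynomial (Fin n) K)} {f : MvPolynomial (Fin n) K} (h : NZD I f) :
    NZD (I.map (map (algebraMap K L))) (map (algebraMap K L) f) := by
  intro w hw
  apply mem_of_cf
  intro ρ
  apply h
  rw [← cf_mul]
  exact cf_mem hw ρ

lemma reg_map {m : ℕ} {f : Fin m → MvPolynomial (Fin n) K} (h : Reg f) :
    Reg (fun i => map (algebraMap K L) (f i)) := by
  intro i
  have h1 := nzd_map (L := L) (h i)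
  rw [Ideal.map_span, ← Set.image_comp] at h1
  exact h1

lemma mem_map_iff' {I : Ideal (MvPolynomial (Fin n) K)} {g : MvPolynomial (Fin n) K} :
    map (algebraMap K L) g ∈ I.map (map (algebraMap K L)) ↔ g ∈ I := by
  constructor
  · intro h
    obtain ⟨ρ, hρ⟩ : ∃ ρ : L →ₗ[K] K, ρ 1 = 1 := by
      have h1 : Function.Injective (Algebra.linearMap K L) := (algebraMap K L).injective
      obtain ⟨ρ, hρ⟩ := (Algebra.linearMap K L).exists_leftInverse_of_injective
        (LinearMap.ker_eq_bot.mpr h1)
      refine ⟨ρ, ?_⟩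
      have := LinearMap.congr_fun hρ 1
      simpa using this
    have h1 := cf_mem h ρ
    have h2 : cf ρ (map (algebraMap K L) g) = g := by
      ext a
      rw [coeff_cf, coeff_map, Algebra.algebraMap_eq_smul_one, map_smul, hρ, smul_eq_mul, mul_one]
    rwa [h2] at h1
  · intro h
    exact Ideal.mem_map_of_mem _ h

end bc

variable {K : Type*} [Field K] {n : ℕ}

/-- **Artinian complete intersections are Gorenstein** (arbitrary fields). -/
theorem ci_gor' {f : Fin n → MvPolynomial (Fin n) K} {d : Fin n → ℕ}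
    (hf : ∀ i, (f i).IsHomogeneous (d i)) (hd : ∀ i, 1 ≤ d i) (hreg : Reg f) :
    ∃ φ : MvPolynomial (Fin n) K →ₗ[K] K, Deg φ (∑ i, (d i - 1)) ∧
      Ideal.span (Set.range f) = gor φ := by
  classical
  set σ := ∑ i, (d i - 1) with hσ
  set I := Ideal.span (Set.range f) with hI
  have hIh : Homog I := homog_span (by rintro _ ⟨j, rfl⟩; exact ⟨d j, hf j⟩)
  obtain ⟨⟨h0, hh0, hh0I⟩, htop⟩ := isSocleDegree_ci f d hf hd hreg
  obtain ⟨φ, hφ, hle, hφ0⟩ := exists_functional hIh hh0 hh0I
  refine ⟨φ, hφ, le_antisymm hle ?_⟩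
  -- going up
  have hup : ∀ m, ∀ (p : ℕ) (g : MvPolynomial (Fin n) K), g.IsHomogeneous p → g ∉ I → p + m = σ →
      ∃ u : MvPolynomial (Fin n) K, u.IsHomogeneous m ∧ u * g ∉ I := by
    intro m p g hg hgI hpm
    let L := AlgebraicClosure K
    have : Infinite L := IsAlgClosed.instInfinite
    let ι := map (σ := Fin n) (algebraMap K L)
    have hreg' : Reg (fun i => ι (f i)) := reg_map hreg
    obtain ⟨ψ, hψ, hIψ⟩ := ci_gor (fun i => (hf i).map (algebraMap K L)) hd hreg'
    have hImap : Ideal.span (Set.range fun i => ι (f i)) = I.map ι := by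
      rw [hI, Ideal.map_span, ← Set.range_comp]; rfl
    rw [← hσ] at hψ
    have hIψ' : I.map ι = gor ψ := by rw [← hImap]; exact hIψ
    by_contra hcon
    push Not at hcon
    apply hgI
    rw [← mem_map_iff' (L := L)]
    change ι g ∈ I.map ι
    rw [hIψ']
    apply annP_of_homog hψ (by omega : p ≤ σ) (hg.map _)
    intro v hv
    have hv2 : v ∈ Submodule.span L (Set.range fun a : {a : Fin n →₀ ℕ // a.degree = m} =>
        (monomial a.1 (1 : L))) := by
      rw [v.as_sum]
      refine Submodule.sum_mem _ fun a ha => ?_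
      have hadeg : a.degree = m := by
        by_contra hne
        exact (mem_support_iff.1 ha) (hv.coeff_eq_zero (by omega))
      rw [← mul_one (coeff a v), ← smul_eq_mul, ← smul_monomial]
      exact Submodule.smul_mem _ _ (Submodule.subset_span ⟨⟨a, hadeg⟩, rfl⟩)
    clear hv
    induction hv2 using Submodule.span_induction with
    | mem y hy =>
      obtain ⟨a, rfl⟩ := hy
      have h1 := hcon (monomial a.1 1) (isHomogeneous_monomial _ a.2)
      have h2 : ι (monomial a.1 1 * g) ∈ I.map ι := Ideal.mem_map_of_mem _ h1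
      rw [hIψ', map_mul] at h2
      have h3 := h2 1
      rw [mul_one, mul_comm] at h3
      have h4 : ι (monomial a.1 1) = monomial a.1 1 := by
        simp [ι, map_monomial]
      rw [h4] at h3
      exact h3
    | zero => rw [mul_zero, map_zero]
    | add y z _ _ hy hz => rw [mul_add, map_add, hy, hz, add_zero]
    | smul c y _ hy => rw [mul_smul_comm, map_smul, hy, smul_zero]
  -- in the top degree
  have hφtop : ∀ v : MvPolynomial (Fin n) K, v.IsHomogeneous σ → φ v = 0 → v ∈ I := by
    intro v hv hφv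
    by_contra hvI
    have h1 := top_one hf hd hreg
    have h2 : gr I σ ⊔ Submodule.span K {v} = homogeneousSubmodule (Fin n) K σ := by
      apply Submodule.eq_of_le_of_finrank_le
      · apply sup_le inf_le_right
        rw [Submodule.span_singleton_le_iff_mem]
        exact hv
      · have hdis : gr I σ ⊓ Submodule.span K {v} = ⊥ := by
          rw [eq_bot_iff]
          rintro x ⟨hx1, hx2⟩
          obtain ⟨c, rfl⟩ := Submodule.mem_span_singleton.mp hx2
          by_cases hc : c = 0
          · rw [hc, zero_smul]; exact Submodule.zero_mem _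
          · exfalso
            apply hvI
            have h3 : c • v ∈ I := (mem_gr.mp hx1).1
            have h4 : v = C c⁻¹ * (c • v) := by
              rw [← smul_eq_C_mul, smul_smul, inv_mul_cancel₀ hc, one_smul]
            rw [h4]
            exact I.mul_mem_left _ h3
        have h3 := Submodule.finrank_sup_add_finrank_inf_eq (gr I σ) (Submodule.span K {v})
        rw [hdis, finrank_bot, add_zero] at h3
        have hv0 : v ≠ 0 := by
          rintro rfl
          exact hvI I.zero_mem
        rw [finrank_span_singleton hv0] at h3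
        rw [h1, h3]
    have h3 : h0 ∈ gr I σ ⊔ Submodule.span K {v} := by rw [h2]; exact hh0
    obtain ⟨a, ha, b, hb, hab⟩ := Submodule.mem_sup.mp h3
    obtain ⟨c, rfl⟩ := Submodule.mem_span_singleton.mp hb
    apply hφ0
    have h4 : φ a = 0 := by
      have := hle (mem_gr.mp ha).1 1
      rwa [mul_one] at this
    rw [← hab, map_add, h4, map_smul, hφv, smul_zero, add_zero]
  intro g hg
  rw [← sum_homogeneousComponent g]
  refine Ideal.sum_mem _ fun p _ => ?_
  have hgp : homogeneousComponent p g ∈ gor φ := gor_homog hφ g hg p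
  by_contra hcon
  rcases le_or_gt p σ with hp | hp
  · obtain ⟨u, hu, hug⟩ := hup (σ - p) p _ (homogeneousComponent_isHomogeneous p g) hcon (by omega)
    apply hug
    have h1 : (u * homogeneousComponent p g).IsHomogeneous σ := by
      have := hu.mul (homogeneousComponent_isHomogeneous p g)
      rwa [show σ - p + p = σ by omega] at this
    apply hφtop _ h1
    rw [mul_comm]
    exact hgp u
  · exact hcon (htop p hp _ (homogeneousComponent_isHomogeneous p g))

/-- **Almost complete intersections.** -/
theorem aci_bound' {f : Fin n → MvPolynomial (Fin n) K} {a : Fin n → ℕ}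
    (hf : ∀ i, (f i).IsHomogeneous (a i)) (ha : ∀ i, 1 ≤ a i) (hreg : Reg f) {A : ℕ} (hA : 1 ≤ A)
    (haA : ∀ i, a i ≤ A) {D m : ℕ} {g : MvPolynomial (Fin n) K} (hg : g.IsHomogeneous D)
    (hgI : g ∉ Ideal.span (Set.range f)) (hm : D + 3 ^ m * A ≤ ∑ i, (a i - 1)) :
    Module.finrank K (MvPolynomial (Fin n) K ⧸ (Ideal.span (Set.range f) ⊔ Ideal.span {g})) +
      3 ^ (m.choose 2) * A ^ m * (A + 1) ≤ ∏ i, a i := by
  obtain ⟨φ, hφ, hI⟩ := ci_gor' hf ha hreg
  set σ := ∑ i, (a i - 1) with hσ
  have htop : ∀ p, σ < p → ∀ h : MvPolynomial (Fin n) K, h.IsHomogeneous p → h ∈ gor φ :=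
    fun p hp h hh => annP_of_gt hφ hp hh
  have hfin : Module.Finite K (MvPolynomial (Fin n) K ⧸ gor φ) := finite_of_top htop
  have hlen := finrank_ci hf ha hreg
  rw [hI] at hlen hgI ⊢
  let φ' : MvPolynomial (Fin n) K →ₗ[K] K := φ ∘ₗ LinearMap.mulLeft K g
  have hφ' : Deg φ' (σ - D) := by
    intro p hp h hh
    change φ (g * h) = 0
    exact hφ (D + p) (by omega) _ (hg.mul hh)
  have hcol : ∀ h, h ∈ gor φ' ↔ g * h ∈ gor φ := by
    intro h
    constructor
    · intro hh x
      have := hh x
      change φ (g * (h * x)) = 0 at this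
      rwa [← mul_assoc] at this
    · intro hh x
      change φ (g * (h * x)) = 0
      rw [← mul_assoc]
      exact hh x
  have hle : gor φ ≤ gor φ' := fun h hh => (hcol h).mpr ((gor φ).mul_mem_left _ hh)
  have hne : ∃ h : MvPolynomial (Fin n) K, h.IsHomogeneous (σ - D) ∧ h ∉ gor φ' := by
    by_contra hcon
    push Not at hcon
    apply hgI
    apply annP_of_homog hφ (by omega) hg
    intro v hv
    have := hcon v hv 1
    rw [mul_one] at this
    exact this
  have hlow := length_lower3 hA (G := Set.range f)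
    (by rintro _ ⟨i, rfl⟩; exact ⟨a i, haA i, hf i⟩)
    (fun i => ⟨σ + 1, by
      rw [hI]
      exact htop _ (Nat.lt_succ_self σ) _ (isHomogeneous_X_pow i (σ + 1))⟩) m (σ - D) (gor φ')
    (gor_homog hφ') (by
      rintro _ ⟨i, rfl⟩
      apply hle
      rw [← hI]
      exact Ideal.subset_span ⟨i, rfl⟩) (finite_of_le hle hfin) hne (by omega)
  have h1 := finrank_colon hcol hfin
  rw [hlen] at h1
  omega

end TH130CI
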