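import Pool.Agent.TH130.CI.Soc

/-!
A sharper lower bound for lengths; the length of an Artinian complete intersection; the colength of
an almost complete intersection.
-/

open MvPolynomial
open Pool.Agent.W515.SLP (AnnP Deg annP_zero annP_of_gt annP_of_homog lin)
open H503R3.QCI (Homog comp_mul comp_mul_of_lt NZD Reg homog_span isSocleDegree_ci gr mem_gr HS_ci
  HS cip)

namespace TH130CI

variable {K : Type*} [Field K] {n : ℕ}

lemma finrank_pos_of_notMem {I : Ideal (MvPolynomial (Fin n) K)}
    (hf : Module.Finite K (MvPolynomial (Fin n) K ⧸ I)) {g : MvPolynomial (Fin n) K} (hg : g ∉ I) :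
    1 ≤ Module.finrank K (MvPolynomial (Fin n) K ⧸ I) := by
  have : Nontrivial (MvPolynomial (Fin n) K ⧸ I) := by
    refine ⟨Ideal.Quotient.mk I g, 0, ?_⟩
    rwa [Ne, Ideal.Quotient.eq_zero_iff_mem]
  exact Module.finrank_pos

/-- the trivial step: the length grows by at least one with the socle degree -/
lemma length_socle (s : ℕ) : ∀ (I : Ideal (MvPolynomial (Fin n) K)), Homog I →
    Module.Finite K (MvPolynomial (Fin n) K ⧸ I) →
    (∃ g : MvPolynomial (Fin n) K, g.IsHomogeneous s ∧ g ∉ I) →
    s + 1 ≤ Module.finrank K (MvPolynomial (Fin n) K ⧸ I) := by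
  induction s with
  | zero =>
    intro I _ hf ⟨g, _, hg⟩
    exact finrank_pos_of_notMem hf hg
  | succ s ih =>
    intro I hI hf ⟨g, hg, hgI⟩
    obtain ⟨i, b, hb, hbI⟩ : ∃ (i : Fin n) (b : MvPolynomial (Fin n) K), b.IsHomogeneous s ∧
        X i * b ∉ I := by
      by_contra hcon
      push Not at hcon
      apply hgI
      rw [g.as_sum]
      refine I.sum_mem fun a ha => ?_
      have hadeg : a.degree = s + 1 := by
        by_contra hne
        exact (mem_support_iff.1 ha) (hg.coeff_eq_zero hne)
      have hane : a ≠ 0 := by rintro rfl; simp at hadeg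
      obtain ⟨i, hi⟩ := Finsupp.ne_iff.mp hane
      rw [Finsupp.coe_zero, Pi.zero_apply] at hi
      have hle1 : Finsupp.single i 1 ≤ a := by
        rw [Finsupp.single_le_iff]; omega
      have h2 : (a - Finsupp.single i 1).degree = s := by
        have h1 : a = (a - Finsupp.single i 1) + Finsupp.single i 1 :=
          (tsub_add_cancel_of_le hle1).symm
        have h3 := congrArg Finsupp.degree h1
        rw [map_add, Finsupp.degree_single] at h3
        omega
      have h4 : monomial a (coeff a g) = X i * monomial (a - Finsupp.single i 1) (coeff a g) := by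
        rw [X, monomial_mul, one_mul, add_comm, tsub_add_cancel_of_le hle1]
      rw [h4]
      exact hcon i _ (isHomogeneous_monomial _ h2)
    let I1 : Ideal (MvPolynomial (Fin n) K) := 
      { carrier := {h | X i * h ∈ I}
        add_mem' := by intro x y hx hy; simpa [mul_add] using I.add_mem hx hy
        zero_mem' := by simp
        smul_mem' := by
          intro c x hx
          have : X i * (c * x) = c * (X i * x) := by ring
          simpa [this] using I.mul_mem_left c hx }
    have hcol : ∀ h, h ∈ I1 ↔ X i * h ∈ I := fun h => Iff.rfl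
    have hle : I ≤ I1 := fun h hh => I.mul_mem_left _ hh
    have hI1 : Homog I1 := by
      intro p hp k
      rw [hcol] at hp ⊢
      rw [← comp_mul (isHomogeneous_X K i)]
      exact hI _ hp _
    have e1 := ih I1 hI1 (finite_of_le hle hf) ⟨b, hb, hbI⟩
    have e2 := finrank_colon hcol hf
    have e3 : 1 ≤ Module.finrank K (MvPolynomial (Fin n) K ⧸ (I ⊔ Ideal.span {X i})) := by
      apply finrank_pos_of_notMem (finite_of_le le_sup_left hf) (g := 1)
      intro h1
      obtain ⟨u, hu, v, hv, huv⟩ := Submodule.mem_sup.mp h1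
      obtain ⟨c, rfl⟩ := Ideal.mem_span_singleton'.mp hv
      have h2 : homogeneousComponent 0 (X i * c) = 0 :=
        comp_mul_of_lt (isHomogeneous_X K i) (by norm_num)
      have h3 : homogeneousComponent 0 u = 1 := by
        have h4 := congrArg (homogeneousComponent 0) huv
        rw [map_add, mul_comm c, h2, add_zero, homogeneousComponent_of_mem (isHomogeneous_one _ _),
          if_pos rfl] at h4
        exact h4
      have h5 := hI u hu 0
      rw [h3] at h5
      have h6 := I.mul_mem_left g h5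
      rw [mul_one] at h6
      exact hgI h6
    omega

/-- **Lower bound for lengths.** A quotient by a homogeneous ideal which contains forms of degree at
most `D` without common zeros and which is nonzero in degree `s ≥ 3 ^ m * D` has length at least
`3 ^ (m (m - 1) / 2) * D ^ m * (D + 1)`. -/
theorem length_lower3 {D : ℕ} (hD : 1 ≤ D) {G : Set (MvPolynomial (Fin n) K)}
    (hG : ∀ g ∈ G, ∃ d ≤ D, g.IsHomogeneous d) (hm : ∀ i, ∃ m, X i ^ m ∈ Ideal.span G) (r : ℕ) :
    ∀ (s : ℕ) (I : Ideal (MvPolynomial (Fin n) K)), Homog I → (∀ g ∈ G, g ∈ I) →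
      Module.Finite K (MvPolynomial (Fin n) K ⧸ I) →
      (∃ g : MvPolynomial (Fin n) K, g.IsHomogeneous s ∧ g ∉ I) → 3 ^ r * D ≤ s →
      3 ^ (r.choose 2) * D ^ r * (D + 1) ≤ Module.finrank K (MvPolynomial (Fin n) K ⧸ I) := by
  induction r with
  | zero =>
    intro s I hI _ hf hne hs
    have h1 := length_socle s I hI hf hne
    rw [pow_zero, one_mul] at hs
    simp only [Nat.choose_zero_succ, pow_zero, one_mul]
    omega
  | succ r ih =>
    set c := 3 ^ (r.choose 2) * D ^ r * (D + 1) with hc
    have h3 : 1 ≤ 3 ^ r := Nat.one_le_pow _ _ (by norm_num)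
    have h3D : D ≤ 3 ^ r * D := Nat.le_mul_of_pos_left D h3
    -- inner induction
    have inner : ∀ t, ∀ I : Ideal (MvPolynomial (Fin n) K), Homog I → (∀ g ∈ G, g ∈ I) →
        Module.Finite K (MvPolynomial (Fin n) K ⧸ I) →
        (∃ g : MvPolynomial (Fin n) K, g.IsHomogeneous (2 * (3 ^ r * D) + t) ∧ g ∉ I) →
        (t + 1) * c ≤ Module.finrank K (MvPolynomial (Fin n) K ⧸ I) := by
      intro t
      induction t with
      | zero =>
        intro I hI hGI hf hne
        rw [Nat.zero_add, one_mul]
        exact ih _ I hI hGI hf hne (by omega)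
      | succ t iht =>
        intro I hI hGI hf hne
        obtain ⟨I1, I2, hG1, hG2, hI1, hI2, hf1, hf2, hn1, hn2, hle⟩ :=
          step hI hD (by omega) hG hGI hm hf hne
        have e1 := iht I1 hI1 hG1 hf1 (by
          rwa [show 2 * (3 ^ r * D) + (t + 1) - 1 = 2 * (3 ^ r * D) + t by omega] at hn1)
        have e2 := ih _ I2 hI2 hG2 hf2 hn2 (by omega)
        calc (t + 1 + 1) * c = (t + 1) * c + c := by ring
          _ ≤ _ := le_trans (Nat.add_le_add e1 e2) hle
    intro s I hI hGI hf hne hs
    have hs4 : 3 ^ (r + 1) * D = 3 * (3 ^ r * D) := by ring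
    rw [hs4] at hs
    have h2 := inner (s - 2 * (3 ^ r * D)) I hI hGI hf (by
      rwa [show 2 * (3 ^ r * D) + (s - 2 * (3 ^ r * D)) = s by omega])
    refine le_trans ?_ h2
    have h4 : 3 ^ r * D ≤ s - 2 * (3 ^ r * D) + 1 := by omega
    have h5 : (r + 1).choose 2 = r.choose 2 + r := by
      rw [Nat.choose_succ_succ' r 1, Nat.choose_one_right, add_comm]
    calc 3 ^ ((r + 1).choose 2) * D ^ (r + 1) * (D + 1) = (3 ^ r * D) * c := by
          rw [h5, hc, pow_add]; ring
      _ ≤ _ := Nat.mul_le_mul_right _ h4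

/-- the length of a quotient is the sum of the dimensions of its graded pieces -/
lemma finrank_iSup_AA {I : Ideal (MvPolynomial (Fin n) K)} (hI : Homog I)
    (hf : Module.Finite K (MvPolynomial (Fin n) K ⧸ I)) (p : ℕ) :
    Module.finrank K (⨆ i ∈ Finset.range p, AA I i : Submodule K (MvPolynomial (Fin n) K ⧸ I)) =
      ∑ i ∈ Finset.range p, Module.finrank K (AA I i) := by
  induction p with
  | zero =>
    have h1 : (⨆ i ∈ Finset.range 0, AA I i : Submodule K (MvPolynomial (Fin n) K ⧸ I)) = ⊥ := by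
      simp only [Finset.range_zero, Finset.notMem_empty, iSup_false, iSup_bot]
    rw [h1, finrank_bot, Finset.range_zero, Finset.sum_empty]
  | succ p ih =>
    rw [Finset.sum_range_succ, ← ih, Finset.range_add_one, Finset.iSup_insert, sup_comm]
    have h1 := Submodule.finrank_sup_add_finrank_inf_eq
      (⨆ i ∈ Finset.range p, AA I i : Submodule K (MvPolynomial (Fin n) K ⧸ I)) (AA I p)
    have hrep : ∀ x ∈ (⨆ i ∈ Finset.range p, AA I i : Submodule K (MvPolynomial (Fin n) K ⧸ I)),
        ∃ g : MvPolynomial (Fin n) K, homogeneousComponent p g = 0 ∧ Ideal.Quotient.mk I g = x := by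
      intro x hx
      induction hx using Submodule.iSup_induction' with
      | mem i x hx =>
        induction hx using Submodule.iSup_induction' with
        | mem hi x hx =>
          obtain ⟨g, hg, rfl⟩ := mem_AA.mp hx
          refine ⟨g, ?_, rfl⟩
          rw [homogeneousComponent_of_mem hg, if_neg]
          have := Finset.mem_range.mp hi
          omega
        | zero => exact ⟨0, map_zero _, map_zero _⟩
        | add x y _ _ hx hy =>
          obtain ⟨g, hg, rfl⟩ := hx
          obtain ⟨g', hg', rfl⟩ := hy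
          exact ⟨g + g', by rw [map_add, hg, hg', add_zero], map_add _ _ _⟩
      | zero => exact ⟨0, map_zero _, map_zero _⟩
      | add x y _ _ hx hy =>
        obtain ⟨g, hg, rfl⟩ := hx
        obtain ⟨g', hg', rfl⟩ := hy
        exact ⟨g + g', by rw [map_add, hg, hg', add_zero], map_add _ _ _⟩
    have hdis : (⨆ i ∈ Finset.range p, AA I i : Submodule K (MvPolynomial (Fin n) K ⧸ I)) ⊓
        AA I p = ⊥ := by
      rw [eq_bot_iff]
      rintro x ⟨hx1, hx2⟩
      obtain ⟨g, hg, rfl⟩ := hrep x hx1
      obtain ⟨h, hh, hgh⟩ := mem_AA.mp hx2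
      have h2 : h - g ∈ I := (Ideal.Quotient.mk_eq_mk_iff_sub_mem _ _).mp hgh
      have h3 := hI _ h2 p
      rw [map_sub, hg, sub_zero, homogeneousComponent_of_mem hh, if_pos rfl] at h3
      rw [← hgh]
      exact Ideal.Quotient.eq_zero_iff_mem.mpr h3
    rw [hdis, finrank_bot, add_zero] at h1
    exact h1

lemma finrank_AA {I : Ideal (MvPolynomial (Fin n) K)} (p : ℕ) :
    Module.finrank K (AA I p) + Module.finrank K (gr I p) =
      Module.finrank K (homogeneousSubmodule (Fin n) K p) := by
  have : Module.Finite K (homogeneousSubmodule (Fin n) K p) :=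
    Module.Finite.iff_fg.2 (homogeneousSubmodule_fg _ _ p)
  let f : homogeneousSubmodule (Fin n) K p →ₗ[K] (MvPolynomial (Fin n) K ⧸ I) :=
    (Ideal.Quotient.mkₐ K I).toLinearMap ∘ₗ (homogeneousSubmodule (Fin n) K p).subtype
  have h1 : LinearMap.range f = AA I p := by
    rw [LinearMap.range_comp, Submodule.range_subtype]; rfl
  have h2 : (LinearMap.ker f).map (homogeneousSubmodule (Fin n) K p).subtype = gr I p := by
    ext x
    constructor
    · rintro ⟨y, hy, rfl⟩
      exact mem_gr.mpr ⟨Ideal.Quotient.eq_zero_iff_mem.mp hy, y.2⟩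
    · intro hx
      obtain ⟨hx1, hx2⟩ := mem_gr.mp hx
      exact ⟨⟨x, hx2⟩, Ideal.Quotient.eq_zero_iff_mem.mpr hx1, rfl⟩
  have h3 := LinearMap.finrank_range_add_finrank_ker f
  rw [h1] at h3
  rw [← h2, H503R3.QCI.finrank_map_of_inj _ (Submodule.injective_subtype _)]
  exact h3

instance finite_AA' (I : Ideal (MvPolynomial (Fin n) K)) (p : ℕ) : Module.Finite K (AA I p) := by
  have : Module.Finite K (homogeneousSubmodule (Fin n) K p) :=
    Module.Finite.iff_fg.2 (homogeneousSubmodule_fg _ _ p)
  exact Module.Finite.map _ _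

lemma iSup_AA_top {I : Ideal (MvPolynomial (Fin n) K)} {s : ℕ}
    (h : ∀ p, s < p → ∀ g : MvPolynomial (Fin n) K, g.IsHomogeneous p → g ∈ I) :
    (⨆ p ∈ Finset.range (s + 1), AA I p) = ⊤ := by
  rw [eq_top_iff]
  rintro x -
  obtain ⟨g, rfl⟩ := Ideal.Quotient.mk_surjective x
  rw [← sum_homogeneousComponent g, map_sum]
  refine Submodule.sum_mem _ fun p _ => ?_
  by_cases hp : p < s + 1
  · have h2 : AA I p ≤ ⨆ p ∈ Finset.range (s + 1), AA I p :=
      le_biSup (fun p => AA I p) (Finset.mem_range.mpr hp)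
    exact h2 (mem_AA.mpr ⟨_, homogeneousComponent_isHomogeneous _ _, rfl⟩)
  · rw [Ideal.Quotient.eq_zero_iff_mem.mpr
      (h p (by omega) _ (homogeneousComponent_isHomogeneous p g))]
    exact Submodule.zero_mem _

lemma finite_of_top {I : Ideal (MvPolynomial (Fin n) K)} {s : ℕ}
    (h : ∀ p, s < p → ∀ g : MvPolynomial (Fin n) K, g.IsHomogeneous p → g ∈ I) :
    Module.Finite K (MvPolynomial (Fin n) K ⧸ I) := by
  have h1 := iSup_AA_top h
  have h3 : Module.Finite K (⨆ p ∈ Finset.range (s + 1), AA I p :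
      Submodule K (MvPolynomial (Fin n) K ⧸ I)) := by
    exact Submodule.finite_finset_sup _ _ |> fun h => by
      rw [← Finset.sup_eq_iSup]; exact h
  rw [h1] at h3
  exact Module.Finite.of_surjective (Submodule.topEquiv (R := K)
    (M := MvPolynomial (Fin n) K ⧸ I)).toLinearMap (LinearEquiv.surjective _)

lemma finrank_eq_sum {I : Ideal (MvPolynomial (Fin n) K)} (hI : Homog I) {s : ℕ}
    (h : ∀ p, s < p → ∀ g : MvPolynomial (Fin n) K, g.IsHomogeneous p → g ∈ I) :
    Module.finrank K (MvPolynomial (Fin n) K ⧸ I) =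
      ∑ i ∈ Finset.range (s + 1), Module.finrank K (AA I i) := by
  rw [← finrank_iSup_AA hI (finite_of_top h), iSup_AA_top h, finrank_top]

/-- the length of an Artinian complete intersection -/
theorem finrank_ci {f : Fin n → MvPolynomial (Fin n) K} {e : Fin n → ℕ}
    (hf : ∀ i, (f i).IsHomogeneous (e i)) (he : ∀ i, 1 ≤ e i) (hreg : Reg f) :
    Module.finrank K (MvPolynomial (Fin n) K ⧸ Ideal.span (Set.range f)) = ∏ i, e i := by
  have hIh : Homog (Ideal.span (Set.range f)) :=
    homog_span (by rintro _ ⟨j, rfl⟩; exact ⟨e j, hf j⟩)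
  have hsd := isSocleDegree_ci f e hf he hreg
  rw [finrank_eq_sum hIh hsd.2]
  have hHS := HS_ci f e hf hreg
  have hmon1 : ∀ k : ℕ, (∑ j ∈ Finset.range (k + 1), (Polynomial.X : Polynomial ℤ) ^ j).Monic ∧
      (∑ j ∈ Finset.range (k + 1), (Polynomial.X : Polynomial ℤ) ^ j).natDegree = k := by
    intro k
    constructor
    · exact Polynomial.Monic.geom_sum' Polynomial.monic_X
        (by rw [Polynomial.degree_X]; exact one_pos) k.succ_ne_zero
    · induction k with
      | zero => simp
      | succ k ih =>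
        rw [Finset.sum_range_succ, Polynomial.natDegree_add_eq_right_of_natDegree_lt,
          Polynomial.natDegree_X_pow]
        rw [ih, Polynomial.natDegree_X_pow]
        exact Nat.lt_succ_self k
  have hmon : ∀ i, (∑ k ∈ Finset.range (e i), (Polynomial.X : Polynomial ℤ) ^ k).Monic := by
    intro i
    have := (hmon1 (e i - 1)).1
    rwa [Nat.sub_add_cancel (he i)] at this
  have hdeg : (cip e).natDegree = ∑ i, (e i - 1) := by
    rw [cip, Polynomial.natDegree_prod_of_monic _ _ (fun i _ => hmon i)]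
    refine Finset.sum_congr rfl fun i _ => ?_
    have := (hmon1 (e i - 1)).2
    rwa [Nat.sub_add_cancel (he i)] at this
  have h1 : (cip e).eval 1 = ∏ i, (e i : ℤ) := by
    rw [cip, Polynomial.eval_prod]
    refine Finset.prod_congr rfl fun i _ => ?_
    rw [Polynomial.eval_finsetSum]
    simp
  rw [Polynomial.eval_eq_sum_range, hdeg] at h1
  have h2 : ∀ p, (Module.finrank K (AA (Ideal.span (Set.range f)) p) : ℤ) = (cip e).coeff p := by
    intro p
    have h3 := congrArg (PowerSeries.coeff p) hHS
    rw [HS, PowerSeries.coeff_mk, Polynomial.coeff_coe] at h3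
    have h4 := finrank_AA (I := Ideal.span (Set.range f)) p
    omega
  have h5 : ((∑ i ∈ Finset.range (∑ i, (e i - 1) + 1),
      Module.finrank K (AA (Ideal.span (Set.range f)) i) : ℕ) : ℤ) = ((∏ i, e i : ℕ) : ℤ) := by
    rw [Nat.cast_sum, Nat.cast_prod, ← h1]
    refine Finset.sum_congr rfl fun p _ => ?_
    rw [h2, one_pow, mul_one]
  exact_mod_cast h5

/-- **Almost complete intersections.** -/
theorem aci_bound [Infinite K] {f : Fin n → MvPolynomial (Fin n) K} {a : Fin n → ℕ}
    (hf : ∀ i, (f i).IsHomogeneous (a i)) (ha : ∀ i, 1 ≤ a i) (hreg : Reg f) {A : ℕ} (hA : 1 ≤ A)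
    (haA : ∀ i, a i ≤ A) {D m : ℕ} {g : MvPolynomial (Fin n) K} (hg : g.IsHomogeneous D)
    (hgI : g ∉ Ideal.span (Set.range f)) (hm : D + 3 ^ m * A ≤ ∑ i, (a i - 1)) :
    Module.finrank K (MvPolynomial (Fin n) K ⧸ (Ideal.span (Set.range f) ⊔ Ideal.span {g})) +
      3 ^ (m.choose 2) * A ^ m * (A + 1) ≤ ∏ i, a i := by
  obtain ⟨φ, hφ, hI⟩ := ci_gor hf ha hreg
  set σ := ∑ i, (a i - 1) with hσ
  have htop : ∀ p, σ < p → ∀ h : MvPolynomial (Fin n) K, h.IsHomogeneous p → h ∈ gor φ :=
    fun p hp h hh => annP_of_gt hφ hp hh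
  have hfin : Module.Finite K (MvPolynomial (Fin n) K ⧸ gor φ) := finite_of_top htop
  have hlen := finrank_ci hf ha hreg
  rw [hI] at hlen hgI ⊢
  let φ' : MvPolynomial (Fin n) K →ₗ[K] K := φ ∘ₗ LinearMap.mulLeft K g
  have hφ' : Deg φ' (σ - D) := by
    intro p hp h hh
    change φ (g * h) = 0
    exact hφ (D + p) (by omega) _ (hg.mul hh)
  have hcol : ∀ h, h ∈ gor φ' ↔ g * h ∈ gor φ := by
    intro h
    constructor
    · intro hh x
      have := hh x
      change φ (g * (h * x)) = 0 at this
      rwa [← mul_assoc] at this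
    · intro hh x
      change φ (g * (h * x)) = 0
      rw [← mul_assoc]
      exact hh x
  have hle : gor φ ≤ gor φ' := fun h hh => (hcol h).mpr ((gor φ).mul_mem_left _ hh)
  have hne : ∃ h : MvPolynomial (Fin n) K, h.IsHomogeneous (σ - D) ∧ h ∉ gor φ' := by
    by_contra hcon
    push Not at hcon
    apply hgI
    apply annP_of_homog hφ (by omega) hg
    intro v hv
    have := hcon v hv 1
    rw [mul_one] at this
    exact this
  have hlow := length_lower3 hA (G := Set.range f)
    (by rintro _ ⟨i, rfl⟩; exact ⟨a i, haA i, hf i⟩)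
    (fun i => ⟨σ + 1, by
      rw [hI]
      exact htop _ (Nat.lt_succ_self σ) _ (isHomogeneous_X_pow i (σ + 1))⟩) m (σ - D) (gor φ')
    (gor_homog hφ') (by
      rintro _ ⟨i, rfl⟩
      apply hle
      rw [← hI]
      exact Ideal.subset_span ⟨i, rfl⟩) (finite_of_le hle hfin) hne (by omega)
  have h1 := finrank_colon hcol hfin
  rw [hlen] at h1
  omega

end TH130CI
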