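import Pool.Agent.TH130.CI.Pts2
import Pool.Agent.TH130.CI.Len2

/-!
The recursive lower bound for the length of a quotient containing forms of low degree.
-/

open MvPolynomial Finset Module
open Pool.Agent.W515.SLP (AnnP Deg annP_zero annP_of_gt annP_of_homog)
open H503R3.QCI (Homog)

namespace TH130CI

/-- The function `β_δ`: `β_δ(s) = s + 1` for `s < 2 δ` and `β_δ(s) = β_δ(s - 1) + β_δ(⌊s / 2⌋)` for
`s ≥ 2 δ` (and `s ≥ 1`). -/
def binLen (δ : ℕ) (s : ℕ) : ℕ :=
  if _h : 2 * δ ≤ s ∧ 1 ≤ s then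
    binLen δ (s - 1) + binLen δ (s / 2)
  else s + 1
termination_by s
decreasing_by all_goals omega

lemma binLen_small {δ s : ℕ} (h : s < 2 * δ) : binLen δ s = s + 1 := by
  rw [binLen, dif_neg (by omega)]

lemma binLen_big {δ s : ℕ} (hδ : 1 ≤ δ) (h : 2 * δ ≤ s) :
    binLen δ s = binLen δ (s - 1) + binLen δ (s / 2) := by
  rw [binLen, dif_pos (by omega)]

lemma binLen_pos (δ s : ℕ) : 1 ≤ binLen δ s := by
  induction s using Nat.strong_induction_on with
  | _ s ih =>
    rw [binLen]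
    split_ifs with h
    · have := ih (s - 1) (by omega)
      omega
    · omega

lemma binLen_mono {δ : ℕ} (hδ : 1 ≤ δ) : Monotone (binLen δ) := by
  apply monotone_nat_of_le_succ
  intro s
  by_cases h : 2 * δ ≤ s + 1
  · rw [binLen_big hδ h, Nat.add_sub_cancel]
    omega
  · rw [binLen_small (by omega), binLen_small (by omega)]
    omega

lemma binLen_le_half {δ : ℕ} (hδ : 1 ≤ δ) {s : ℕ} (hs : 2 * δ ≤ s) :
    binLen δ s ≤ (s + 1) * binLen δ (s / 2) := by
  induction s, hs using Nat.le_induction with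
  | base =>
    rw [binLen_big hδ le_rfl, binLen_small (by omega), show 2 * δ / 2 = δ by omega]
    have := binLen_pos δ δ
    have h1 : 2 * δ - 1 + 1 ≤ 2 * δ * binLen δ δ := by
      rw [show 2 * δ - 1 + 1 = 2 * δ by omega]
      exact Nat.le_mul_of_pos_right _ this
    calc 2 * δ - 1 + 1 + binLen δ δ ≤ 2 * δ * binLen δ δ + binLen δ δ := by omega
      _ = (2 * δ + 1) * binLen δ δ := by ring
  | succ s hs ih =>
    rw [binLen_big hδ (by omega), Nat.add_sub_cancel]
    have h1 : binLen δ (s / 2) ≤ binLen δ ((s + 1) / 2) := binLen_mono hδ (by omega)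
    calc binLen δ s + binLen δ ((s + 1) / 2)
        ≤ (s + 1) * binLen δ (s / 2) + binLen δ ((s + 1) / 2) := by omega
      _ ≤ (s + 1) * binLen δ ((s + 1) / 2) + binLen δ ((s + 1) / 2) := by
          have := Nat.mul_le_mul_left (s + 1) h1
          omega
      _ = (s + 1 + 1) * binLen δ ((s + 1) / 2) := by ring

lemma binLen_grow {δ B : ℕ} (hδ : 1 ≤ δ) (hB : 1 ≤ B) {s0 : ℕ}
    (h : (s0 + 1) * B < binLen δ s0) {s : ℕ} (hs : s0 ≤ s) : (s + 1) * B < binLen δ s := by
  have h0 : 2 * δ ≤ s0 := by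
    by_contra hcon
    rw [binLen_small (by omega)] at h
    have := Nat.le_mul_of_pos_right (s0 + 1) hB
    omega
  induction s, hs using Nat.le_induction with
  | base => exact h
  | succ s hs ih =>
    -- `B ≤ binLen δ (s / 2)`
    have h1 := binLen_le_half hδ (s := s) (by omega)
    have h2 : B < binLen δ (s / 2) := by
      by_contra hcon
      have h3 : (s + 1) * binLen δ (s / 2) ≤ (s + 1) * B := Nat.mul_le_mul_left _ (by omega)
      omega
    have h3 : binLen δ (s / 2) ≤ binLen δ ((s + 1) / 2) := binLen_mono hδ (by omega)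
    rw [binLen_big hδ (by omega : 2 * δ ≤ s + 1), Nat.add_sub_cancel]
    have h4 : (s + 1 + 1) * B = (s + 1) * B + B := by ring
    omega

/-- **Growth of `β_δ`.** -/
theorem binLen_lower {δ : ℕ} (hδ : 1 ≤ δ) (r : ℕ) : ∀ s, 4 ^ r * δ ≤ s →
    2 ^ (r ^ 2) * δ ^ r ≤ binLen δ s := by
  induction r with
  | zero =>
    intro s _
    simpa using binLen_pos δ s
  | succ r ih =>
    set c := 2 ^ (r ^ 2) * δ ^ r with hc
    have h1 : 1 ≤ 4 ^ r := Nat.one_le_pow _ _ (by norm_num)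
    have h1δ : δ ≤ 4 ^ r * δ := Nat.le_mul_of_pos_left δ h1
    have inner : ∀ t, (t + 1) * c ≤ binLen δ (2 * (4 ^ r * δ) + t) := by
      intro t
      induction t with
      | zero =>
        rw [Nat.zero_add, one_mul]
        exact ih _ (by omega)
      | succ t iht =>
        rw [binLen_big hδ (by omega),
          show 2 * (4 ^ r * δ) + (t + 1) - 1 = 2 * (4 ^ r * δ) + t by omega]
        have e2 := ih ((2 * (4 ^ r * δ) + (t + 1)) / 2) (by omega)
        calc (t + 1 + 1) * c = (t + 1) * c + c := by ring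
          _ ≤ _ := Nat.add_le_add iht e2
    intro s hs
    have hs4 : 4 ^ (r + 1) * δ = 4 * (4 ^ r * δ) := by ring
    rw [hs4] at hs
    have h2 := inner (s - 2 * (4 ^ r * δ))
    rw [show 2 * (4 ^ r * δ) + (s - 2 * (4 ^ r * δ)) = s by omega] at h2
    refine le_trans ?_ h2
    have h3 : 2 * (4 ^ r * δ) ≤ s - 2 * (4 ^ r * δ) + 1 := by omega
    calc 2 ^ ((r + 1) ^ 2) * δ ^ (r + 1) = (2 * (4 ^ r * δ)) * (2 ^ (r ^ 2) * δ ^ r) := by
          rw [show (4 : ℕ) = 2 ^ 2 by norm_num, ← pow_mul,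
            show (r + 1) ^ 2 = r ^ 2 + 2 * r + 1 by ring, pow_add, pow_add]
          ring
      _ ≤ _ := Nat.mul_le_mul_right _ h3

variable {K : Type*} [Field K] {n : ℕ}

/-- **Lower bound for lengths**, recursive form. -/
theorem length_beta {δ : ℕ} (hδ : 1 ≤ δ) {G : Set (MvPolynomial (Fin n) K)}
    (hG : ∀ g ∈ G, ∃ d ≤ δ, g.IsHomogeneous d) (hm : ∀ i, ∃ m, X i ^ m ∈ Ideal.span G) (s : ℕ) :
    ∀ (I : Ideal (MvPolynomial (Fin n) K)), Homog I → (∀ g ∈ G, g ∈ I) →
      Module.Finite K (MvPolynomial (Fin n) K ⧸ I) →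
      (∃ g : MvPolynomial (Fin n) K, g.IsHomogeneous s ∧ g ∉ I) →
      binLen δ s ≤ Module.finrank K (MvPolynomial (Fin n) K ⧸ I) := by
  induction s using Nat.strong_induction_on with
  | _ s ih =>
    intro I hI hGI hf hne
    by_cases hs : 2 * δ ≤ s
    · obtain ⟨I1, I2, hG1, hG2, hI1, hI2, hf1, hf2, hn1, hn2, hle⟩ :=
        step hI hδ hs hG hGI hm hf hne
      have e1 := ih (s - 1) (by omega) I1 hI1 hG1 hf1 hn1
      have e2 := ih (s / 2) (by omega) I2 hI2 hG2 hf2 hn2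
      rw [binLen_big hδ hs]
      omega
    · rw [binLen_small (by omega)]
      exact length_socle s I hI hf hne

/-- **Equations of low degree**, recursive form. -/
theorem beta_pts [CharZero K] {Z W : Finset (Fin (n + 1) → K)} {D : ℕ}
    (hG : Pool.Agent.TH274.PT.GorPts Z)
    (hL : LastDeg Z D) (hZW : Z ⊆ W) {δ : ℕ} (hδ : 1 ≤ δ) (hW : CutOutBy (LowForm δ) W)
    {c : Fin (n + 1) → K} (hc : ∀ p ∈ W, eval p (Pool.Agent.H500R2.WLP.lin c) ≠ 0)
    {N : ℕ} (hND : N ≤ D) (hB : ∀ j < N, (D - N + 2) * hvec Z j < binLen δ (D - N + 1)) :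
    LefRange (Pool.Agent.TH274.PT.red Z c) D N := by
  classical
  obtain ⟨hZne, hD⟩ := last_pos hL
  let B := (Finset.range N).sup (hvec Z)
  have hBj : ∀ j < N, hvec Z j ≤ B := fun j hj => Finset.le_sup (f := hvec Z)
    (Finset.mem_range.2 hj)
  have hB1 : 1 ≤ N → 1 ≤ B := fun hN => le_trans (hvec_zero_pos hZne) (hBj 0 (by omega))
  have hBB : 1 ≤ N → (D - N + 1 + 1) * B < binLen δ (D - N + 1) := by
    intro hN
    obtain ⟨j, hj, hjB⟩ := Finset.exists_mem_eq_sup (Finset.range N)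
      ⟨0, Finset.mem_range.2 (by omega)⟩ (hvec Z)
    change (D - N + 2) * (Finset.range N).sup (hvec Z) < _
    rw [hjB]
    exact hB j (Finset.mem_range.1 hj)
  refine core_pts hG hD hL hZW (P := LowForm δ) (fun g ⟨d, _, hg⟩ => ⟨d, hg⟩) hW hc
    ⟨1, hδ, Pool.Agent.H500R2.WLP.lin_isHomogeneous c⟩ hND hB1 hBj ?_
  intro i hi G hGP hm ψ hψ hGI hne
  have h1 := length_beta hδ (G := G) (fun g hg => hGP g hg) hm (D - i) (gor ψ) (gor_homog hψ)
    hGI (gor_finite hψ) hne
  have h2 := binLen_grow hδ (hB1 (by omega)) (hBB (by omega)) (s := D - i) (by omega)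
  omega

end TH130CI
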