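import Pool.Agent.TH130.CI.Sat

/-!
A homogeneous regular sequence of length less than the number of variables has positive depth; the
Cayley–Bacharach bound for hypersurface sections of zero-dimensional complete intersections.
-/

open MvPolynomial
open Pool.Agent.W515.SLP (AnnP Deg annP_zero annP_of_gt annP_of_homog lin)
open H503R3.QCI (Homog comp_mul comp_mul_of_lt NZD Reg homog_span isSocleDegree_ci gr mem_gr HS_ci
  HS cip gr_high)

namespace TH130CI

variable {K : Type*} [Field K] {n : ℕ}

lemma coeff_linL (q : Fin n → K) (j : Fin n) : coeff (Finsupp.single j 1) (linL K n q) = q j := by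
  change coeff _ (lin q) = _
  rw [lin, coeff_sum, Finset.sum_eq_single j]
  · rw [coeff_C_mul, coeff_X, if_pos rfl, mul_one]
  · intro i _ hi
    rw [coeff_C_mul, coeff_X, if_neg, mul_zero]
    intro h
    exact hi (Finsupp.single_left_injective one_ne_zero h)
  · intro h; exact absurd (Finset.mem_univ j) h

lemma exists_linL {f : MvPolynomial (Fin n) K} (hf : f.IsHomogeneous 1) :
    ∃ q, f = linL K n q := by
  have h : f ∈ LinearMap.range (linL K n) := by
    rw [f.as_sum]
    refine Submodule.sum_mem _ fun a ha => ?_
    have hadeg : a.degree = 1 := by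
      by_contra hne
      exact (mem_support_iff.1 ha) (hf.coeff_eq_zero hne)
    obtain ⟨j, rfl⟩ : ∃ j, a = Finsupp.single j 1 := by
      have hane : a ≠ 0 := by rintro rfl; simp at hadeg
      obtain ⟨j, hj⟩ := Finsupp.ne_iff.mp hane
      rw [Finsupp.coe_zero, Pi.zero_apply] at hj
      have hle1 : Finsupp.single j 1 ≤ a := by
        rw [Finsupp.single_le_iff]; omega
      refine ⟨j, ?_⟩
      have h1 : a = (a - Finsupp.single j 1) + Finsupp.single j 1 :=
        (tsub_add_cancel_of_le hle1).symm
      have h3 := congrArg Finsupp.degree h1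
      rw [map_add, Finsupp.degree_single, hadeg] at h3
      have h4 : a - Finsupp.single j 1 = 0 := by
        rw [← Finsupp.degree_eq_zero_iff]; omega
      rw [h1, h4, zero_add]
    refine ⟨coeff (Finsupp.single j 1) f • Pi.single j 1, ?_⟩
    rw [map_smul, linL_single, X, smul_monomial, smul_eq_mul, mul_one]
  obtain ⟨q, hq⟩ := h
  exact ⟨q, hq.symm⟩

/-- linear forms: the ideal is prime and positive-dimensional -/
lemma no_socle_lin {m : ℕ} (hmn : m < n) {f : Fin m → MvPolynomial (Fin n) K}
    (hf : ∀ i, (f i).IsHomogeneous 1) {w : MvPolynomial (Fin n) K}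
    (hw : ∀ i, X i * w ∈ Ideal.span (Set.range f)) : w ∈ Ideal.span (Set.range f) := by
  classical
  choose v hv using fun i => exists_linL (hf i)
  set I := Ideal.span (Set.range f) with hI
  let V : Submodule K (Fin n → K) := Submodule.span K (Set.range v)
  obtain ⟨s, hs⟩ := V.mkQ.exists_rightInverse_of_surjective (LinearMap.range_eq_top.mpr
    V.mkQ_surjective)
  let π : (Fin n → K) →ₗ[K] (Fin n → K) := s ∘ₗ V.mkQ
  have hQ : ∀ u, V.mkQ (π u) = V.mkQ u := fun u => LinearMap.congr_fun hs (V.mkQ u)
  have hVI : ∀ u ∈ V, linL K n u ∈ I := by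
    intro u hu
    have h1 : V ≤ (I.restrictScalars K).comap (linL K n) := by
      rw [Submodule.span_le]
      rintro _ ⟨i, rfl⟩
      change linL K n (v i) ∈ I
      rw [← hv i]
      exact Ideal.subset_span ⟨i, rfl⟩
    exact h1 hu
  let ρ : MvPolynomial (Fin n) K →ₐ[K] MvPolynomial (Fin n) K :=
    aeval fun j => linL K n (π (Pi.single j 1))
  have hρ : ∀ u, ρ (linL K n u) = linL K n (π u) := by
    intro u
    have h1 : ρ.toLinearMap ∘ₗ linL K n = linL K n ∘ₗ π := by
      apply LinearMap.pi_ext'
      intro j
      apply LinearMap.ext_ring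
      change ρ (linL K n (Pi.single j 1)) = linL K n (π (Pi.single j 1))
      rw [linL_single, aeval_X]
    exact LinearMap.congr_fun h1 u
  have hker : ∀ x ∈ I, ρ x = 0 := by
    intro x hx
    have h1 : I ≤ RingHom.ker ρ := by
      rw [hI, Ideal.span_le]
      rintro _ ⟨i, rfl⟩
      change ρ (f i) = 0
      rw [hv i, hρ]
      have h2 : V.mkQ (v i) = 0 :=
        (Submodule.Quotient.mk_eq_zero V).mpr (Submodule.subset_span ⟨i, rfl⟩)
      have h3 : π (v i) = 0 := by
        change s (V.mkQ (v i)) = 0
        rw [h2, map_zero]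
      rw [h3, map_zero]
    exact h1 hx
  have hsub : ∀ x, x - ρ x ∈ I := by
    intro x
    have h1 : (Ideal.Quotient.mkₐ K I).comp ρ = Ideal.Quotient.mkₐ K I := by
      apply algHom_ext
      intro j
      rw [AlgHom.comp_apply, aeval_X]
      symm
      change Ideal.Quotient.mk I (X j) = Ideal.Quotient.mk I _
      rw [Ideal.Quotient.mk_eq_mk_iff_sub_mem, ← linL_single, ← map_sub]
      apply hVI
      rw [← Submodule.Quotient.mk_eq_zero V]
      change V.mkQ _ = 0
      rw [map_sub, hQ, sub_self]
    have h2 := AlgHom.congr_fun h1 x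
    have h3 : Ideal.Quotient.mk I x = Ideal.Quotient.mk I (ρ x) := h2.symm
    exact (Ideal.Quotient.mk_eq_mk_iff_sub_mem _ _).mp h3
  by_cases hρw : ρ w = 0
  · have := hsub w
    rwa [hρw, sub_zero] at this
  · exfalso
    have hV : V = ⊤ := by
      rw [eq_top_iff]
      rintro u -
      rw [← Submodule.Quotient.mk_eq_zero V]
      change V.mkQ u = 0
      have h1 : V.mkQ = 0 := by
        apply LinearMap.pi_ext'
        intro j
        apply LinearMap.ext_ring
        change V.mkQ (Pi.single j 1) = 0
        have h2 := hker _ (hw j)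
        rw [map_mul, mul_eq_zero, or_iff_left hρw, aeval_X] at h2
        have h3 : π (Pi.single j 1) = 0 := by
          ext i
          rw [← coeff_linL (π (Pi.single j 1)), h2, coeff_zero, Pi.zero_apply]
        rw [← hQ, h3, map_zero]
      rw [h1, LinearMap.zero_apply]
    have h1 : Module.finrank K V ≤ m := by
      have := finrank_range_le_card (R := K) v
      rwa [Fintype.card_fin] at this
    rw [hV, finrank_top, Module.finrank_fin_fun] at h1
    omega

/-- **Positive depth.** -/
theorem no_socle [Infinite K] {m : ℕ} (hmn : m < n) : ∀ (c : ℕ)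
    (f : Fin m → MvPolynomial (Fin n) K) (d : Fin m → ℕ),
    (∀ i, (f i).IsHomogeneous (d i)) → (∀ i, 1 ≤ d i) → SRegOn Finset.univ f →
    (Finset.univ.filter fun i => d i ≠ 1).card = c →
    ∀ (w : MvPolynomial (Fin n) K), (∀ i, X i * w ∈ Ideal.span (Set.range f)) →
      w ∈ Ideal.span (Set.range f) := by
  classical
  intro c
  induction c with
  | zero =>
    intro f d hf hd _ hc w hw
    rw [Finset.card_eq_zero, Finset.filter_eq_empty_iff] at hc
    refine no_socle_lin hmn (fun i => ?_) hw
    have := hc (Finset.mem_univ i)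
    push Not at this
    rw [← this]
    exact hf i
  | succ c ih =>
    intro f d hf hd hreg hc w hXw
    obtain ⟨t, ht⟩ : (Finset.univ.filter fun i => d i ≠ 1).Nonempty := by
      rw [← Finset.card_pos]; omega
    rw [Finset.mem_filter] at ht
    set P := Ideal.span (f '' ((Finset.univ.erase t : Finset (Fin m)) : Set (Fin m))) with hP
    have na : NZD P (f t) := hreg _ (Finset.subset_univ _) t (Finset.mem_univ t)
      (Finset.notMem_erase t _)
    obtain ⟨q, hq⟩ := exists_lin_nzd (hf t) (hd t) na
    have hlin : (lin q : MvPolynomial (Fin n) K).IsHomogeneous 1 := linL_homog q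
    have hreg' := sreg_update hf hd hreg t hlin hq
    have hf' : ∀ i, (Function.update f t (lin q) i).IsHomogeneous (Function.update d t 1 i) := by
      intro i
      by_cases hi : i = t
      · subst hi; rw [Function.update_self, Function.update_self]; exact hlin
      · rw [Function.update_of_ne hi, Function.update_of_ne hi]; exact hf i
    have hd' : ∀ i, 1 ≤ Function.update d t 1 i := by
      intro i
      by_cases hi : i = t
      · subst hi; rw [Function.update_self]
      · rw [Function.update_of_ne hi]; exact hd i
    have hc' : (Finset.univ.filter fun i => Function.update d t 1 i ≠ 1).card = c := by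
      have h1 : (Finset.univ.filter fun i => Function.update d t 1 i ≠ 1) =
          (Finset.univ.filter fun i => d i ≠ 1).erase t := by
        ext i
        simp only [Finset.mem_filter, Finset.mem_univ, true_and, Finset.mem_erase]
        by_cases hi : i = t
        · subst hi; simp
        · rw [Function.update_of_ne hi]; tauto
      rw [h1, Finset.card_erase_of_mem (Finset.mem_filter.mpr ht)]
      omega
    have hI : Ideal.span (Set.range f) = P ⊔ Ideal.span {f t} := range_eq_sup f t
    have hI' : Ideal.span (Set.range (Function.update f t (lin q))) = P ⊔ Ideal.span {lin q} := by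
      rw [range_eq_sup _ t, Function.update_self]
      congr 2
      apply Set.image_congr
      intro i hi
      rw [Function.update_of_ne]
      rintro rfl
      simp at hi
    have hsoc := ih _ _ hf' hd' hreg' hc'
    rw [hI'] at hsoc
    rw [hI] at hXw ⊢
    -- `ℓ w ∈ P + (f_t)`
    have hlw : lin q * w ∈ P ⊔ Ideal.span {f t} := by
      rw [lin, Finset.sum_mul]
      refine Ideal.sum_mem _ fun i _ => ?_
      rw [mul_assoc]
      exact Ideal.mul_mem_left _ _ (hXw i)
    obtain ⟨p, hp, r, hr, hpr⟩ := Submodule.mem_sup.mp hlw
    obtain ⟨y, rfl⟩ := Ideal.mem_span_singleton'.mp hr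
    have hy : ∀ i, X i * y ∈ P ⊔ Ideal.span {lin q} := by
      intro i
      obtain ⟨p', hp', r', hr', hpr'⟩ := Submodule.mem_sup.mp (hXw i)
      obtain ⟨y', rfl⟩ := Ideal.mem_span_singleton'.mp hr'
      -- `f_t (X_i y - ℓ y') ∈ P`
      have h1 : X i * y - lin q * y' ∈ P := by
        apply na
        have h2 : f t * (X i * y - lin q * y') = lin q * p' - X i * p := by
          have e1 : X i * (lin q * w) = X i * p + X i * y * f t := by rw [← hpr]; ring
          have e2 : lin q * (X i * w) = lin q * p' + lin q * y' * f t := by rw [← hpr']; ring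
          have e3 : X i * (lin q * w) = lin q * (X i * w) := by ring
          rw [e1, e2] at e3
          linear_combination e3
        rw [h2]
        exact P.sub_mem (P.mul_mem_left _ hp') (P.mul_mem_left _ hp)
      have h2 : X i * y = (X i * y - lin q * y') + y' * lin q := by ring
      rw [h2]
      exact Ideal.add_mem _ (Ideal.mem_sup_left h1) (Ideal.mem_sup_right
        (Ideal.mul_mem_left _ _ (Ideal.mem_span_singleton_self _)))
    obtain ⟨p2, hp2, r2, hr2, hpr2⟩ := Submodule.mem_sup.mp (hsoc y hy)
    obtain ⟨z, rfl⟩ := Ideal.mem_span_singleton'.mp hr2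
    have h1 : w - f t * z ∈ P := by
      apply hq
      have h2 : lin q * (w - f t * z) = p + f t * p2 := by
        have : lin q * w = p + y * f t := hpr.symm
        rw [mul_sub, this, ← hpr2]; ring
      rw [h2]
      exact P.add_mem hp (P.mul_mem_left _ hp2)
    have h2 : w = (w - f t * z) + z * f t := by ring
    rw [h2]
    exact Ideal.add_mem _ (Ideal.mem_sup_left h1) (Ideal.mem_sup_right
      (Ideal.mul_mem_left _ _ (Ideal.mem_span_singleton_self _)))

end TH130CI
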