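import Pool.Agent.TH130.CI.Win

/-!
Lower bound for the length of a quotient of large socle degree, duality, and dimensions.
-/

open MvPolynomial
open Pool.Agent.W515.SLP (AnnP Deg annP_zero annP_of_gt annP_of_homog)
open H503R3.QCI (Homog comp_mul comp_mul_of_lt)

namespace TH130CI

variable {K : Type*} [Field K] {n : ℕ}

/-- A quotient by a homogeneous ideal which contains forms of degree at most `D` without common
zeros and which is nonzero in degree `s ≥ 4 ^ r * D` has length at least `2 ^ (r ^ 2) * D ^ r`. -/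
theorem length_lower {D : ℕ} (hD : 1 ≤ D) {G : Set (MvPolynomial (Fin n) K)}
    (hG : ∀ g ∈ G, ∃ d ≤ D, g.IsHomogeneous d) (hm : ∀ i, ∃ m, X i ^ m ∈ Ideal.span G) (r : ℕ) :
    ∀ (s : ℕ) (I : Ideal (MvPolynomial (Fin n) K)), Homog I → (∀ g ∈ G, g ∈ I) →
      Module.Finite K (MvPolynomial (Fin n) K ⧸ I) →
      (∃ g : MvPolynomial (Fin n) K, g.IsHomogeneous s ∧ g ∉ I) → 4 ^ r * D ≤ s →
      2 ^ (r ^ 2) * D ^ r ≤ Module.finrank K (MvPolynomial (Fin n) K ⧸ I) := by
  induction r with
  | zero =>
    intro s I _ _ hf hne _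
    obtain ⟨g, _, hg⟩ := hne
    have : Nontrivial (MvPolynomial (Fin n) K ⧸ I) := by
      refine ⟨Ideal.Quotient.mk I g, 0, ?_⟩
      rwa [Ne, Ideal.Quotient.eq_zero_iff_mem]
    have h1 := Module.finrank_pos (R := K) (M := MvPolynomial (Fin n) K ⧸ I)
    calc 2 ^ (0 ^ 2) * D ^ 0 = 1 := by simp
      _ ≤ _ := h1
  | succ r ih =>
    -- inner induction
    have inner : ∀ t, ∀ I : Ideal (MvPolynomial (Fin n) K), Homog I → (∀ g ∈ G, g ∈ I) →
        Module.Finite K (MvPolynomial (Fin n) K ⧸ I) →
        (∃ g : MvPolynomial (Fin n) K, g.IsHomogeneous (2 * (4 ^ r * D) + t) ∧ g ∉ I) →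
        (t + 1) * (2 ^ (r ^ 2) * D ^ r) ≤ Module.finrank K (MvPolynomial (Fin n) K ⧸ I) := by
      intro t
      induction t with
      | zero =>
        intro I hI hGI hf hne
        rw [Nat.zero_add, one_mul]
        exact ih _ I hI hGI hf hne (by omega)
      | succ t iht =>
        intro I hI hGI hf hne
        have h4 : 1 ≤ 4 ^ r := Nat.one_le_pow _ _ (by norm_num)
        have h4D : D ≤ 4 ^ r * D := Nat.le_mul_of_pos_left D h4
        obtain ⟨I1, I2, hG1, hG2, hI1, hI2, hf1, hf2, hn1, hn2, hle⟩ :=
          step hI hD (by omega) hG hGI hm hf hne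
        have e1 := iht I1 hI1 hG1 hf1 (by
          rwa [show 2 * (4 ^ r * D) + (t + 1) - 1 = 2 * (4 ^ r * D) + t by omega] at hn1)
        have e2 := ih _ I2 hI2 hG2 hf2 hn2 (by omega)
        calc (t + 1 + 1) * (2 ^ (r ^ 2) * D ^ r)
            = (t + 1) * (2 ^ (r ^ 2) * D ^ r) + 2 ^ (r ^ 2) * D ^ r := by ring
          _ ≤ _ := le_trans (Nat.add_le_add e1 e2) hle
    intro s I hI hGI hf hne hs
    have hs4 : 4 ^ (r + 1) * D = 4 * (4 ^ r * D) := by ring
    rw [hs4] at hs
    have h1 : 2 * (4 ^ r * D) ≤ s := by omega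
    have h2 := inner (s - 2 * (4 ^ r * D)) I hI hGI hf (by
      rwa [show 2 * (4 ^ r * D) + (s - 2 * (4 ^ r * D)) = s by omega])
    refine le_trans ?_ h2
    have h3 : 2 * (4 ^ r * D) ≤ s - 2 * (4 ^ r * D) + 1 := by omega
    calc 2 ^ ((r + 1) ^ 2) * D ^ (r + 1) = (2 * (4 ^ r * D)) * (2 ^ (r ^ 2) * D ^ r) := by
          rw [show (4 : ℕ) = 2 ^ 2 by norm_num, ← pow_mul, show (r + 1) ^ 2 = r ^ 2 + 2 * r + 1 by ring]
          rw [pow_add, pow_add]
          ring
      _ ≤ _ := Nat.mul_le_mul_right _ h3

/-- duality: injectivity in the complementary degree gives surjectivity -/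
theorem surj_of_inj {φ : MvPolynomial (Fin n) K →ₗ[K] K} {D : ℕ} (hφ : Deg φ D)
    {ℓ : MvPolynomial (Fin n) K} (hℓ : ℓ.IsHomogeneous 1) {i k : ℕ} (hik : i + k ≤ D)
    (hinj : ∀ u : MvPolynomial (Fin n) K, u.IsHomogeneous (D - (i + k)) → AnnP φ (ℓ ^ k * u) →
      AnnP φ u) {h : MvPolynomial (Fin n) K} (hh : h.IsHomogeneous (i + k)) :
    ∃ g : MvPolynomial (Fin n) K, g.IsHomogeneous i ∧ AnnP φ (h - ℓ ^ k * g) := by
  set i' := D - (i + k) with hi'
  have : Module.Finite K (homogeneousSubmodule (Fin n) K i') :=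
    Module.Finite.iff_fg.2 (homogeneousSubmodule_fg _ _ i')
  let Λ : homogeneousSubmodule (Fin n) K i →ₗ[K]
      Module.Dual K (homogeneousSubmodule (Fin n) K i') :=
    LinearMap.mk₂ K (fun g u => φ (ℓ ^ k * (g : MvPolynomial (Fin n) K) *
      (u : MvPolynomial (Fin n) K)))
      (by intro a b c; simp [mul_add, add_mul])
      (by intro a b c; simp)
      (by intro a b c; simp [mul_add])
      (by intro a b c; simp)
  let ψ : Module.Dual K (homogeneousSubmodule (Fin n) K i') :=
    { toFun := fun u => φ (h * (u : MvPolynomial (Fin n) K))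
      map_add' := by intro a b; simp [mul_add]
      map_smul' := by intro a b; simp }
  have hmem : ψ ∈ LinearMap.range Λ := by
    rw [← Subspace.dualCoannihilator_dualAnnihilator_eq (W := LinearMap.range Λ)]
    rw [Submodule.mem_dualAnnihilator]
    intro u hu
    rw [Submodule.mem_dualCoannihilator] at hu
    have hu2 : ∀ g : MvPolynomial (Fin n) K, g.IsHomogeneous i →
        φ (ℓ ^ k * g * (u : MvPolynomial (Fin n) K)) = 0 := by
      intro g hg
      exact hu (Λ ⟨g, hg⟩) ⟨_, rfl⟩
    have hu3 : AnnP φ (ℓ ^ k * (u : MvPolynomial (Fin n) K)) := by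
      apply annP_of_homog hφ (i := k + i') (by omega)
      · have := (hℓ.pow k).mul u.2
        simpa using this
      · intro v hv
        have h4 : D - (k + i') = i := by omega
        rw [h4] at hv
        have h5 := hu2 v hv
        rw [← h5]
        congr 1
        ring
    have hu4 : AnnP φ (u : MvPolynomial (Fin n) K) := hinj _ u.2 hu3
    change φ (h * (u : MvPolynomial (Fin n) K)) = 0
    rw [mul_comm]
    exact hu4 h
  obtain ⟨g, hg⟩ := hmem
  refine ⟨g, g.2, ?_⟩
  apply annP_of_homog hφ (i := i + k) (by omega)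
  · apply IsHomogeneous.sub hh
    have := (hℓ.pow k).mul g.2
    rw [one_mul, add_comm] at this
    exact this
  · intro v hv
    have h6 := LinearMap.congr_fun hg ⟨v, hv⟩
    have h7 : φ (ℓ ^ k * (g : MvPolynomial (Fin n) K) * v) = φ (h * v) := h6
    rw [sub_mul, map_sub, h7, sub_self]

/-- the number of monomials of degree `M` -/
lemma finrank_hom_le (M : ℕ) :
    Module.finrank K (homogeneousSubmodule (Fin n) K M) ≤ n ^ M := by
  induction M with
  | zero =>
    rw [pow_zero]
    have h1 : homogeneousSubmodule (Fin n) K 0 ≤ Submodule.span K {1} := by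
      intro p hp
      have h2 : p.totalDegree = 0 := by
        by_cases h0 : p = 0
        · rw [h0, totalDegree_zero]
        · exact IsHomogeneous.totalDegree hp h0
      rw [totalDegree_eq_zero_iff_eq_C] at h2
      rw [h2, Submodule.mem_span_singleton]
      exact ⟨coeff 0 p, by rw [smul_eq_C_mul, mul_one]⟩
    refine le_trans (Submodule.finrank_mono h1) ?_
    exact (finrank_span_singleton one_ne_zero).le
  | succ M ih =>
    let f : (Fin n → homogeneousSubmodule (Fin n) K M) →ₗ[K] MvPolynomial (Fin n) K :=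
      ∑ j, (LinearMap.mulLeft K (X j) ∘ₗ (homogeneousSubmodule (Fin n) K M).subtype) ∘ₗ
        LinearMap.proj j
    have hle : homogeneousSubmodule (Fin n) K (M + 1) ≤ LinearMap.range f := by
      intro g hg
      rw [g.as_sum]
      refine Submodule.sum_mem _ fun a ha => ?_
      have hadeg : a.degree = M + 1 := by
        by_contra hne
        exact (mem_support_iff.1 ha) (IsHomogeneous.coeff_eq_zero hg hne)
      have hane : a ≠ 0 := by rintro rfl; simp at hadeg
      obtain ⟨i, hi⟩ := Finsupp.ne_iff.mp hane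
      rw [Finsupp.coe_zero, Pi.zero_apply] at hi
      have hle1 : Finsupp.single i 1 ≤ a := by
        rw [Finsupp.single_le_iff]; omega
      have h2 : (a - Finsupp.single i 1).degree = M := by
        have h1 : a = (a - Finsupp.single i 1) + Finsupp.single i 1 :=
          (tsub_add_cancel_of_le hle1).symm
        have h3 := congrArg Finsupp.degree h1
        rw [map_add, Finsupp.degree_single] at h3
        omega
      have hmem : monomial (a - Finsupp.single i 1) (coeff a g) ∈
          homogeneousSubmodule (Fin n) K M := by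
        rw [mem_homogeneousSubmodule]
        exact isHomogeneous_monomial _ h2
      refine ⟨Pi.single i ⟨monomial (a - Finsupp.single i 1) (coeff a g), hmem⟩, ?_⟩
      have hfa : ∀ v : Fin n → homogeneousSubmodule (Fin n) K M,
          f v = ∑ j, X j * (v j : MvPolynomial (Fin n) K) := by
        intro v
        simp only [f, LinearMap.sum_apply]
        rfl
      rw [hfa, Finset.sum_eq_single i]
      · rw [Pi.single_eq_same]
        change X i * monomial (a - Finsupp.single i 1) (coeff a g) = _
        rw [X, monomial_mul, one_mul, add_comm, tsub_add_cancel_of_le hle1]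
      · intro j _ hj
        rw [Pi.single_eq_of_ne hj]
        exact mul_zero _
      · intro h; exact absurd (Finset.mem_univ i) h
    calc Module.finrank K (homogeneousSubmodule (Fin n) K (M + 1))
        ≤ Module.finrank K (LinearMap.range f) := Submodule.finrank_mono hle
      _ ≤ Module.finrank K (Fin n → homogeneousSubmodule (Fin n) K M) :=
          LinearMap.finrank_range_le f
      _ = n * Module.finrank K (homogeneousSubmodule (Fin n) K M) := by
          rw [Module.finrank_pi_fintype]; simp
      _ ≤ n ^ (M + 1) := by rw [pow_succ, mul_comm]; exact Nat.mul_le_mul_right n ih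

/-- the graded pieces of a quotient -/
noncomputable def AA (I : Ideal (MvPolynomial (Fin n) K)) (p : ℕ) :
    Submodule K (MvPolynomial (Fin n) K ⧸ I) :=
  (homogeneousSubmodule (Fin n) K p).map (Ideal.Quotient.mkₐ K I).toLinearMap

lemma mem_AA {I : Ideal (MvPolynomial (Fin n) K)} {p : ℕ} {x : MvPolynomial (Fin n) K ⧸ I} :
    x ∈ AA I p ↔ ∃ g : MvPolynomial (Fin n) K, g.IsHomogeneous p ∧ Ideal.Quotient.mk I g = x := by
  constructor
  · rintro ⟨g, hg, rfl⟩; exact ⟨g, hg, rfl⟩
  · rintro ⟨g, hg, rfl⟩; exact ⟨g, hg, rfl⟩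

lemma finrank_AA_le (I : Ideal (MvPolynomial (Fin n) K)) (p : ℕ) :
    Module.finrank K (AA I p) ≤ n ^ p :=
  le_trans (Submodule.finrank_map_le _ _) (finrank_hom_le p)

lemma finrank_sum_le {V : Type*} [AddCommGroup V] [Module K V] [Module.Finite K V] {B : ℕ}
    (W : ℕ → Submodule K V) (hW : ∀ p, Module.finrank K (W p) ≤ B) (m : ℕ) :
    Module.finrank K (⨆ p ∈ Finset.range m, W p : Submodule K V) ≤ m * B := by
  induction m with
  | zero =>
    have h1 : (⨆ p ∈ Finset.range 0, W p : Submodule K V) = ⊥ := by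
      simp only [Finset.range_zero, Finset.notMem_empty, iSup_false, iSup_bot]
    rw [h1, finrank_bot]
    exact Nat.zero_le _
  | succ m ih =>
    rw [Finset.range_add_one, Finset.iSup_insert]
    refine le_trans (Submodule.finrank_add_le_finrank_add_finrank _ _) ?_
    have := hW m
    rw [Nat.succ_mul]
    omega

end TH130CI
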