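import Pool.Agent.TH130.CI.Nzd
import Pool.Agent.TH130.CI.Len

/-!
Artinian complete intersections are Gorenstein: the ideal of a homogeneous regular sequence of
length `n` in `n` variables is the annihilator of a functional of degree `∑ (d_i - 1)`.
-/

open MvPolynomial
open Pool.Agent.W515.SLP (AnnP Deg annP_zero annP_of_gt annP_of_homog lin)
open H503R3.QCI (Homog comp_mul comp_mul_of_lt NZD Reg homog_span isSocleDegree_ci gr mem_gr HS_ci
  HS cip)

namespace TH130CI

variable {K : Type*} [Field K] {n : ℕ}

/-- the first half of the swap -/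
lemma swap_nzd' {I : Ideal (MvPolynomial (Fin n) K)} (hI : Homog I) {a b : MvPolynomial (Fin n) K}
    {da db : ℕ} (ha : a.IsHomogeneous da) (hda : 1 ≤ da) (hb : b.IsHomogeneous db)
    (na : NZD I a) (nb : NZD (I ⊔ Ideal.span {a}) b) : NZD I b := by
  apply nzd_of_homog hI hb
  intro m
  induction m using Nat.strong_induction_on with
  | _ m ih =>
    intro g hg hbg
    have h2 : g ∈ I ⊔ Ideal.span {a} := nb g (Ideal.mem_sup_left hbg)
    rcases sup_comp' hI ha hg h2 with ⟨hdm, c, hc, hgc⟩ | h3
    · have h4 : b * c ∈ I := by
        apply na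
        have h5 : a * (b * c) = b * g - b * (g - a * c) := by ring
        rw [h5]
        exact I.sub_mem hbg (I.mul_mem_left _ hgc)
      have h6 := ih (m - da) (by omega) c hc h4
      have h7 : g = (g - a * c) + a * c := by ring
      rw [h7]
      exact I.add_mem hgc (I.mul_mem_left _ h6)
    · exact h3

/-- A family is strongly regular on the finset `U` if every member is a nonzerodivisor modulo any
set of other members. -/
def SRegOn {m : ℕ} (U : Finset (Fin m)) (f : Fin m → MvPolynomial (Fin n) K) : Prop :=
  ∀ T ⊆ U, ∀ t ∈ U, t ∉ T → NZD (Ideal.span (f '' (T : Set (Fin m)))) (f t)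

lemma homog_image {m : ℕ} {f : Fin m → MvPolynomial (Fin n) K} {d : Fin m → ℕ}
    (hf : ∀ i, (f i).IsHomogeneous (d i)) (T : Set (Fin m)) : Homog (Ideal.span (f '' T)) :=
  homog_span (by rintro _ ⟨j, _, rfl⟩; exact ⟨d j, hf j⟩)

lemma span_insert' {m : ℕ} [DecidableEq (Fin m)] (f : Fin m → MvPolynomial (Fin n) K)
    (t : Fin m) (T : Finset (Fin m)) :
    Ideal.span (f '' ((insert t T : Finset (Fin m)) : Set (Fin m))) =
      Ideal.span (f '' (T : Set (Fin m))) ⊔ Ideal.span {f t} := by
  rw [Finset.coe_insert, Set.image_insert_eq, Set.insert_eq, Ideal.span_union, sup_comm]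

lemma sreg_ext {m : ℕ} {f : Fin m → MvPolynomial (Fin n) K} {d : Fin m → ℕ}
    (hf : ∀ i, (f i).IsHomogeneous (d i)) (hd : ∀ i, 1 ≤ d i) {U : Finset (Fin m)}
    (hU : SRegOn U f) {g : MvPolynomial (Fin n) K} {e : ℕ} (hg : g.IsHomogeneous e)
    (hgn : NZD (Ideal.span (f '' (U : Set (Fin m)))) g) :
    (∀ T ⊆ U, NZD (Ideal.span (f '' (T : Set (Fin m)))) g) ∧
    (∀ T ⊆ U, ∀ t ∈ U, t ∉ T → NZD (Ideal.span (f '' (T : Set (Fin m))) ⊔ Ideal.span {g}) (f t)) := by
  classical
  have h1 : ∀ c, ∀ T ⊆ U, (U \ T).card = c → NZD (Ideal.span (f '' (T : Set (Fin m)))) g := by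
    intro c
    induction c with
    | zero =>
      intro T hT hc
      have : T = U := by
        apply Finset.Subset.antisymm hT
        rwa [Finset.card_eq_zero, Finset.sdiff_eq_empty_iff_subset] at hc
      rw [this]
      exact hgn
    | succ c ih =>
      intro T hT hc
      obtain ⟨u, hu⟩ : (U \ T).Nonempty := by
        rw [← Finset.card_pos]; omega
      rw [Finset.mem_sdiff] at hu
      have h2 := ih (insert u T) (Finset.insert_subset hu.1 hT) (by
        have h3 : U \ insert u T = (U \ T).erase u := by
          ext x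
          simp only [Finset.mem_sdiff, Finset.mem_insert, Finset.mem_erase]
          tauto
        rw [h3, Finset.card_erase_of_mem (Finset.mem_sdiff.mpr hu)]
        omega)
      rw [span_insert'] at h2
      exact swap_nzd' (homog_image hf _) (hf u) (hd u) hg (hU T hT u hu.1 hu.2) h2
  have h2 : ∀ T ⊆ U, NZD (Ideal.span (f '' (T : Set (Fin m)))) g := fun T hT => h1 _ T hT rfl
  refine ⟨h2, fun T hT t ht htT => ?_⟩
  have h3 := h2 (insert t T) (Finset.insert_subset ht hT)
  rw [span_insert'] at h3
  exact swap_nzd (homog_image hf _) (hf t) (hd t) hg (hU T hT t ht htT) h3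

lemma sreg_of_reg {m : ℕ} {f : Fin m → MvPolynomial (Fin n) K} {d : Fin m → ℕ}
    (hf : ∀ i, (f i).IsHomogeneous (d i)) (hd : ∀ i, 1 ≤ d i) (hreg : Reg f) :
    SRegOn Finset.univ f := by
  classical
  have key : ∀ p, p ≤ m → SRegOn (Finset.univ.filter fun j : Fin m => j.1 < p) f := by
    intro p
    induction p with
    | zero =>
      intro _ T _ t ht
      rw [Finset.mem_filter] at ht
      omega
    | succ p ih =>
      intro hp
      have ih' := ih (by omega)
      set s : Fin m := ⟨p, by omega⟩ with hs
      have hset : ((Finset.univ.filter fun j : Fin m => j.1 < p : Finset (Fin m)) : Set (Fin m)) =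
          {j | j < s} := by
        ext j
        simp [Fin.lt_def, hs]
      obtain ⟨e1, e2⟩ := sreg_ext hf hd ih' (hf s) (by rw [hset]; exact hreg s)
      intro T hT t ht htT
      by_cases hsT : s ∈ T
      · have h1 : T = insert s (T.erase s) := (Finset.insert_erase hsT).symm
        have h2 : T.erase s ⊆ Finset.univ.filter fun j : Fin m => j.1 < p := by
          intro j hj
          rw [Finset.mem_erase] at hj
          have h3 := hT hj.2
          rw [Finset.mem_filter] at h3 ⊢
          refine ⟨h3.1, ?_⟩
          have h4 : j.1 ≠ p := fun h => hj.1 (Fin.ext h)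
          omega
        have hts : t ≠ s := by rintro rfl; exact htT hsT
        have h3 : t ∈ Finset.univ.filter fun j : Fin m => j.1 < p := by
          rw [Finset.mem_filter] at ht ⊢
          refine ⟨ht.1, ?_⟩
          have h4 : t.1 ≠ p := fun h => hts (Fin.ext h)
          omega
        rw [h1, span_insert']
        exact e2 _ h2 t h3 (fun h => htT (Finset.mem_of_mem_erase h))
      · have h2 : T ⊆ Finset.univ.filter fun j : Fin m => j.1 < p := by
          intro j hj
          have h3 := hT hj
          rw [Finset.mem_filter] at h3 ⊢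
          refine ⟨h3.1, ?_⟩
          have h4 : j.1 ≠ p := by
            intro h
            have h5 : j = s := Fin.ext h
            exact hsT (h5 ▸ hj)
          omega
        by_cases hts : t = s
        · rw [hts]
          exact e1 T h2
        · have h3 : t ∈ Finset.univ.filter fun j : Fin m => j.1 < p := by
            rw [Finset.mem_filter] at ht ⊢
            refine ⟨ht.1, ?_⟩
            have h4 : t.1 ≠ p := fun h => hts (Fin.ext h)
            omega
          exact ih' T h2 t h3 htT
  have h1 := key m le_rfl
  have h2 : (Finset.univ.filter fun j : Fin m => j.1 < m) = Finset.univ := by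
    ext j; simp
  rwa [h2] at h1

lemma reg_of_sreg {m : ℕ} {f : Fin m → MvPolynomial (Fin n) K} (h : SRegOn Finset.univ f) :
    Reg f := by
  classical
  intro i
  have h1 := h (Finset.univ.filter fun j => j < i) (Finset.subset_univ _) i (Finset.mem_univ i)
    (by simp)
  have h2 : ((Finset.univ.filter fun j : Fin m => j < i : Finset (Fin m)) : Set (Fin m)) =
      {j | j < i} := by
    ext j; simp
  rwa [h2] at h1

/-- replacing one member of a regular family -/
lemma sreg_update {m : ℕ} [DecidableEq (Fin m)] {f : Fin m → MvPolynomial (Fin n) K} {d : Fin m → ℕ}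
    (hf : ∀ i, (f i).IsHomogeneous (d i)) (hd : ∀ i, 1 ≤ d i) (hreg : SRegOn Finset.univ f)
    (t : Fin m) {g : MvPolynomial (Fin n) K} {e : ℕ} (hg : g.IsHomogeneous e)
    (hgn : NZD (Ideal.span (f '' ((Finset.univ.erase t : Finset (Fin m)) : Set (Fin m)))) g) :
    SRegOn Finset.univ (Function.update f t g) := by
  have hU : SRegOn (Finset.univ.erase t) f := fun T _ s _ hsT =>
    hreg T (Finset.subset_univ _) s (Finset.mem_univ _) hsT
  obtain ⟨e1, e2⟩ := sreg_ext hf hd hU hg hgn
  have himg : ∀ T : Finset (Fin m), t ∉ T →
      (Function.update f t g) '' (T : Set (Fin m)) = f '' (T : Set (Fin m)) := by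
    intro T ht
    apply Set.image_congr
    intro j hj
    rw [Function.update_of_ne]
    rintro rfl
    exact ht (Finset.mem_coe.mp hj)
  intro T _ s _ hsT
  by_cases htT : t ∈ T
  · have hst : s ≠ t := by rintro rfl; exact hsT htT
    have h1 : T = insert t (T.erase t) := (Finset.insert_erase htT).symm
    rw [h1, span_insert', Function.update_self, Function.update_of_ne hst,
      himg _ (Finset.notMem_erase t T)]
    exact e2 _ (Finset.erase_subset_erase _ (Finset.subset_univ _)) s
      (Finset.mem_erase.mpr ⟨hst, Finset.mem_univ _⟩) (fun h => hsT (Finset.mem_of_mem_erase h))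
  · rw [himg _ htT]
    have h2 : T ⊆ Finset.univ.erase t := by
      intro j hj
      rw [Finset.mem_erase]
      refine ⟨?_, Finset.mem_univ _⟩
      rintro rfl
      exact htT hj
    by_cases hst : s = t
    · subst hst
      rw [Function.update_self]
      exact e1 T h2
    · rw [Function.update_of_ne hst]
      exact hU T h2 s (Finset.mem_erase.mpr ⟨hst, Finset.mem_univ _⟩) hsT

lemma range_eq_sup {m : ℕ} [DecidableEq (Fin m)] (f : Fin m → MvPolynomial (Fin n) K) (t : Fin m) :
    Ideal.span (Set.range f) =
      Ideal.span (f '' ((Finset.univ.erase t : Finset (Fin m)) : Set (Fin m))) ⊔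
        Ideal.span {f t} := by
  rw [← span_insert', Finset.insert_erase (Finset.mem_univ t), Finset.coe_univ, Set.image_univ]

/-- **The socle of an Artinian complete intersection lives in the top degree.** -/
theorem socle_ci [Infinite K] : ∀ (c : ℕ) (f : Fin n → MvPolynomial (Fin n) K) (d : Fin n → ℕ),
    (∀ i, (f i).IsHomogeneous (d i)) → (∀ i, 1 ≤ d i) → SRegOn Finset.univ f →
    (Finset.univ.filter fun i => d i ≠ 1).card = c →
    ∀ (j : ℕ) (w : MvPolynomial (Fin n) K), w.IsHomogeneous j → j < ∑ i, (d i - 1) →
      (∀ i, X i * w ∈ Ideal.span (Set.range f)) → w ∈ Ideal.span (Set.range f) := by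
  classical
  intro c
  induction c with
  | zero =>
    intro f d _ _ _ hc j w _ hj _
    rw [Finset.card_eq_zero, Finset.filter_eq_empty_iff] at hc
    have h1 : ∑ i, (d i - 1) = 0 := by
      refine Finset.sum_eq_zero fun i _ => ?_
      have := hc (Finset.mem_univ i)
      push Not at this
      omega
    omega
  | succ c ih =>
    intro f d hf hd hreg hc j w hw hj hXw
    obtain ⟨t, ht⟩ : (Finset.univ.filter fun i => d i ≠ 1).Nonempty := by
      rw [← Finset.card_pos]; omega
    rw [Finset.mem_filter] at ht
    have hdt : 2 ≤ d t := by have := hd t; have := ht.2; omega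
    set P := Ideal.span (f '' ((Finset.univ.erase t : Finset (Fin n)) : Set (Fin n))) with hP
    have hPh : Homog P := homog_image hf _
    have na : NZD P (f t) := hreg _ (Finset.subset_univ _) t (Finset.mem_univ t)
      (Finset.notMem_erase t _)
    obtain ⟨q, hq⟩ := exists_lin_nzd (hf t) (hd t) na
    have hlin : (lin q : MvPolynomial (Fin n) K).IsHomogeneous 1 := by
      rw [lin]
      refine IsHomogeneous.sum _ _ _ fun i _ => ?_
      have := (isHomogeneous_C (Fin n) (q i)).mul (isHomogeneous_X K i)
      rwa [zero_add] at this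
    have hqpow : ∀ m h, lin q ^ m * h ∈ P → h ∈ P := by
      intro m
      induction m with
      | zero => intro h hh; rwa [pow_zero, one_mul] at hh
      | succ m ihm =>
        intro h hh
        apply ihm
        apply hq
        rwa [← mul_assoc, ← pow_succ']
    -- the modified sequence
    have hreg' := sreg_update hf hd hreg t hlin hq
    have hf' : ∀ i, (Function.update f t (lin q) i).IsHomogeneous (Function.update d t 1 i) := by
      intro i
      by_cases hi : i = t
      · subst hi; rw [Function.update_self, Function.update_self]; exact hlin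
      · rw [Function.update_of_ne hi, Function.update_of_ne hi]; exact hf i
    have hd' : ∀ i, 1 ≤ Function.update d t 1 i := by
      intro i
      by_cases hi : i = t
      · subst hi; rw [Function.update_self]
      · rw [Function.update_of_ne hi]; exact hd i
    have hc' : (Finset.univ.filter fun i => Function.update d t 1 i ≠ 1).card = c := by
      have h1 : (Finset.univ.filter fun i => Function.update d t 1 i ≠ 1) =
          (Finset.univ.filter fun i => d i ≠ 1).erase t := by
        ext i
        simp only [Finset.mem_filter, Finset.mem_univ, true_and, Finset.mem_erase]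
        by_cases hi : i = t
        · subst hi; simp
        · rw [Function.update_of_ne hi]; tauto
      rw [h1, Finset.card_erase_of_mem (Finset.mem_filter.mpr ht)]
      omega
    have hsum : ∑ i, (d i - 1) = ∑ i, (Function.update d t 1 i - 1) + (d t - 1) := by
      rw [← Finset.add_sum_erase Finset.univ (fun i => d i - 1) (Finset.mem_univ t),
        ← Finset.add_sum_erase Finset.univ (fun i => Function.update d t 1 i - 1)
          (Finset.mem_univ t)]
      simp only [Function.update_self]
      have h2 : ∑ x ∈ Finset.univ.erase t, (Function.update d t 1 x - 1) =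
          ∑ x ∈ Finset.univ.erase t, (d x - 1) := by
        refine Finset.sum_congr rfl fun x hx => ?_
        rw [Function.update_of_ne (Finset.ne_of_mem_erase hx)]
      rw [h2]
      omega
    have hI : Ideal.span (Set.range f) = P ⊔ Ideal.span {f t} := range_eq_sup f t
    have hI' : Ideal.span (Set.range (Function.update f t (lin q))) = P ⊔ Ideal.span {lin q} := by
      rw [range_eq_sup _ t, Function.update_self]
      congr 2
      apply Set.image_congr
      intro i hi
      rw [Function.update_of_ne]
      rintro rfl
      simp at hi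
    have hsoc := ih _ _ hf' hd' hreg' hc'
    rw [hI'] at hsoc
    -- a power of the linear form in the ideal
    have hsd := isSocleDegree_ci f d hf hd (reg_of_sreg hreg)
    set N := ∑ i, (d i - 1) + 1 with hN
    have hNI : (lin q ^ N : MvPolynomial (Fin n) K) ∈ Ideal.span (Set.range f) := by
      apply hsd.2 N (by omega)
      have := hlin.pow N
      rwa [one_mul] at this
    have hNhom : (lin q ^ N : MvPolynomial (Fin n) K).IsHomogeneous N := by
      have := hlin.pow N
      rwa [one_mul] at this
    rw [hI] at hNI hXw ⊢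
    rcases sup_comp' hPh (hf t) hNhom hNI with ⟨hdN, cc, hcc, hcN⟩ | hPN
    swap
    · have h1 : (1 : MvPolynomial (Fin n) K) ∈ P := hqpow N 1 (by rwa [mul_one])
      have h2 := P.mul_mem_left w h1
      rw [mul_one] at h2
      exact Ideal.mem_sup_left h2
    -- `cc` is a nonzerodivisor modulo `P`
    have hccn : ∀ h, cc * h ∈ P → h ∈ P := by
      intro h hh
      apply hqpow N
      have h1 : lin q ^ N * h = (lin q ^ N - f t * cc) * h + f t * (cc * h) := by ring
      rw [h1]
      exact P.add_mem (P.mul_mem_right _ hcN) (P.mul_mem_left _ hh)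
    have hback : ∀ h, cc * h ∈ P ⊔ Ideal.span {lin q ^ N} → h ∈ P ⊔ Ideal.span {f t} := by
      intro h hh
      obtain ⟨p, hp, r, hr, hpr⟩ := Submodule.mem_sup.mp hh
      obtain ⟨y, rfl⟩ := Ideal.mem_span_singleton'.mp hr
      have h1 : h - f t * y ∈ P := by
        apply hccn
        have h2 : cc * (h - f t * y) = p + y * (lin q ^ N - f t * cc) := by
          have : cc * h = p + y * lin q ^ N := hpr.symm
          rw [mul_sub, this]; ring
        rw [h2]
        exact P.add_mem hp (P.mul_mem_left _ hcN)
      have h2 : h = (h - f t * y) + y * f t := by ring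
      rw [h2]
      exact Ideal.add_mem _ (Ideal.mem_sup_left h1) (Ideal.mem_sup_right
        (Ideal.mul_mem_left _ _ (Ideal.mem_span_singleton_self _)))
    apply hback
    -- now work modulo `P + (ℓ ^ N)`
    have hXW : ∀ g, g ∈ Ideal.span (Set.range fun i : Fin n => (X i : MvPolynomial (Fin n) K)) →
        g * (cc * w) ∈ P ⊔ Ideal.span {lin q ^ N} := by
      intro g hg
      induction hg using Submodule.span_induction with
      | mem x hx =>
        obtain ⟨i, rfl⟩ := hx
        obtain ⟨p, hp, r, hr, hpr⟩ := Submodule.mem_sup.mp (hXw i)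
        obtain ⟨y, rfl⟩ := Ideal.mem_span_singleton'.mp hr
        have h1 : (X i : MvPolynomial (Fin n) K) * (cc * w) =
            (cc * p - y * (lin q ^ N - f t * cc)) + y * lin q ^ N := by
          have : X i * w = p + y * f t := hpr.symm
          calc (X i : MvPolynomial (Fin n) K) * (cc * w) = cc * (X i * w) := by ring
            _ = _ := by rw [this]; ring
        change (X i : MvPolynomial (Fin n) K) * (cc * w) ∈ _
        rw [h1]
        exact Ideal.add_mem _ (Ideal.mem_sup_left (P.sub_mem (P.mul_mem_left _ hp)
          (P.mul_mem_left _ hcN))) (Ideal.mem_sup_right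
          (Ideal.mul_mem_left _ _ (Ideal.mem_span_singleton_self _)))
      | zero => rw [zero_mul]; exact Ideal.zero_mem _
      | add x y _ _ hx hy => rw [add_mul]; exact Ideal.add_mem _ hx hy
      | smul a x _ hx => rw [smul_eq_mul, mul_assoc]; exact Ideal.mul_mem_left _ _ hx
    have hlinm : (lin q : MvPolynomial (Fin n) K) ∈
        Ideal.span (Set.range fun i : Fin n => (X i : MvPolynomial (Fin n) K)) := by
      rw [lin]
      refine Ideal.sum_mem _ fun i _ => Ideal.mul_mem_left _ _ (Ideal.subset_span ⟨i, rfl⟩)
    have hlW := hXW _ hlinm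
    have hWhom : (cc * w).IsHomogeneous (N - d t + j) := hcc.mul hw
    have hWmem : cc * w ∈ P ⊔ Ideal.span {lin q ^ (N - 1)} := by
      obtain ⟨p, hp, r, hr, hpr⟩ := Submodule.mem_sup.mp hlW
      obtain ⟨y, rfl⟩ := Ideal.mem_span_singleton'.mp hr
      have h1 : cc * w - y * lin q ^ (N - 1) ∈ P := by
        apply hq
        have h2 : lin q * (cc * w - y * lin q ^ (N - 1)) = p := by
          have h3 : lin q ^ N = lin q * lin q ^ (N - 1) := by
            rw [← pow_succ', show N - 1 + 1 = N by omega]
          have h4 : lin q * (cc * w) = p + y * lin q ^ N := hpr.symm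
          rw [mul_sub, h4, h3]; ring
        rw [h2]; exact hp
      have h2 : cc * w = (cc * w - y * lin q ^ (N - 1)) + y * lin q ^ (N - 1) := by ring
      rw [h2]
      exact Ideal.add_mem _ (Ideal.mem_sup_left h1) (Ideal.mem_sup_right
        (Ideal.mul_mem_left _ _ (Ideal.mem_span_singleton_self _)))
    have hN1hom : (lin q ^ (N - 1) : MvPolynomial (Fin n) K).IsHomogeneous (N - 1) := by
      have := hlin.pow (N - 1)
      rwa [one_mul] at this
    rcases sup_comp' hPh hN1hom hWhom hWmem with ⟨hNj, v, hv, hWv⟩ | hWP
    swap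
    · exact Ideal.mem_sup_left hWP
    have hvX : ∀ i, X i * v ∈ P ⊔ Ideal.span {lin q} := by
      intro i
      have h1 := hXW (X i) (Ideal.subset_span ⟨i, rfl⟩)
      obtain ⟨p, hp, r, hr, hpr⟩ := Submodule.mem_sup.mp h1
      obtain ⟨y, rfl⟩ := Ideal.mem_span_singleton'.mp hr
      have h2 : X i * v - y * lin q ∈ P := by
        apply hqpow (N - 1)
        have h3 : lin q ^ (N - 1) * (X i * v - y * lin q) =
            p - X i * (cc * w - lin q ^ (N - 1) * v) := by
          have h4 : lin q ^ N = lin q ^ (N - 1) * lin q := by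
            rw [← pow_succ, show N - 1 + 1 = N by omega]
          have h5 : (X i : MvPolynomial (Fin n) K) * (cc * w) = p + y * lin q ^ N := hpr.symm
          rw [mul_sub (X i), h5, h4]; ring
        rw [h3]
        exact P.sub_mem hp (P.mul_mem_left _ hWv)
      have h3 : X i * v = (X i * v - y * lin q) + y * lin q := by ring
      rw [h3]
      exact Ideal.add_mem _ (Ideal.mem_sup_left h2) (Ideal.mem_sup_right
        (Ideal.mul_mem_left _ _ (Ideal.mem_span_singleton_self _)))
    have hvmem := hsoc _ v hv (by omega) hvX
    obtain ⟨p, hp, r, hr, hpr⟩ := Submodule.mem_sup.mp hvmem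
    obtain ⟨y, rfl⟩ := Ideal.mem_span_singleton'.mp hr
    have h1 : cc * w = ((cc * w - lin q ^ (N - 1) * v) + lin q ^ (N - 1) * p) + y * lin q ^ N := by
      have h4 : lin q ^ N = lin q ^ (N - 1) * lin q := by
        rw [← pow_succ, show N - 1 + 1 = N by omega]
      rw [h4, ← hpr]; ring
    rw [h1]
    exact Ideal.add_mem _ (Ideal.mem_sup_left (P.add_mem hWv (P.mul_mem_left _ hp)))
      (Ideal.mem_sup_right (Ideal.mul_mem_left _ _ (Ideal.mem_span_singleton_self _)))

/-- the top degree part of an Artinian complete intersection is one-dimensional -/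
lemma top_one {f : Fin n → MvPolynomial (Fin n) K} {e : Fin n → ℕ}
    (hf : ∀ i, (f i).IsHomogeneous (e i)) (he : ∀ i, 1 ≤ e i) (hreg : Reg f) :
    Module.finrank K (homogeneousSubmodule (Fin n) K (∑ i, (e i - 1))) =
      Module.finrank K (gr (Ideal.span (Set.range f)) (∑ i, (e i - 1))) + 1 := by
  have hHS := HS_ci f e hf hreg
  have hmon1 : ∀ k : ℕ, (∑ j ∈ Finset.range (k + 1), (Polynomial.X : Polynomial ℤ) ^ j).Monic ∧
      (∑ j ∈ Finset.range (k + 1), (Polynomial.X : Polynomial ℤ) ^ j).natDegree = k := by
    intro k
    constructor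
    · exact Polynomial.Monic.geom_sum' Polynomial.monic_X
        (by rw [Polynomial.degree_X]; exact one_pos) k.succ_ne_zero
    · induction k with
      | zero => simp
      | succ k ih =>
        rw [Finset.sum_range_succ, Polynomial.natDegree_add_eq_right_of_natDegree_lt,
          Polynomial.natDegree_X_pow]
        rw [ih, Polynomial.natDegree_X_pow]
        exact Nat.lt_succ_self k
  have hmon : ∀ i, (∑ k ∈ Finset.range (e i), (Polynomial.X : Polynomial ℤ) ^ k).Monic := by
    intro i
    have := (hmon1 (e i - 1)).1
    rwa [Nat.sub_add_cancel (he i)] at this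
  have hdeg : (cip e).natDegree = ∑ i, (e i - 1) := by
    rw [cip, Polynomial.natDegree_prod_of_monic _ _ (fun i _ => hmon i)]
    refine Finset.sum_congr rfl fun i _ => ?_
    have := (hmon1 (e i - 1)).2
    rwa [Nat.sub_add_cancel (he i)] at this
  have hcm : (cip e).Monic := Polynomial.monic_prod_of_monic _ _ (fun i _ => hmon i)
  have h2 := congrArg (PowerSeries.coeff (∑ i, (e i - 1))) hHS
  have h3 := hcm.coeff_natDegree
  rw [hdeg] at h3
  rw [HS, PowerSeries.coeff_mk, Polynomial.coeff_coe, h3] at h2
  omega

/-- **Artinian complete intersections are Gorenstein.** -/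
theorem ci_gor [Infinite K] {f : Fin n → MvPolynomial (Fin n) K} {d : Fin n → ℕ}
    (hf : ∀ i, (f i).IsHomogeneous (d i)) (hd : ∀ i, 1 ≤ d i) (hreg : Reg f) :
    ∃ φ : MvPolynomial (Fin n) K →ₗ[K] K, Deg φ (∑ i, (d i - 1)) ∧
      Ideal.span (Set.range f) = gor φ := by
  classical
  set σ := ∑ i, (d i - 1) with hσ
  set I := Ideal.span (Set.range f) with hI
  have hIh : Homog I := homog_span (by rintro _ ⟨j, rfl⟩; exact ⟨d j, hf j⟩)
  obtain ⟨⟨h0, hh0, hh0I⟩, htop⟩ := isSocleDegree_ci f d hf hd hreg
  obtain ⟨φ, hφ, hle, hφ0⟩ := exists_functional hIh hh0 hh0I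
  refine ⟨φ, hφ, le_antisymm hle ?_⟩
  have hsr := sreg_of_reg hf hd hreg
  -- going up
  have hup : ∀ m, ∀ (p : ℕ) (g : MvPolynomial (Fin n) K), g.IsHomogeneous p → g ∉ I → p + m = σ →
      ∃ u : MvPolynomial (Fin n) K, u.IsHomogeneous m ∧ u * g ∉ I := by
    intro m
    induction m with
    | zero =>
      intro p g _ hgI _
      exact ⟨1, isHomogeneous_one _ _, by rwa [one_mul]⟩
    | succ m ih =>
      intro p g hg hgI hpm
      obtain ⟨i, hi⟩ : ∃ i, X i * g ∉ I := by
        by_contra hcon
        push Not at hcon
        exact hgI (socle_ci _ f d hf hd hsr rfl p g hg (by omega) hcon)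
      obtain ⟨u, hu, hug⟩ := ih (1 + p) (X i * g) ((isHomogeneous_X K i).mul hg) hi (by omega)
      refine ⟨u * X i, hu.mul (isHomogeneous_X K i), ?_⟩
      rwa [mul_assoc]
  -- in the top degree
  have hφtop : ∀ v : MvPolynomial (Fin n) K, v.IsHomogeneous σ → φ v = 0 → v ∈ I := by
    intro v hv hφv
    by_contra hvI
    have h1 := top_one hf hd hreg
    have h2 : gr I σ ⊔ Submodule.span K {v} = homogeneousSubmodule (Fin n) K σ := by
      apply Submodule.eq_of_le_of_finrank_le
      · apply sup_le inf_le_right
        rw [Submodule.span_singleton_le_iff_mem]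
        exact hv
      · have hdis : gr I σ ⊓ Submodule.span K {v} = ⊥ := by
          rw [eq_bot_iff]
          rintro x ⟨hx1, hx2⟩
          obtain ⟨c, rfl⟩ := Submodule.mem_span_singleton.mp hx2
          by_cases hc : c = 0
          · rw [hc, zero_smul]; exact Submodule.zero_mem _
          · exfalso
            apply hvI
            have h3 : c • v ∈ I := (mem_gr.mp hx1).1
            have h4 : v = C c⁻¹ * (c • v) := by
              rw [← smul_eq_C_mul, smul_smul, inv_mul_cancel₀ hc, one_smul]
            rw [h4]
            exact I.mul_mem_left _ h3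
        have h3 := Submodule.finrank_sup_add_finrank_inf_eq (gr I σ) (Submodule.span K {v})
        rw [hdis, finrank_bot, add_zero] at h3
        have hv0 : v ≠ 0 := by
          rintro rfl
          exact hvI I.zero_mem
        rw [finrank_span_singleton hv0] at h3
        rw [h1, h3]
    have h3 : h0 ∈ gr I σ ⊔ Submodule.span K {v} := by rw [h2]; exact hh0
    obtain ⟨a, ha, b, hb, hab⟩ := Submodule.mem_sup.mp h3
    obtain ⟨c, rfl⟩ := Submodule.mem_span_singleton.mp hb
    apply hφ0
    have h4 : φ a = 0 := by
      have := hle (mem_gr.mp ha).1 1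
      rwa [mul_one] at this
    rw [← hab, map_add, h4, map_smul, hφv, smul_zero, add_zero]
  intro g hg
  rw [← sum_homogeneousComponent g]
  refine Ideal.sum_mem _ fun p _ => ?_
  have hgp : homogeneousComponent p g ∈ gor φ := gor_homog hφ g hg p
  by_contra hcon
  rcases le_or_gt p σ with hp | hp
  · obtain ⟨u, hu, hug⟩ := hup (σ - p) p _ (homogeneousComponent_isHomogeneous p g) hcon (by omega)
    apply hug
    have h1 : (u * homogeneousComponent p g).IsHomogeneous σ := by
      have := hu.mul (homogeneousComponent_isHomogeneous p g)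
      rwa [show σ - p + p = σ by omega] at this
    apply hφtop _ h1
    rw [mul_comm]
    exact hgp u
  · exact hcon (htop p hp _ (homogeneousComponent_isHomogeneous p g))

end TH130CI
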