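import Pool.Agent.TH130.CI.Main
import Pool.Agent.TH130.CI.Soc

/-!
Complete intersections.
-/

open MvPolynomial
open Pool.Agent.W515.SLP (AnnP Deg annP_zero annP_of_gt annP_of_homog lin)
open H503R3.QCI (Homog comp_mul comp_mul_of_lt NZD Reg homog_span reg_of_isWeaklyRegular
  isSocleDegree_ci)

namespace TH130CI

lemma num {N n σ : ℕ} (hN : 2 ≤ N) (hn : 32 ^ (N + 1) ≤ n) (h1 : n ≤ σ) (h2 : σ + 1 ≤ n * N)
    (j : ℕ) (hj : j < N) :
    ∃ r, 4 ^ r * N ≤ σ - j ∧ (σ - j + 1) * n ^ (N - 1) < 2 ^ (r ^ 2) * N ^ r := by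
  have hN0 : 0 < N := by omega
  have e16 : 16 ^ (N + 1) * N + N ≤ n := by
    have e1 : 32 ^ (N + 1) = 16 ^ (N + 1) * 2 ^ (N + 1) := by
      rw [← mul_pow, show (16 : ℕ) * 2 = 32 by norm_num]
    have e2 : N + 2 ≤ 2 ^ (N + 1) := by
      have := Nat.lt_two_pow_self (n := N + 1)
      omega
    have e3 : 16 ^ (N + 1) * (N + 2) ≤ 16 ^ (N + 1) * 2 ^ (N + 1) := Nat.mul_le_mul_left _ e2
    have e4 : N ≤ 16 ^ (N + 1) := le_trans (Nat.le_succ N) (Nat.lt_pow_self (by norm_num)).le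
    rw [e1] at hn
    have e5 : 16 ^ (N + 1) * (N + 2) = 16 ^ (N + 1) * N + 2 * 16 ^ (N + 1) := by ring
    omega
  set a := (n - N) / N with ha
  set r := Nat.log 4 a with hr
  have hla : 16 ^ (N + 1) ≤ a := by
    rw [ha, Nat.le_div_iff_mul_le hN0]
    omega
  have ha0 : a ≠ 0 := by
    have : 0 < 16 ^ (N + 1) := by positivity
    omega
  have hr1 : 4 ^ r ≤ a := Nat.pow_log_le_self 4 ha0
  have hr2 : a < 4 ^ (r + 1) := Nat.lt_pow_succ_log_self (by norm_num) a
  have hr3 : 2 * N + 2 ≤ r := by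
    rw [hr]
    apply Nat.le_log_of_pow_le (by norm_num)
    have : 4 ^ (2 * N + 2) = 16 ^ (N + 1) := by
      rw [show 2 * N + 2 = 2 * (N + 1) by ring, pow_mul]; norm_num
    omega
  have hr4 : 4 ^ r * N ≤ n - N := by
    have := Nat.mul_le_mul_right N hr1
    have h3 : a * N ≤ n - N := Nat.div_mul_le_self _ _
    omega
  have hr5 : n < 2 ^ (2 * r + 3) * N := by
    have h3 : n - N < 4 ^ (r + 1) * N := by
      have := Nat.lt_mul_div_succ (n - N) hN0
      have h5 : N * ((n - N) / N + 1) ≤ N * 4 ^ (r + 1) := Nat.mul_le_mul_left _ hr2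
      calc n - N < N * ((n - N) / N + 1) := this
        _ ≤ N * 4 ^ (r + 1) := h5
        _ = 4 ^ (r + 1) * N := by ring
    have h4 : N ≤ 4 ^ (r + 1) * N := Nat.le_mul_of_pos_left N (by positivity)
    have h6 : 2 ^ (2 * r + 3) * N = 4 ^ (r + 1) * N + 4 ^ (r + 1) * N := by
      rw [show 2 * r + 3 = 2 * (r + 1) + 1 by ring, pow_succ, pow_mul]
      norm_num
      ring
    omega
  refine ⟨r, by omega, ?_⟩
  have h3 : (σ - j + 1) * n ^ (N - 1) ≤ N * n ^ N := by
    calc (σ - j + 1) * n ^ (N - 1) ≤ (n * N) * n ^ (N - 1) := Nat.mul_le_mul_right _ (by omega)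
      _ = N * (n ^ (N - 1) * n) := by ring
      _ = N * n ^ N := by rw [← pow_succ, show N - 1 + 1 = N by omega]
  have h4 : n ^ N < (2 ^ (2 * r + 3) * N) ^ N := Nat.pow_lt_pow_left hr5 (by omega)
  have h5 : N * (2 ^ (2 * r + 3) * N) ^ N ≤ 2 ^ (r ^ 2) * N ^ r := by
    have e1 : N * (2 ^ (2 * r + 3) * N) ^ N = 2 ^ ((2 * r + 3) * N) * N ^ (N + 1) := by
      rw [mul_pow, ← pow_mul, pow_succ]; ring
    rw [e1]
    apply Nat.mul_le_mul
    · apply Nat.pow_le_pow_right (by norm_num)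
      nlinarith
    · exact Nat.pow_le_pow_right hN0 (by omega)
  calc (σ - j + 1) * n ^ (N - 1) ≤ N * n ^ N := h3
    _ < N * (2 ^ (2 * r + 3) * N) ^ N := (Nat.mul_lt_mul_left hN0).mpr h4
    _ ≤ _ := h5

variable {K : Type*} [Field K] [CharZero K] {n : ℕ}

theorem ci_inj {f : Fin n → MvPolynomial (Fin n) K} {d : Fin n → ℕ} (hd : ∀ i, 2 ≤ d i)
    (hf : ∀ i, (f i).IsHomogeneous (d i)) (hreg : Reg f) {N : ℕ} (hN : 32 ^ (N + 1) ≤ n) :
    ∃ q : Fin n → K, ∀ i k : ℕ, i + k ≤ N → ∀ g : MvPolynomial (Fin n) K, g.IsHomogeneous i →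
      lin q ^ k * g ∈ Ideal.span (Set.range f) → g ∈ Ideal.span (Set.range f) := by
  classical
  have hn : 0 < n := lt_of_lt_of_le (by positivity) hN
  have hd1 : ∀ i, 1 ≤ d i := fun i => le_trans (by norm_num) (hd i)
  by_cases hall : ∀ i, d i ≤ N
  · -- all generators have degree at most `N`
    have hN2 : 2 ≤ N := le_trans (hd ⟨0, hn⟩) (hall _)
    obtain ⟨φ, hφ, hI⟩ := ci_gor hf hd1 hreg
    set σ := ∑ i, (d i - 1) with hσ
    have hσ1 : n ≤ σ := by
      rw [hσ]
      calc n = ∑ _i : Fin n, 1 := by simp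
        _ ≤ _ := Finset.sum_le_sum fun i _ => by have := hd i; omega
    have hσ2 : σ + 1 ≤ n * N := by
      have h3 : σ ≤ n * (N - 1) := by
        rw [hσ]
        calc ∑ i, (d i - 1) ≤ ∑ _i : Fin n, (N - 1) :=
              Finset.sum_le_sum fun i _ => by have := hall i; omega
          _ = n * (N - 1) := by simp
      have h4 : n * N = n * (N - 1) + n := by
        conv_lhs => rw [show N = (N - 1) + 1 by omega]
        ring
      omega
    have hNn : N ≤ n := by
      have h3 : N < 32 ^ N := Nat.lt_pow_self (by norm_num)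
      have h4 : 32 ^ N ≤ 32 ^ (N + 1) := Nat.pow_le_pow_right (by norm_num) (by omega)
      omega
    obtain ⟨q, hq⟩ := main_gor hφ (by omega : 1 ≤ N) (by omega) hn (G := Set.range f)
      (by rintro _ ⟨i, rfl⟩; exact ⟨d i, hall i, hf i⟩)
      (by rintro _ ⟨i, rfl⟩; rw [← hI]; exact Ideal.subset_span ⟨i, rfl⟩)
      (fun i => ⟨σ + 1, by
        rw [hI]
        have h3 : (X i ^ (σ + 1) : MvPolynomial (Fin n) K).IsHomogeneous (σ + 1) :=
          isHomogeneous_X_pow i (σ + 1)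
        exact annP_of_gt hφ (Nat.lt_succ_self σ) h3⟩)
      (num hN2 hN hσ1 hσ2)
    rw [hI]
    refine ⟨q, fun i k hik g hg h => hq i (by omega) g hg ?_⟩
    have h3 : lin q ^ (N - i) * g = lin q ^ (N - i - k) * (lin q ^ k * g) := by
      rw [← mul_assoc, ← pow_add, show N - i - k + k = N - i by omega]
    rw [h3]
    exact (gor φ).mul_mem_left _ h
  · -- a generator of degree larger than `N`
    push Not at hall
    obtain ⟨t, ht⟩ := hall
    have hnz := reg_drop hf hd1 hreg t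
    obtain ⟨q, hq⟩ := exists_lin_nzd (hf t) (hd1 t) hnz
    set J := Ideal.span (f '' {j | j ≠ t}) with hJ
    have hJh : Homog J := homog_span (by rintro _ ⟨j, _, rfl⟩; exact ⟨d j, hf j⟩)
    have hIJ : Ideal.span (Set.range f) = J ⊔ Ideal.span {f t} := by
      rw [hJ, ← Ideal.span_union]
      congr 1
      rw [← Set.image_singleton, ← Set.image_union, ← Set.image_univ]
      congr 1
      ext j
      simp only [Set.mem_univ, Set.mem_union, Set.mem_ofPred_eq, Set.mem_singleton_iff, true_iff]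
      tauto
    refine ⟨q, fun i k hik g hg h => ?_⟩
    have hhom : (lin q ^ k * g).IsHomogeneous (k + i) := by
      have := ((lin_homog q).pow k).mul hg
      rwa [one_mul] at this
    rw [hIJ] at h ⊢
    rcases sup_comp' hJh (hf t) hhom h with ⟨h3, _⟩ | h3
    · omega
    · apply Ideal.mem_sup_left
      clear h hhom hik
      induction k with
      | zero => rwa [pow_zero, one_mul] at h3
      | succ k ih =>
        apply ih
        apply hq
        rwa [← mul_assoc, ← pow_succ']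

theorem ci_main {f : Fin n → MvPolynomial (Fin n) K} {d : Fin n → ℕ} (hd : ∀ i, 2 ≤ d i)
    (hf : ∀ i, (f i).IsHomogeneous (d i)) (hreg : Reg f) {N : ℕ} (hN : 32 ^ (N + 1) ≤ n) :
    ∃ ℓ : MvPolynomial (Fin n) K, ℓ.IsHomogeneous 1 ∧ ∀ i k : ℕ,
      (i + k ≤ N → ∀ g ∈ homogeneousSubmodule (Fin n) K i,
        ℓ ^ k * g ∈ Ideal.span (Set.range f) → g ∈ Ideal.span (Set.range f)) ∧
      (∑ j, (d j - 1) ≤ i + N → ∀ h ∈ homogeneousSubmodule (Fin n) K (i + k),
        ∃ g ∈ homogeneousSubmodule (Fin n) K i, h - ℓ ^ k * g ∈ Ideal.span (Set.range f)) := by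
  obtain ⟨q, hq⟩ := ci_inj hd hf hreg hN
  obtain ⟨φ, hφ, hI⟩ := ci_gor hf (fun i => le_trans (by norm_num) (hd i)) hreg
  refine ⟨lin q, lin_homog q, fun i k => ⟨fun hik g hg h => hq i k hik g hg h, fun hσ h hh => ?_⟩⟩
  by_cases hik : i + k ≤ ∑ j, (d j - 1)
  · obtain ⟨g, hg, hgh⟩ := surj_of_inj hφ (lin_homog q) hik (fun u hu hlu => by
      have h1 : lin q ^ k * u ∈ Ideal.span (Set.range f) := by rw [hI]; exact hlu
      have h2 := hq _ k (by omega) u hu h1
      rw [hI] at h2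
      exact h2) hh
    refine ⟨g, hg, ?_⟩
    rw [hI]
    exact hgh
  · refine ⟨0, Submodule.zero_mem _, ?_⟩
    rw [mul_zero, sub_zero, hI]
    exact annP_of_gt hφ (by omega) hh

end TH130CI
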