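import Pool.Agent.TH130.CI.Main2

/-!
Lefschetz maps of complete intersections with reducible generators.
-/

open MvPolynomial
open Pool.Agent.W515.SLP (AnnP Deg annP_zero annP_of_gt annP_of_homog lin)
open H503R3.QCI (Homog comp_mul comp_mul_of_lt NZD Reg homog_span isSocleDegree_ci)

namespace TH130CI

lemma pow4 (n : ℕ) (hn : 8 ≤ n) : n ^ 4 * 64 ^ (n - 1) < 2 ^ 15 * 98 ^ (n - 1) := by
  induction n, hn using Nat.le_induction with
  | base => norm_num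
  | succ n hn ih =>
    rcases Nat.lt_or_ge n 9 with h | h
    · have : n = 8 := by omega
      subst this
      norm_num
    · obtain ⟨m, rfl⟩ : ∃ m, n = m + 1 := ⟨n - 1, by omega⟩
      rw [Nat.add_sub_cancel] at ih ⊢
      have h1 : (m + 1 + 1) ^ 4 * 64 ≤ 98 * (m + 1) ^ 4 := by
        obtain ⟨k, rfl⟩ : ∃ k, m = k + 8 := ⟨m - 8, by omega⟩
        ring_nf
        nlinarith [Nat.zero_le (k ^ 2), Nat.zero_le (k ^ 3), Nat.zero_le (k ^ 4), Nat.zero_le k]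
      calc (m + 1 + 1) ^ 4 * 64 ^ (m + 1) = (m + 1 + 1) ^ 4 * 64 * 64 ^ m := by ring
        _ ≤ 98 * (m + 1) ^ 4 * 64 ^ m := Nat.mul_le_mul_right _ h1
        _ = 98 * ((m + 1) ^ 4 * 64 ^ m) := by ring
        _ < 98 * (2 ^ 15 * 98 ^ m) := (Nat.mul_lt_mul_left (by norm_num)).mpr ih
        _ = 2 ^ 15 * 98 ^ (m + 1) := by ring

lemma num8 {n N : ℕ} (hN : 1 ≤ N) (h8 : 8 * N ≤ n) :
    n * N * ((n - 1 + (N - 1)).choose (n - 1)) * 2 ^ (N - 1) < 2 ^ n := by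
  set B := (n - 1 + (N - 1)).choose (n - 1) with hB
  have h1 : 7 ^ (n - 1) * B ≤ 8 ^ (n - 1 + (N - 1)) := by
    have h2 := add_pow 7 1 (n - 1 + (N - 1))
    rw [show (7 : ℕ) + 1 = 8 by norm_num] at h2
    rw [h2]
    have h3 := Finset.single_le_sum (f := fun k => 7 ^ k * 1 ^ (n - 1 + (N - 1) - k) *
      (n - 1 + (N - 1)).choose k) (s := Finset.range (n - 1 + (N - 1) + 1))
      (fun k _ => Nat.zero_le _) (Finset.mem_range.mpr (by omega : n - 1 < n - 1 + (N - 1) + 1))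
    simp only [one_pow, mul_one] at h3 ⊢
    exact h3
  set Y := n * N * B * 2 ^ (N - 1) with hY
  have h2 : 256 ^ (N - 1) * 256 ≤ 2 ^ n := by
    rw [← pow_succ, show N - 1 + 1 = N by omega, show (256 : ℕ) = 2 ^ 8 by norm_num, ← pow_mul]
    exact Nat.pow_le_pow_right (by norm_num) h8
  have h3 : 64 * N ^ 2 ≤ n ^ 2 := by
    have := Nat.pow_le_pow_left h8 2
    calc 64 * N ^ 2 = (8 * N) ^ 2 := by ring
      _ ≤ n ^ 2 := this
  have h4 : Y ^ 2 * 49 ^ (n - 1) ≤ n ^ 2 * N ^ 2 * 64 ^ (n - 1) * 256 ^ (N - 1) := by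
    have h5 := Nat.pow_le_pow_left h1 2
    have e49 : (49 : ℕ) ^ (n - 1) = (7 ^ (n - 1)) ^ 2 := by
      rw [← pow_mul, mul_comm, pow_mul]; norm_num
    have e4 : (4 : ℕ) ^ (N - 1) = (2 ^ (N - 1)) ^ 2 := by
      rw [← pow_mul, mul_comm, pow_mul]; norm_num
    have e64 : ∀ x : ℕ, ((8 : ℕ) ^ x) ^ 2 = 64 ^ x := by
      intro x
      rw [← pow_mul, mul_comm, pow_mul]; norm_num
    have e256 : (64 : ℕ) ^ (N - 1) * 4 ^ (N - 1) = 256 ^ (N - 1) := by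
      rw [← mul_pow]; norm_num
    calc Y ^ 2 * 49 ^ (n - 1) = n ^ 2 * N ^ 2 * (7 ^ (n - 1) * B) ^ 2 * 4 ^ (N - 1) := by
          rw [hY, e49, e4]
          ring
      _ ≤ n ^ 2 * N ^ 2 * (8 ^ (n - 1 + (N - 1))) ^ 2 * 4 ^ (N - 1) :=
          Nat.mul_le_mul_right _ (Nat.mul_le_mul_left _ h5)
      _ = n ^ 2 * N ^ 2 * 64 ^ (n - 1) * 256 ^ (N - 1) := by
          rw [e64, pow_add, ← e256]
          ring
  have h5 : 2 ^ 14 * (Y ^ 2 * 49 ^ (n - 1)) < 2 ^ 14 * (4 ^ n * 49 ^ (n - 1)) := by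
    calc 2 ^ 14 * (Y ^ 2 * 49 ^ (n - 1)) ≤
          2 ^ 14 * (n ^ 2 * N ^ 2 * 64 ^ (n - 1) * 256 ^ (N - 1)) := Nat.mul_le_mul_left _ h4
      _ = n ^ 2 * (64 * N ^ 2) * 64 ^ (n - 1) * (256 ^ (N - 1) * 256) := by ring
      _ ≤ n ^ 2 * n ^ 2 * 64 ^ (n - 1) * 2 ^ n := by
          apply Nat.mul_le_mul _ h2
          apply Nat.mul_le_mul_right
          exact Nat.mul_le_mul_left _ h3
      _ = n ^ 4 * 64 ^ (n - 1) * 2 ^ n := by ring
      _ < 2 ^ 15 * 98 ^ (n - 1) * 2 ^ n :=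
          (Nat.mul_lt_mul_right (by positivity)).mpr (pow4 n (by omega))
      _ = 2 ^ 14 * (4 ^ n * 49 ^ (n - 1)) := by
          obtain ⟨m, rfl⟩ : ∃ m, n = m + 1 := ⟨n - 1, by omega⟩
          rw [Nat.add_sub_cancel, show (98 : ℕ) = 2 * 49 by norm_num,
            show (4 : ℕ) = 2 * 2 by norm_num, mul_pow, mul_pow]
          ring
  have h6 : Y ^ 2 < (2 ^ n) ^ 2 := by
    have h7 := lt_of_mul_lt_mul_left h5 (Nat.zero_le _)
    have h8' := lt_of_mul_lt_mul_right h7 (Nat.zero_le _)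
    calc Y ^ 2 < 4 ^ n := h8'
      _ = (2 ^ n) ^ 2 := by rw [← pow_mul, mul_comm, pow_mul]; norm_num
  exact lt_of_pow_lt_pow_left₀ 2 (Nat.zero_le _) h6

lemma numlog {n N r : ℕ} (hn : 1 ≤ n) (hN : 1 ≤ N) (h : (4 * n) ^ N ≤ 2 ^ r) :
    n * N * n ^ (N - 1) * 2 ^ (N - 1) < 2 ^ r := by
  refine lt_of_lt_of_le ?_ h
  obtain ⟨m, rfl⟩ : ∃ m, N = m + 1 := ⟨N - 1, by omega⟩
  rw [Nat.add_sub_cancel, mul_pow]
  have h1 : (m + 1) * 2 ^ m < 4 ^ (m + 1) := by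
    have h2 : m + 1 < 2 ^ (m + 1) := Nat.lt_two_pow_self
    have h3 : (2 : ℕ) ^ m ≤ 2 ^ (m + 1) := Nat.pow_le_pow_right (by norm_num) (by omega)
    calc (m + 1) * 2 ^ m ≤ (m + 1) * 2 ^ (m + 1) := Nat.mul_le_mul_left _ h3
      _ < 2 ^ (m + 1) * 2 ^ (m + 1) := (Nat.mul_lt_mul_right (by positivity)).mpr h2
      _ = 4 ^ (m + 1) := by rw [← mul_pow]; norm_num
  calc n * (m + 1) * n ^ m * 2 ^ m = ((m + 1) * 2 ^ m) * n ^ (m + 1) := by ring
    _ < 4 ^ (m + 1) * n ^ (m + 1) := (Nat.mul_lt_mul_right (by positivity)).mpr h1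

variable {K : Type*} [Field K] {n : ℕ}

/-- surjectivity in high degrees from injectivity in low degrees -/
theorem full_of_inj {f : Fin n → MvPolynomial (Fin n) K} {d : Fin n → ℕ} (hd : ∀ i, 1 ≤ d i)
    (hf : ∀ i, (f i).IsHomogeneous (d i)) (hreg : Reg f) {N : ℕ} {q : Fin n → K}
    (hq : ∀ i k : ℕ, i + k ≤ N → ∀ g : MvPolynomial (Fin n) K, g.IsHomogeneous i →
      lin q ^ k * g ∈ Ideal.span (Set.range f) → g ∈ Ideal.span (Set.range f)) :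
    ∃ ℓ : MvPolynomial (Fin n) K, ℓ.IsHomogeneous 1 ∧ ∀ i k : ℕ,
      (i + k ≤ N → ∀ g ∈ homogeneousSubmodule (Fin n) K i,
        ℓ ^ k * g ∈ Ideal.span (Set.range f) → g ∈ Ideal.span (Set.range f)) ∧
      (∑ j, (d j - 1) ≤ i + N → ∀ h ∈ homogeneousSubmodule (Fin n) K (i + k),
        ∃ g ∈ homogeneousSubmodule (Fin n) K i, h - ℓ ^ k * g ∈ Ideal.span (Set.range f)) := by
  obtain ⟨φ, hφ, hI⟩ := ci_gor' hf hd hreg
  refine ⟨lin q, lin_homog q, fun i k => ⟨fun hik g hg h => hq i k hik g hg h, fun hσ h hh => ?_⟩⟩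
  by_cases hik : i + k ≤ ∑ j, (d j - 1)
  · obtain ⟨g, hg, hgh⟩ := surj_of_inj hφ (lin_homog q) hik (fun u hu hlu => by
      have h1 : lin q ^ k * u ∈ Ideal.span (Set.range f) := by rw [hI]; exact hlu
      have h2 := hq _ k (by omega) u hu h1
      rw [hI] at h2
      exact h2) hh
    refine ⟨g, hg, ?_⟩
    rw [hI]
    exact hgh
  · refine ⟨0, Submodule.zero_mem _, ?_⟩
    rw [mul_zero, sub_zero, hI]
    exact annP_of_gt hφ (by omega) hh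

/-- **Complete intersections with reducible generators.** -/
theorem red_main [CharZero K] (hn : 1 ≤ n) {f : Fin n → MvPolynomial (Fin n) K} {d : Fin n → ℕ}
    (hf : ∀ i, (f i).IsHomogeneous (d i)) (hd : ∀ i, 1 ≤ d i) (hreg : Reg f)
    {R : Finset (Fin n)} (hred : ∀ i ∈ R, ∃ (g h : MvPolynomial (Fin n) K) (a b : ℕ), 1 ≤ a ∧
      1 ≤ b ∧ g.IsHomogeneous a ∧ h.IsHomogeneous b ∧ f i = g * h) {N : ℕ}
    (hN : (4 * n) ^ N ≤ 2 ^ R.card ∨ (R = Finset.univ ∧ 8 * N ≤ n)) :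
    ∃ ℓ : MvPolynomial (Fin n) K, ℓ.IsHomogeneous 1 ∧ ∀ i k : ℕ,
      (i + k ≤ N → ∀ g ∈ homogeneousSubmodule (Fin n) K i,
        ℓ ^ k * g ∈ Ideal.span (Set.range f) → g ∈ Ideal.span (Set.range f)) ∧
      (∑ j, (d j - 1) ≤ i + N → ∀ h ∈ homogeneousSubmodule (Fin n) K (i + k),
        ∃ g ∈ homogeneousSubmodule (Fin n) K i, h - ℓ ^ k * g ∈ Ideal.span (Set.range f)) := by
  obtain ⟨q, hq⟩ : ∃ q : Fin n → K, ∀ i k : ℕ, i + k ≤ N →
      ∀ g : MvPolynomial (Fin n) K, g.IsHomogeneous i →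
      lin q ^ k * g ∈ Ideal.span (Set.range f) → g ∈ Ideal.span (Set.range f) := by
    rcases hN with hN | ⟨hR, hN⟩
    · refine red_inj hn hf hd hreg hred (N := N) (B := n ^ (N - 1)) (Nat.one_le_pow _ _ hn)
        (fun M hM => le_trans (finrank_hom_le M) (Nat.pow_le_pow_right hn (by omega)))
        (fun h1 => numlog hn h1 hN)
    · obtain ⟨m, rfl⟩ : ∃ m, n = m + 1 := ⟨n - 1, by omega⟩
      refine red_inj hn hf hd hreg hred (N := N) (B := (m + 1 - 1 + (N - 1)).choose (m + 1 - 1))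
        (Nat.choose_pos (by omega)) (fun M hM => ?_) (fun h1 => ?_)
      · rw [finrank_hom, Nat.add_sub_cancel]
        exact Nat.choose_le_choose _ (by omega)
      · rw [hR, Finset.card_univ, Fintype.card_fin]
        exact num8 h1 hN
  exact full_of_inj hd hf hreg hq

end TH130CI
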