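import Pool.Agent.TH130.CI.Pts2
import Pool.Agent.TH130.CI.Beta

/-!
Initial growth of the `h`-vector of Gorenstein point sets.
-/

open MvPolynomial Finset Module
open H503R3.QCI (Homog comp_mul homog_span)

namespace TH130CI

open Pool.Agent.H500R2.WLP (IZ Rd ev mem_Rd ev_apply)
open Pool.Agent.TH274.PT (GorPts red)

/-- The dimension of the degree `i` part of `R / J` (for a homogeneous ideal `J`). -/
noncomputable def dimQ {K : Type*} [Field K] {n : ℕ} (J : Ideal (MvPolynomial (Fin (n + 1)) K))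
    (i : ℕ) : ℕ :=
  Module.finrank K ((homogeneousSubmodule (Fin (n + 1)) K i).map
    (Ideal.Quotient.mkₐ K J).toLinearMap)

/-- `h_0 ≤ h_1 ≤ ... ≤ h_N`, and `1, h_1 - h_0, ..., h_N - h_{N-1}` are the dimensions of `R / J` in
degrees `0, ..., N` for a homogeneous ideal `J`, where `R = K[x_0, ..., x_n]`. -/
def SIUpTo (K : Type*) [Field K] (n : ℕ) (h : ℕ → ℕ) (N : ℕ) : Prop :=
  (∀ i < N, h i ≤ h (i + 1)) ∧ ∃ J : Ideal (MvPolynomial (Fin (n + 1)) K),
    (∀ p ∈ J, ∀ k, homogeneousComponent k p ∈ J) ∧ dimQ J 0 = 1 ∧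
    ∀ i < N, dimQ J (i + 1) + h i = h (i + 1)

variable {K : Type*} [Field K] {n : ℕ}

lemma finrank_map_congr {V V1 V2 : Type*} [AddCommGroup V] [Module K V] [AddCommGroup V1]
    [Module K V1] [AddCommGroup V2] [Module K V2] (φ1 : V →ₗ[K] V1) (φ2 : V →ₗ[K] V2)
    (S : Submodule K V) [Module.Finite K S] (h : ∀ g ∈ S, φ1 g = 0 ↔ φ2 g = 0) :
    finrank K (S.map φ1) = finrank K (S.map φ2) := by
  have e1 := LinearMap.finrank_range_add_finrank_ker (φ1.comp S.subtype)
  have e2 := LinearMap.finrank_range_add_finrank_ker (φ2.comp S.subtype)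
  have hker : LinearMap.ker (φ1.comp S.subtype) = LinearMap.ker (φ2.comp S.subtype) := by
    ext g
    rw [LinearMap.mem_ker, LinearMap.mem_ker]
    exact h g.1 g.2
  rw [LinearMap.range_comp, Submodule.range_subtype] at e1 e2
  rw [hker] at e1
  omega

lemma finite_hom (i : ℕ) : Module.Finite K (homogeneousSubmodule (Fin n) K i) :=
  Module.Finite.iff_fg.2 (homogeneousSubmodule_fg _ _ _)

/-- Dimension count for a form acting injectively. -/
lemma finrank_AA_succ {J : Ideal (MvPolynomial (Fin n) K)} (hJ : Homog J)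
    {L : MvPolynomial (Fin n) K} (hL : L.IsHomogeneous 1) {i : ℕ}
    (hinj : ∀ f : MvPolynomial (Fin n) K, f.IsHomogeneous i → L * f ∈ J → f ∈ J) :
    finrank K (AA (J ⊔ Ideal.span {L}) (i + 1)) + finrank K (AA J i) =
      finrank K (AA J (i + 1)) := by
  have hle : J ≤ J ⊔ Ideal.span {L} := le_sup_left
  let π : (MvPolynomial (Fin n) K ⧸ J) →ₗ[K] (MvPolynomial (Fin n) K ⧸ (J ⊔ Ideal.span {L})) :=
    (Ideal.Quotient.factorₐ K hle).toLinearMap
  have hπ : ∀ g, π (Ideal.Quotient.mk J g) = Ideal.Quotient.mk (J ⊔ Ideal.span {L}) g :=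
    fun g => rfl
  have h1 : AA (J ⊔ Ideal.span {L}) (i + 1) = (AA J (i + 1)).map π := by
    apply le_antisymm
    · intro x hx
      obtain ⟨g, hg, rfl⟩ := mem_AA.1 hx
      exact ⟨Ideal.Quotient.mk J g, mem_AA.2 ⟨g, hg, rfl⟩, hπ g⟩
    · rintro _ ⟨x, hx, rfl⟩
      obtain ⟨g, hg, rfl⟩ := mem_AA.1 hx
      exact mem_AA.2 ⟨g, hg, (hπ g).symm⟩
  let μ : (MvPolynomial (Fin n) K ⧸ J) →ₗ[K] (MvPolynomial (Fin n) K ⧸ J) :=
    LinearMap.mulLeft K (Ideal.Quotient.mk J L)
  have h2 : finrank K ((AA J i).map μ) = finrank K (AA J i) := by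
    have e0 : (AA J i).map μ = LinearMap.range (μ.comp (AA J i).subtype) := by
      rw [LinearMap.range_comp, Submodule.range_subtype]
    rw [e0]
    refine LinearMap.finrank_range_of_inj ?_
    rw [← LinearMap.ker_eq_bot, LinearMap.ker_eq_bot']
    rintro ⟨x, hx⟩ h0
    obtain ⟨g, hg, rfl⟩ := mem_AA.1 hx
    have h3 : Ideal.Quotient.mk J (L * g) = 0 := by rw [map_mul]; exact h0
    have h4 := hinj g hg (Ideal.Quotient.eq_zero_iff_mem.1 h3)
    exact Subtype.ext (Ideal.Quotient.eq_zero_iff_mem.2 h4)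
  have e1 := LinearMap.finrank_range_add_finrank_ker (π.comp (AA J (i + 1)).subtype)
  rw [LinearMap.range_comp, Submodule.range_subtype, ← h1] at e1
  have h5 : (LinearMap.ker (π.comp (AA J (i + 1)).subtype)).map (AA J (i + 1)).subtype =
      (AA J i).map μ := by
    apply le_antisymm
    · rintro _ ⟨⟨x, hx⟩, hx0, rfl⟩
      obtain ⟨g, hg, rfl⟩ := mem_AA.1 hx
      have h6 : g ∈ J ⊔ Ideal.span {L} := by
        rw [← Ideal.Quotient.eq_zero_iff_mem]
        exact hx0
      obtain ⟨a, ha, b, hb, hab⟩ := Submodule.mem_sup.1 h6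
      obtain ⟨b', rfl⟩ := Ideal.mem_span_singleton.1 hb
      have h7 : g = homogeneousComponent (i + 1) a + L * homogeneousComponent i b' := by
        have h8 := congrArg (homogeneousComponent (i + 1)) hab
        rw [map_add, Nat.add_comm i 1, comp_mul hL, Nat.add_comm 1 i] at h8
        rw [h8, homogeneousComponent_of_mem hg, if_pos rfl]
      refine ⟨Ideal.Quotient.mk J (homogeneousComponent i b'),
        mem_AA.2 ⟨_, homogeneousComponent_isHomogeneous _ _, rfl⟩, ?_⟩
      change Ideal.Quotient.mk J L * Ideal.Quotient.mk J (homogeneousComponent i b') =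
        Ideal.Quotient.mk J g
      rw [← map_mul, eq_comm, Ideal.Quotient.mk_eq_mk_iff_sub_mem, h7, add_sub_cancel_right]
      exact hJ a ha _
    · rintro _ ⟨x, hx, rfl⟩
      obtain ⟨g, hg, rfl⟩ := mem_AA.1 hx
      have h6 : (L * g).IsHomogeneous (i + 1) := by
        have := hL.mul hg
        rwa [Nat.add_comm] at this
      refine ⟨⟨Ideal.Quotient.mk J (L * g), mem_AA.2 ⟨_, h6, rfl⟩⟩, ?_, ?_⟩
      · change Ideal.Quotient.mk (J ⊔ Ideal.span {L}) (L * g) = 0
        rw [Ideal.Quotient.eq_zero_iff_mem]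
        exact Ideal.mul_mem_right _ _
          (Ideal.mem_sup_right (Ideal.mem_span_singleton_self L))
      · change Ideal.Quotient.mk J (L * g) = Ideal.Quotient.mk J L * Ideal.Quotient.mk J g
        rw [map_mul]
  have h6 : finrank K (LinearMap.ker (π.comp (AA J (i + 1)).subtype)) =
      finrank K ((AA J i).map μ) := by
    rw [← h5]
    exact (LinearEquiv.finrank_eq (Submodule.equivMapOfInjective _
      (Submodule.injective_subtype _) _))
  omega

lemma mem_IZ {Z : Finset (Fin (n + 1) → K)} {i : ℕ} {f : MvPolynomial (Fin (n + 1)) K}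
    (hf : f.IsHomogeneous i) : f ∈ IZ Z ↔ ∀ p ∈ Z, eval p f = 0 := by
  constructor
  · intro h p hp
    have h1 : IZ Z ≤ RingHom.ker (eval p) := by
      apply Ideal.span_le.2
      rintro g ⟨d, _, hg⟩
      exact hg p hp
    exact h1 h
  · intro h
    exact Ideal.subset_span ⟨i, hf, h⟩

lemma homog_IZ (Z : Finset (Fin (n + 1) → K)) : Homog (IZ Z) :=
  homog_span (by rintro f ⟨d, hd, _⟩; exact ⟨d, hd⟩)

lemma finrank_AA_IZ (Z : Finset (Fin (n + 1) → K)) (i : ℕ) :
    finrank K (AA (IZ Z) i) = hilbZ Z i := by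
  have := finite_hom (K := K) (n := n + 1) i
  refine finrank_map_congr _ _ _ ?_
  intro g hg
  have h1 : (Ideal.Quotient.mkₐ K (IZ Z)).toLinearMap g = 0 ↔ g ∈ IZ Z :=
    Ideal.Quotient.eq_zero_iff_mem
  rw [h1, mem_IZ hg]
  constructor
  · intro h
    funext p
    change ev Z g p = 0
    rw [ev_apply]
    exact h p.1 p.2
  · intro h p hp
    have h2 : ev Z g ⟨p, hp⟩ = 0 := congrFun h ⟨p, hp⟩
    rwa [ev_apply] at h2

lemma red_succ {Z : Finset (Fin (n + 1) → K)} {c : Fin (n + 1) → K}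
    (hc : ∀ p ∈ Z, eval p (Pool.Agent.H500R2.WLP.lin c) ≠ 0) (i : ℕ) :
    finrank K (AA (red Z c) (i + 1)) = hvec Z (i + 1) := by
  have h1 := finrank_AA_succ (homog_IZ Z) (Pool.Agent.H500R2.WLP.lin_isHomogeneous c) (i := i) (by
    intro f hf hcf
    have h2 : (Pool.Agent.H500R2.WLP.lin c * f).IsHomogeneous (1 + i) :=
      (Pool.Agent.H500R2.WLP.lin_isHomogeneous c).mul hf
    rw [mem_IZ h2] at hcf
    rw [mem_IZ hf]
    intro p hp
    have h3 := hcf p hp
    rw [map_mul] at h3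
    exact (mul_eq_zero.1 h3).resolve_left (hc p hp))
  rw [finrank_AA_IZ, finrank_AA_IZ] at h1
  change finrank K (AA (IZ Z ⊔ Ideal.span {Pool.Agent.H500R2.WLP.lin c}) (i + 1)) =
    hilbZ Z (i + 1) - hilbZ Z i
  omega

lemma finrank_AA_zero {J : Ideal (MvPolynomial (Fin n) K)}
    (hJ : ∀ f ∈ J, constantCoeff f = 0) : finrank K (AA J 0) = 1 := by
  have h1 : AA J 0 = Submodule.span K {Ideal.Quotient.mk J 1} := by
    apply le_antisymm
    · intro x hx
      obtain ⟨g, hg, rfl⟩ := mem_AA.1 hx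
      have h2 : g = C (coeff 0 g) := by
        apply totalDegree_eq_zero_iff_eq_C.1
        have := hg.totalDegree_le
        omega
      rw [h2, Submodule.mem_span_singleton]
      refine ⟨coeff 0 g, ?_⟩
      rw [← mul_one (C (coeff 0 g)), ← smul_eq_C_mul]
      rfl
    · rw [Submodule.span_le, Set.singleton_subset_iff]
      exact mem_AA.2 ⟨1, isHomogeneous_one _ _, rfl⟩
  rw [h1]
  apply finrank_span_singleton
  intro h2
  have h3 := hJ 1 (Ideal.Quotient.eq_zero_iff_mem.1 h2)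
  rw [map_one] at h3
  exact one_ne_zero h3

lemma constantCoeff_of_homog {f : MvPolynomial (Fin n) K} {d : ℕ} (hf : f.IsHomogeneous d)
    (hd : d ≠ 0) : constantCoeff f = 0 := by
  rw [constantCoeff_eq]
  by_contra h
  have := hf h
  simp at this
  exact hd this.symm

lemma cc_IZ {Z : Finset (Fin (n + 1) → K)} (hZ : Z.Nonempty) :
    ∀ f ∈ IZ Z, constantCoeff f = 0 := by
  obtain ⟨p, hp⟩ := hZ
  have h1 : IZ Z ≤ RingHom.ker (constantCoeff (σ := Fin (n + 1)) (R := K)) := by
    apply Ideal.span_le.2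
    rintro g ⟨d, hg, hz⟩
    rcases Nat.eq_zero_or_pos d with rfl | hd
    · have h2 : g = C (coeff 0 g) := by
        apply totalDegree_eq_zero_iff_eq_C.1
        have := hg.totalDegree_le
        omega
      have h3 := hz p hp
      rw [h2, eval_C] at h3
      rw [h2, h3]
      simp
    · exact constantCoeff_of_homog hg (by omega)
  exact fun f hf => h1 hf

/-- **Initial growth.** -/
theorem growth_of_range {Z : Finset (Fin (n + 1) → K)} {D N : ℕ} (hZ : Z.Nonempty)
    {c : Fin (n + 1) → K} (hc : ∀ p ∈ Z, eval p (Pool.Agent.H500R2.WLP.lin c) ≠ 0)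
    (h : LefRange (red Z c) D N) :
    ∃ J : Ideal (MvPolynomial (Fin (n + 1)) K), Homog J ∧ IZ Z ≤ J ∧
      finrank K (AA J 0) = 1 ∧ ∀ i < N, finrank K (AA J (i + 1)) + hvec Z i = hvec Z (i + 1) := by
  obtain ⟨L, hL, hinj, -⟩ := h
  have hred : Homog (red Z c) := by
    unfold Pool.Agent.TH274.PT.red
    rw [show IZ Z = Ideal.span {f : MvPolynomial (Fin (n + 1)) K |
      ∃ d : ℕ, f.IsHomogeneous d ∧ ∀ p ∈ Z, eval p f = 0} from rfl, ← Ideal.span_union]
    refine homog_span ?_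
    rintro f (⟨d, hd, _⟩ | hf)
    · exact ⟨d, hd⟩
    · rw [Set.mem_singleton_iff.1 hf]
      exact ⟨1, Pool.Agent.H500R2.WLP.lin_isHomogeneous c⟩
  have hcc : ∀ f ∈ red Z c, constantCoeff f = 0 := by
    have h1 : red Z c ≤ RingHom.ker (constantCoeff (σ := Fin (n + 1)) (R := K)) := by
      refine sup_le (fun f hf => cc_IZ hZ f hf) ?_
      rw [Ideal.span_singleton_le_iff_mem]
      exact constantCoeff_of_homog (Pool.Agent.H500R2.WLP.lin_isHomogeneous c) one_ne_zero
    exact fun f hf => h1 hf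
  refine ⟨red Z c ⊔ Ideal.span {L}, ?_, le_trans le_sup_left le_sup_left, ?_, ?_⟩
  · rintro p hp k
    obtain ⟨a, ha, b, hb, rfl⟩ := Submodule.mem_sup.1 hp
    rw [map_add]
    refine Submodule.add_mem_sup (hred a ha k) ?_
    exact homog_span (s := {L}) (by rintro x hx; rw [Set.mem_singleton_iff.1 hx]; exact ⟨1, hL⟩)
      b hb k
  · apply finrank_AA_zero
    have h1 : red Z c ⊔ Ideal.span {L} ≤
        RingHom.ker (constantCoeff (σ := Fin (n + 1)) (R := K)) := by
      refine sup_le (fun f hf => hcc f hf) ?_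
      rw [Ideal.span_singleton_le_iff_mem]
      exact constantCoeff_of_homog hL one_ne_zero
    exact fun f hf => h1 hf
  · intro i hi
    have h1 := finrank_AA_succ hred hL (i := i) (by
      intro f hf hLf
      refine hinj i 1 (by omega) f hf ?_
      rwa [pow_one])
    rw [red_succ hc] at h1
    rcases Nat.eq_zero_or_pos i with rfl | hi0
    · rw [finrank_AA_zero hcc] at h1
      have h2 : hvec Z 0 = 1 := by
        change hilbZ Z 0 = 1
        rw [← finrank_AA_IZ]
        exact finrank_AA_zero (cc_IZ hZ)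
      omega
    · obtain ⟨i', rfl⟩ : ∃ i', i = i' + 1 := ⟨i - 1, by omega⟩
      rw [red_succ hc] at h1
      exact h1

/-- a linear form vanishing at no point of a finite set of nonzero vectors -/
lemma exists_lin_avoid [Infinite K] (W : Finset (Fin (n + 1) → K)) (hW : ∀ p ∈ W, p ≠ 0) :
    ∃ c : Fin (n + 1) → K, ∀ p ∈ W, eval p (Pool.Agent.H500R2.WLP.lin c) ≠ 0 := by
  by_contra hcon
  push Not at hcon
  have h1 : (∏ p ∈ W, Pool.Agent.H500R2.WLP.lin p : MvPolynomial (Fin (n + 1)) K) = 0 := by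
    apply MvPolynomial.funext
    intro c
    obtain ⟨p, hp, h⟩ := hcon c
    rw [map_prod, map_zero]
    apply Finset.prod_eq_zero hp
    rw [Pool.Agent.H500R2.WLP.eval_lin] at h ⊢
    rw [← h]
    exact Finset.sum_congr rfl fun i _ => mul_comm _ _
  rw [Finset.prod_eq_zero_iff] at h1
  obtain ⟨p, hp, h⟩ := h1
  apply hW p hp
  funext i
  have h2 := congrArg (eval (Pi.single i 1)) h
  rw [Pool.Agent.H500R2.WLP.eval_lin, map_zero] at h2
  simpa [Pi.single_apply] using h2

end TH130CI
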