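import Pool.Agent.W515.SLP.Mac

/-!
Multiplication by powers of a linear form of maximal rank: an element `w` killed by `ℓ ^ k`
satisfies `ℓ' ^ M * w ∈ ℓ ^ (M - k + 1) * A` for all linear forms `ℓ'`.
-/

open MvPolynomial
open Pool.Agent.W515.SLP (lin coeff_lin_pow)

namespace TH130CI

section semicont

variable {K V Y : Type*} [Field K] [AddCommGroup V] [Module K V] [AddCommGroup Y] [Module K Y]
  [Module.Finite K V]

/-- the rank of a polynomial family does not drop except at finitely many parameters -/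
theorem rank_semicont (B : K → (V →ₗ[K] Y))
    (hB : ∀ (v : V) (μ : Y →ₗ[K] K), ∃ P : Polynomial K, ∀ t, P.eval t = μ (B t v)) (t0 : K) :
    {t : K | Module.finrank K (LinearMap.range (B t)) <
      Module.finrank K (LinearMap.range (B t0))}.Finite := by
  classical
  set r := Module.finrank K (LinearMap.range (B t0)) with hr
  let b := Module.finBasis K (LinearMap.range (B t0))
  have hb : ∀ i, ∃ v, B t0 v = (b i : Y) := fun i => (b i).2
  choose v hv using hb
  have hcoord : ∀ j, ∃ μ : Y →ₗ[K] K, μ ∘ₗ (LinearMap.range (B t0)).subtype = b.coord j :=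
    fun j => LinearMap.exists_extend (b.coord j)
  choose μ hμ using hcoord
  choose P hP using fun i j => hB (v i) (μ j)
  let Mx : Matrix (Fin r) (Fin r) (Polynomial K) := Matrix.of fun i j => P i j
  have heval : ∀ t, (Mx.det).eval t = (Matrix.of fun i j => μ j (B t (v i))).det := by
    intro t
    have h1 := RingHom.map_det (Polynomial.evalRingHom t) Mx
    rw [Polynomial.coe_evalRingHom] at h1
    rw [h1]
    congr 1
    ext i j
    simp [Mx, hP]
  have h0 : (Mx.det).eval t0 = 1 := by
    rw [heval]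
    have h1 : (Matrix.of fun i j => μ j (B t0 (v i))) = (1 : Matrix (Fin r) (Fin r) K) := by
      ext i j
      rw [Matrix.of_apply, hv]
      have h2 := LinearMap.congr_fun (hμ j) (b i)
      rw [LinearMap.comp_apply, Submodule.subtype_apply, Module.Basis.coord_apply,
        Module.Basis.repr_self, Finsupp.single_apply] at h2
      rw [h2, Matrix.one_apply]
    rw [h1, Matrix.det_one]
  have hne : Mx.det ≠ 0 := by
    intro h
    rw [h, Polynomial.eval_zero] at h0
    exact zero_ne_one h0
  refine (Polynomial.finite_setOfPred_isRoot hne).subset ?_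
  intro t ht
  change (Mx.det).eval t = 0
  by_contra hdet
  rw [heval] at hdet
  have hli : LinearIndependent K fun i => (⟨B t (v i), LinearMap.mem_range_self _ _⟩ :
      LinearMap.range (B t)) := by
    rw [Fintype.linearIndependent_iff]
    intro c hc
    have h1 : ∑ i, c i • B t (v i) = 0 := by
      have := congrArg Subtype.val hc
      simpa using this
    have h2 : Matrix.vecMul c (Matrix.of fun i j => μ j (B t (v i))) = 0 := by
      ext j
      have h3 := congrArg (μ j) h1
      rw [map_sum, map_zero] at h3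
      simp only [map_smul, smul_eq_mul] at h3
      simpa [Matrix.vecMul, dotProduct] using h3
    have h3 := Matrix.eq_zero_of_vecMul_eq_zero hdet h2
    intro i
    rw [h3]; rfl
  have h1 := hli.fintype_card_le_finrank
  rw [Fintype.card_fin] at h1
  have h2 : Module.finrank K (LinearMap.range (B t)) < r := ht
  omega

end semicont

section lift

variable {K Q : Type*} [Field K] [Infinite K] [CommRing Q] [Algebra K Q] [Module.Finite K Q]

omit [Infinite K] [Module.Finite K Q] in
/-- the values of a functional along the pencil are polynomial -/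
lemma pencil_poly (ℓ ℓ' v : Q) (k : ℕ) (μ : Q →ₗ[K] K) :
    ∃ P : Polynomial K, ∀ t, P.eval t = μ ((ℓ + t • ℓ') ^ k * v) := by
  refine ⟨∑ m ∈ Finset.range (k + 1), Polynomial.C (μ ((ℓ ^ m * ℓ' ^ (k - m) * (k.choose m : Q)) * v)) *
    Polynomial.X ^ (k - m), fun t => ?_⟩
  rw [Polynomial.eval_finsetSum, add_pow, Finset.sum_mul, map_sum]
  refine Finset.sum_congr rfl fun m _ => ?_
  rw [Polynomial.eval_mul, Polynomial.eval_C, Polynomial.eval_pow, Polynomial.eval_X]
  have h1 : ℓ ^ m * (t • ℓ') ^ (k - m) * (k.choose m : Q) * v =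
      t ^ (k - m) • (ℓ ^ m * ℓ' ^ (k - m) * (k.choose m : Q) * v) := by
    rw [smul_pow]
    simp only [mul_smul_comm, smul_mul_assoc]
  rw [h1, map_smul, smul_eq_mul, mul_comm]

omit [Infinite K] [Module.Finite K Q] in
/-- the algebraic identity behind the lifting argument -/
lemma pow_mem {ℓ ℓ' w : Q} {k M : ℕ} (hk : 1 ≤ k) (hM : k - 1 ≤ M) {Y : Submodule K Q}
    (hY : ∀ a b, a + b = k - 1 → ℓ ^ a * ℓ' ^ b * w ∈ Y) {t : K} (ht : t ≠ 0)
    (hw : (ℓ + t • ℓ') ^ k * w = 0) :
    ℓ' ^ M * w ∈ Y.map (LinearMap.mulLeft K (ℓ ^ (M - (k - 1)))) := by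
  set m := ℓ + t • ℓ' with hm
  have h1 : t ^ M • (ℓ' ^ M * w) = (m + (-ℓ)) ^ M * w := by
    rw [hm, add_comm ℓ, add_neg_cancel_right, smul_pow, smul_mul_assoc]
  have h2 : (m + (-ℓ)) ^ M * w ∈ Y.map (LinearMap.mulLeft K (ℓ ^ (M - (k - 1)))) := by
    rw [add_pow, Finset.sum_mul]
    refine Submodule.sum_mem _ fun i hi => ?_
    rcases lt_or_ge i k with hik | hik
    · have hmem : ∀ c, c + i = k - 1 → ℓ ^ c * m ^ i * w ∈ Y := by
        intro c hc
        rw [hm, add_pow, Finset.mul_sum, Finset.sum_mul]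
        refine Submodule.sum_mem _ fun a ha => ?_
        have h3 : ℓ ^ c * (ℓ ^ a * (t • ℓ') ^ (i - a) * (i.choose a : Q)) * w =
            (t ^ (i - a) * (i.choose a : K)) • (ℓ ^ (c + a) * ℓ' ^ (i - a) * w) := by
          rw [smul_pow, Algebra.smul_def, Algebra.smul_def, map_mul, map_natCast, pow_add]
          ring
        rw [h3]
        apply Y.smul_mem
        apply hY
        have := Finset.mem_range.mp ha
        omega
      refine ⟨((-1 : K) ^ (M - i) * (M.choose i : K)) • (ℓ ^ (k - 1 - i) * m ^ i * w),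
        Y.smul_mem _ (hmem _ (by omega)), ?_⟩
      rw [LinearMap.mulLeft_apply, Algebra.smul_def, map_mul, map_pow, map_neg, map_one,
        map_natCast]
      have h4 : (-ℓ) ^ (M - i) = (-1) ^ (M - i) * (ℓ ^ (M - (k - 1)) * ℓ ^ (k - 1 - i)) := by
        rw [← pow_add, neg_pow, show M - (k - 1) + (k - 1 - i) = M - i by
          have := Finset.mem_range.mp hi; omega]
      rw [h4]
      ring
    · have h3 : m ^ i * (-ℓ) ^ (M - i) * (M.choose i : Q) * w =
          m ^ (i - k) * (-ℓ) ^ (M - i) * (M.choose i : Q) * (m ^ k * w) := by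
        conv_lhs => rw [show i = (i - k) + k by omega, pow_add]
        rw [show i - k + k = i by omega]
        ring
      rw [h3, hw, mul_zero]
      exact Submodule.zero_mem _
  rw [← h1] at h2
  exact (Submodule.smul_mem_iff _ (pow_ne_zero M ht)).mp h2

/-- **Lifting lemma.** -/
theorem lift_mem {V : Submodule K Q} {ℓ ℓ' : Q} {k M : ℕ} (hk : 1 ≤ k) (hM : k - 1 ≤ M)
    {Y : Submodule K Q} (hY : ∀ v ∈ V, ∀ a b, a + b = k - 1 → ℓ ^ a * ℓ' ^ b * v ∈ Y)
    (hmax : {t : K | Module.finrank K (V.map (LinearMap.mulLeft K (ℓ ^ k))) <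
      Module.finrank K (V.map (LinearMap.mulLeft K ((ℓ + t • ℓ') ^ k)))}.Finite)
    {w : Q} (hwV : w ∈ V) (hw : ℓ ^ k * w = 0) :
    ℓ' ^ M * w ∈ Y.map (LinearMap.mulLeft K (ℓ ^ (M - (k - 1)))) := by
  set X := Y.map (LinearMap.mulLeft K (ℓ ^ (M - (k - 1)))) with hX
  let B1 : K → (V →ₗ[K] Q) := fun t => LinearMap.mulLeft K ((ℓ + t • ℓ') ^ k) ∘ₗ V.subtype
  let B2 : V →ₗ[K] (Q ⧸ X) := X.mkQ ∘ₗ LinearMap.mulLeft K (ℓ' ^ M) ∘ₗ V.subtype
  let B : K → (V →ₗ[K] Q × (Q ⧸ X)) := fun t => (B1 t).prod B2
  have hB : ∀ (v : V) (μ : Q × (Q ⧸ X) →ₗ[K] K), ∃ P : Polynomial K, ∀ t,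
      P.eval t = μ (B t v) := by
    intro v μ
    obtain ⟨P, hP⟩ := pencil_poly ℓ ℓ' (v : Q) k (μ ∘ₗ LinearMap.inl K Q (Q ⧸ X))
    refine ⟨P + Polynomial.C (μ (0, B2 v)), fun t => ?_⟩
    rw [Polynomial.eval_add, Polynomial.eval_C, hP]
    change μ ((ℓ + t • ℓ') ^ k * v, 0) + μ (0, B2 v) = μ ((ℓ + t • ℓ') ^ k * v, B2 v)
    rw [← map_add, Prod.mk_add_mk, add_zero, zero_add]
  have hfin := rank_semicont B hB 0
  have hB1 : ∀ t, LinearMap.range (B1 t) = V.map (LinearMap.mulLeft K ((ℓ + t • ℓ') ^ k)) := by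
    intro t
    rw [LinearMap.range_comp, Submodule.range_subtype]
  obtain ⟨t, ht⟩ := ((hfin.union hmax).union (Set.finite_singleton 0)).exists_notMem
  rw [Set.mem_union, Set.mem_union, not_or, not_or] at ht
  obtain ⟨⟨h1, h2⟩, h3⟩ := ht
  have ht0 : t ≠ 0 := h3
  have h1' : Module.finrank K (LinearMap.range (B 0)) ≤ Module.finrank K (LinearMap.range (B t)) :=
    not_lt.mp (fun h => h1 h)
  have h2' : Module.finrank K (V.map (LinearMap.mulLeft K ((ℓ + t • ℓ') ^ k))) ≤
      Module.finrank K (V.map (LinearMap.mulLeft K (ℓ ^ k))) := not_lt.mp (fun h => h2 h)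
  -- for this `t` the two kernels agree
  have hker : LinearMap.ker (B t) = LinearMap.ker (B1 t) := by
    ext v
    rw [LinearMap.mem_ker, LinearMap.mem_ker]
    constructor
    · intro h; exact congrArg Prod.fst h
    · intro h
      apply Prod.ext
      · exact h
      · change X.mkQ (ℓ' ^ M * (v : Q)) = 0
        rw [Submodule.mkQ_apply, Submodule.Quotient.mk_eq_zero]
        exact pow_mem hk hM (hY v v.2) ht0 h
  have e1 := LinearMap.finrank_range_add_finrank_ker (B t)
  have e2 := LinearMap.finrank_range_add_finrank_ker (B1 t)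
  have e3 := LinearMap.finrank_range_add_finrank_ker (B 0)
  have e4 := LinearMap.finrank_range_add_finrank_ker (B1 0)
  rw [← hB1] at h2'
  have hB10 : V.map (LinearMap.mulLeft K (ℓ ^ k)) = LinearMap.range (B1 0) := by
    rw [hB1, zero_smul, add_zero]
  rw [hB10] at h2'
  rw [hker] at e1
  have hle : LinearMap.ker (B 0) ≤ LinearMap.ker (B1 0) := fun v h => congrArg Prod.fst h
  have heq : LinearMap.ker (B 0) = LinearMap.ker (B1 0) := by
    apply Submodule.eq_of_le_of_finrank_le hle
    omega
  have hwk : (⟨w, hwV⟩ : V) ∈ LinearMap.ker (B1 0) := by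
    rw [LinearMap.mem_ker]
    change (ℓ + (0 : K) • ℓ') ^ k * w = 0
    rw [zero_smul, add_zero, hw]
  rw [← heq, LinearMap.mem_ker] at hwk
  have h5 : X.mkQ (ℓ' ^ M * w) = 0 := congrArg Prod.snd hwk
  rwa [Submodule.mkQ_apply, Submodule.Quotient.mk_eq_zero] at h5

end lift

section span

variable {K : Type*} [Field K] [CharZero K] {n : ℕ}

/-- powers of linear forms span all forms -/
theorem pow_span {M : ℕ} {W : Submodule K (MvPolynomial (Fin n) K)}
    (h : ∀ q : Fin n → K, lin q ^ M ∈ W) {g : MvPolynomial (Fin n) K} (hg : g.IsHomogeneous M) :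
    g ∈ W := by
  classical
  by_contra hgW
  obtain ⟨ψ, hψ, hle⟩ := Submodule.exists_le_ker_of_notMem hgW
  let T : Finset (Fin n →₀ ℕ) := Finset.univ.finsuppAntidiag M
  have hT : ∀ a : Fin n →₀ ℕ, a ∈ T ↔ a.degree = M := by
    intro a
    rw [Finset.mem_finsuppAntidiag, Finsupp.degree_eq_sum]
    simp
  let P : MvPolynomial (Fin n) K := ∑ a ∈ T,
    monomial a (ψ (monomial a 1) * (∏ i, (((a i).factorial : ℕ) : K))⁻¹)
  have hfac : ∀ a : Fin n →₀ ℕ, (∏ i, (((a i).factorial : ℕ) : K)) ≠ 0 := by
    intro a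
    rw [Finset.prod_ne_zero_iff]
    intro i _
    exact Nat.cast_ne_zero.mpr (Nat.factorial_ne_zero _)
  have hP : P = 0 := by
    apply MvPolynomial.funext
    intro q
    rw [map_zero]
    have h1 : ψ (lin q ^ M) = 0 := hle (h q)
    have h2 : (lin q ^ M : MvPolynomial (Fin n) K) = ∑ a ∈ T, coeff a (lin q ^ M) • monomial a 1 := by
      ext b
      rw [coeff_sum]
      by_cases hb : b ∈ T
      · rw [Finset.sum_eq_single b]
        · rw [coeff_smul, coeff_monomial, if_pos rfl, smul_eq_mul, mul_one]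
        · intro c _ hc
          rw [coeff_smul, coeff_monomial, if_neg hc, smul_zero]
        · intro h; exact absurd hb h
      · rw [Finset.sum_eq_zero]
        · have h3 : (lin q ^ M : MvPolynomial (Fin n) K).IsHomogeneous M := by
            have h4 : (lin q : MvPolynomial (Fin n) K).IsHomogeneous 1 := by
              rw [lin]
              refine IsHomogeneous.sum _ _ _ fun i _ => ?_
              have := (isHomogeneous_C (Fin n) (q i)).mul (isHomogeneous_X K i)
              rwa [zero_add] at this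
            have := h4.pow M
            rwa [one_mul] at this
          apply h3.coeff_eq_zero
          intro h; exact hb ((hT b).mpr h)
        · intro c hc
          rw [coeff_smul, coeff_monomial, if_neg (by rintro rfl; exact hb hc), smul_zero]
    rw [h2, map_sum] at h1
    have h3 : (M.factorial : K) * eval q P = 0 := by
      rw [← h1, map_sum, Finset.mul_sum]
      refine Finset.sum_congr rfl fun a ha => ?_
      rw [map_smul, smul_eq_mul, eval_monomial]
      have h4 := coeff_lin_pow q M a ((hT a).mp ha)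
      have h5 : a.prod (fun i e => q i ^ e) = ∏ i, q i ^ a i :=
        Finsupp.prod_fintype _ _ (fun _ => pow_zero _)
      rw [h5]
      field_simp [hfac a]
      linear_combination (-ψ (monomial a 1)) * h4
    exact (mul_eq_zero.mp h3).resolve_left (Nat.cast_ne_zero.mpr (Nat.factorial_ne_zero _))
  have hψ0 : ∀ a ∈ T, ψ (monomial a 1) = 0 := by
    intro a ha
    have h1 := congrArg (coeff a) hP
    rw [coeff_zero, coeff_sum, Finset.sum_eq_single a] at h1
    · rw [coeff_monomial, if_pos rfl] at h1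
      exact (mul_eq_zero.mp h1).resolve_right (inv_ne_zero (hfac a))
    · intro c _ hc
      rw [coeff_monomial, if_neg hc]
    · intro h; exact absurd ha h
  apply hψ
  rw [g.as_sum, map_sum]
  refine Finset.sum_eq_zero fun a ha => ?_
  have h1 : monomial a (coeff a g) = coeff a g • monomial a (1 : K) := by
    rw [smul_monomial, smul_eq_mul, mul_one]
  have h2 : a ∈ T := by
    rw [hT]
    by_contra hne
    exact (mem_support_iff.1 ha) (hg.coeff_eq_zero hne)
  rw [h1, map_smul, hψ0 a h2, smul_zero]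

end span

end TH130CI
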