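import Pool.Agent.TH130.CI.Len
import Pool.Agent.TH130.CI.Lift

/-!
Injectivity of multiplication by powers of a general linear form in low degrees of a Gorenstein
algebra whose ideal contains forms of small degree without common zeros.
-/

open MvPolynomial
open Pool.Agent.W515.SLP (AnnP Deg annP_zero annP_of_gt annP_of_homog lin)
open H503R3.QCI (Homog comp_mul comp_mul_of_lt)

namespace TH130CI

variable {K : Type*} [Field K] {n : ℕ}

instance finite_AA (I : Ideal (MvPolynomial (Fin n) K)) (p : ℕ) : Module.Finite K (AA I p) := by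
  have : Module.Finite K (homogeneousSubmodule (Fin n) K p) :=
    Module.Finite.iff_fg.2 (homogeneousSubmodule_fg _ _ p)
  exact Module.Finite.map _ _

lemma gor_finite {φ : MvPolynomial (Fin n) K →ₗ[K] K} {s : ℕ} (hφ : Deg φ s) :
    Module.Finite K (MvPolynomial (Fin n) K ⧸ gor φ) := by
  have h1 : (⨆ p ∈ Finset.range (s + 1), AA (gor φ) p) = ⊤ := by
    rw [eq_top_iff]
    rintro x -
    obtain ⟨g, rfl⟩ := Ideal.Quotient.mk_surjective x
    rw [← sum_homogeneousComponent g, map_sum]
    refine Submodule.sum_mem _ fun p _ => ?_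
    by_cases hp : p < s + 1
    · have h2 : AA (gor φ) p ≤ ⨆ p ∈ Finset.range (s + 1), AA (gor φ) p :=
        le_biSup (fun p => AA (gor φ) p) (Finset.mem_range.mpr hp)
      exact h2 (mem_AA.mpr ⟨_, homogeneousComponent_isHomogeneous _ _, rfl⟩)
    · have h2 : homogeneousComponent p g ∈ gor φ :=
        annP_of_gt hφ (by omega) (homogeneousComponent_isHomogeneous _ _)
      rw [Ideal.Quotient.eq_zero_iff_mem.mpr h2]
      exact Submodule.zero_mem _
  have h3 : Module.Finite K (⨆ p ∈ Finset.range (s + 1), AA (gor φ) p :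
      Submodule K (MvPolynomial (Fin n) K ⧸ gor φ)) := by
    exact Submodule.finite_finset_sup _ _ |> fun h => by
      rw [← Finset.sup_eq_iSup]; exact h
  rw [h1] at h3
  exact Module.Finite.of_surjective (Submodule.topEquiv (R := K)
    (M := MvPolynomial (Fin n) K ⧸ gor φ)).toLinearMap (LinearEquiv.surjective _)

lemma lin_homog (q : Fin n → K) : (lin q : MvPolynomial (Fin n) K).IsHomogeneous 1 := by
  rw [lin]
  refine IsHomogeneous.sum _ _ _ fun i _ => ?_
  have := (isHomogeneous_C (Fin n) (q i)).mul (isHomogeneous_X K i)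
  rwa [zero_add] at this

lemma lin_add_smul (q q' : Fin n → K) (t : K) :
    (lin (q + t • q') : MvPolynomial (Fin n) K) = lin q + t • lin q' := by
  simp only [lin, Finset.smul_sum, ← Finset.sum_add_distrib]
  refine Finset.sum_congr rfl fun i _ => ?_
  rw [Pi.add_apply, Pi.smul_apply, smul_eq_mul, map_add, map_mul, add_mul, smul_eq_C_mul, mul_assoc]

/-- the total rank of the maps `ℓ ^ (N - i) : A_i → A_N` -/
noncomputable def rk (I : Ideal (MvPolynomial (Fin n) K)) (N i : ℕ) (q : Fin n → K) : ℕ :=
  Module.finrank K ((AA I i).map (LinearMap.mulLeft K (Ideal.Quotient.mk I (lin q) ^ (N - i))))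

lemma exists_max (I : Ideal (MvPolynomial (Fin n) K)) (N : ℕ) :
    ∃ q : Fin n → K, ∀ q', ∑ i ∈ Finset.range (N + 1), rk I N i q' ≤
      ∑ i ∈ Finset.range (N + 1), rk I N i q := by
  have hb : ∀ q, ∑ i ∈ Finset.range (N + 1), rk I N i q ≤
      ∑ i ∈ Finset.range (N + 1), n ^ i := by
    intro q
    refine Finset.sum_le_sum fun i _ => ?_
    exact le_trans (Submodule.finrank_map_le _ _) (finrank_AA_le I i)
  have hbdd : BddAbove (Set.range fun q : Fin n → K => ∑ i ∈ Finset.range (N + 1), rk I N i q) :=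
    ⟨_, by rintro _ ⟨q, rfl⟩; exact hb q⟩
  obtain ⟨q, hq⟩ := Nat.sSup_mem (Set.range_nonempty _) hbdd
  refine ⟨q, fun q' => ?_⟩
  have h1 := le_csSup hbdd ⟨q', rfl⟩
  rw [← hq] at h1
  exact h1

lemma finite_bad (I : Ideal (MvPolynomial (Fin n) K))
    (_hf : Module.Finite K (MvPolynomial (Fin n) K ⧸ I)) (N i : ℕ) (q q' : Fin n → K) :
    {t : K | rk I N i (q + t • q') < rk I N i q}.Finite := by
  have h1 := rank_semicont (K := K) (V := AA I i) (Y := MvPolynomial (Fin n) K ⧸ I)
    (fun t => LinearMap.mulLeft K ((Ideal.Quotient.mk I (lin q) + t • Ideal.Quotient.mk I (lin q')) ^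
      (N - i)) ∘ₗ (AA I i).subtype)
    (fun v μ => by
      obtain ⟨P, hP⟩ := pencil_poly (Ideal.Quotient.mk I (lin q)) (Ideal.Quotient.mk I (lin q'))
        (v : MvPolynomial (Fin n) K ⧸ I) (N - i) μ
      exact ⟨P, hP⟩) 0
  refine h1.subset ?_
  intro t ht
  have h2 : ∀ t : K, rk I N i (q + t • q') = Module.finrank K (LinearMap.range
      (LinearMap.mulLeft K ((Ideal.Quotient.mk I (lin q) + t • Ideal.Quotient.mk I (lin q')) ^
      (N - i)) ∘ₗ (AA I i).subtype)) := by
    intro t
    rw [rk, LinearMap.range_comp, Submodule.range_subtype, lin_add_smul, map_add]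
    rfl
  have h3 : rk I N i q = rk I N i (q + (0 : K) • q') := by rw [zero_smul, add_zero]
  change rk I N i (q + t • q') < rk I N i q at ht
  rw [h3, h2, h2] at ht
  exact ht

/-- For `q` of maximal total rank each individual rank exceeds the value at `q` only finitely often
along a pencil. -/
lemma finite_excess {I : Ideal (MvPolynomial (Fin n) K)}
    (hf : Module.Finite K (MvPolynomial (Fin n) K ⧸ I)) {N i : ℕ} (hi : i ≤ N) {q : Fin n → K}
    (hq : ∀ q', ∑ i ∈ Finset.range (N + 1), rk I N i q' ≤ ∑ i ∈ Finset.range (N + 1), rk I N i q)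
    (q' : Fin n → K) : {t : K | rk I N i q < rk I N i (q + t • q')}.Finite := by
  have h1 : (⋃ j ∈ Finset.range (N + 1), {t : K | rk I N j (q + t • q') < rk I N j q}).Finite :=
    Set.Finite.biUnion (Finset.finite_toSet _) fun j _ => finite_bad I hf N j q q'
  refine h1.subset ?_
  intro t ht
  by_contra hcon
  simp only [Set.mem_iUnion, not_exists] at hcon
  have h2 : ∀ j ∈ Finset.range (N + 1), rk I N j q ≤ rk I N j (q + t • q') :=
    fun j hj => not_lt.mp (fun h => hcon j hj h)
  have h3 : ∑ j ∈ Finset.range (N + 1), rk I N j q <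
      ∑ j ∈ Finset.range (N + 1), rk I N j (q + t • q') :=
    Finset.sum_lt_sum h2 ⟨i, Finset.mem_range.mpr (by omega), ht⟩
  exact absurd (hq (q + t • q')) (not_le.mpr h3)

/-- **Main theorem**, functional form. -/
theorem main_gor [CharZero K] {φ : MvPolynomial (Fin n) K →ₗ[K] K} {σ : ℕ} (hφ : Deg φ σ) {N : ℕ}
    (hN : 1 ≤ N) (hNσ : N ≤ σ) (hn : 1 ≤ n) {G : Set (MvPolynomial (Fin n) K)}
    (hG : ∀ g ∈ G, ∃ d ≤ N, g.IsHomogeneous d) (hGI : ∀ g ∈ G, g ∈ gor φ)
    (hm : ∀ i, ∃ m, X i ^ m ∈ Ideal.span G)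
    (hnum : ∀ j < N, ∃ r, 4 ^ r * N ≤ σ - j ∧ (σ - j + 1) * n ^ (N - 1) < 2 ^ (r ^ 2) * N ^ r) :
    ∃ q : Fin n → K, ∀ i ≤ N, ∀ g : MvPolynomial (Fin n) K, g.IsHomogeneous i →
      lin q ^ (N - i) * g ∈ gor φ → g ∈ gor φ := by
  classical
  set I := gor φ with hI
  have hf : Module.Finite K (MvPolynomial (Fin n) K ⧸ I) := gor_finite hφ
  obtain ⟨q, hq⟩ := exists_max I N
  refine ⟨q, fun i hi g hg hgl => ?_⟩
  by_contra hgI
  have hiN : i < N := by
    rcases lt_or_eq_of_le hi with h | h
    · exact h
    · subst h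
      rw [Nat.sub_self, pow_zero, one_mul] at hgl
      exact absurd hgl hgI
  set Q := MvPolynomial (Fin n) K ⧸ I with hQ
  set w : Q := Ideal.Quotient.mk I g with hw
  have hk : 1 ≤ N - i := by omega
  have hwk : (Ideal.Quotient.mk I (lin q)) ^ (N - i) * w = 0 := by
    rw [hw, ← map_pow, ← map_mul]
    exact Ideal.Quotient.eq_zero_iff_mem.mpr hgl
  have hwA : w ∈ AA I i := mem_AA.mpr ⟨g, hg, rfl⟩
  -- the bound on the graded pieces of `w A`
  let Wm : ℕ → Submodule K Q := fun M => (AA I M).map (LinearMap.mulRight K w)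
  have hWm : ∀ M, Module.finrank K (Wm M) ≤ n ^ (N - 1) := by
    intro M
    rcases lt_or_ge M (N - i - 1) with hM | hM
    · refine le_trans (Submodule.finrank_map_le _ _) (le_trans (finrank_AA_le I M) ?_)
      exact Nat.pow_le_pow_right hn (by omega)
    · set Xm : Submodule K Q := (AA I (N - 1)).map
        (LinearMap.mulLeft K ((Ideal.Quotient.mk I (lin q)) ^ (M - (N - i - 1)))) with hXm
      have h1 : Wm M ≤ Xm := by
        rintro _ ⟨x, hx, rfl⟩
        obtain ⟨h, hh, rfl⟩ := mem_AA.mp hx
        let Wc : Submodule K (MvPolynomial (Fin n) K) :=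
          Xm.comap ((LinearMap.mulRight K w) ∘ₗ (Ideal.Quotient.mkₐ K I).toLinearMap)
        have h2 : ∀ q' : Fin n → K, (lin q' ^ M : MvPolynomial (Fin n) K) ∈ Wc := by
          intro q'
          change Ideal.Quotient.mk I (lin q' ^ M) * w ∈ Xm
          rw [map_pow]
          refine lift_mem (V := AA I i) hk hM ?_ ?_ hwA hwk
          · rintro v hv a b hab
            obtain ⟨v', hv', rfl⟩ := mem_AA.mp hv
            rw [← map_pow, ← map_pow, ← map_mul, ← map_mul]
            refine mem_AA.mpr ⟨_, ?_, rfl⟩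
            have := (((lin_homog q).pow a).mul ((lin_homog q').pow b)).mul hv'
            rwa [show 1 * a + 1 * b + i = N - 1 by omega] at this
          · have h3 := finite_excess hf hi hq q'
            refine h3.subset ?_
            intro t ht
            change rk I N i q < rk I N i (q + t • q')
            have e1 : rk I N i q = Module.finrank K ((AA I i).map
              (LinearMap.mulLeft K ((Ideal.Quotient.mk I (lin q)) ^ (N - i)))) := rfl
            have e2 : rk I N i (q + t • q') = Module.finrank K ((AA I i).map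
              (LinearMap.mulLeft K ((Ideal.Quotient.mk I (lin q) +
                t • Ideal.Quotient.mk I (lin q')) ^ (N - i)))) := by
              rw [rk, lin_add_smul, map_add]
              rfl
            rw [e1, e2]
            exact ht
        exact pow_span h2 hh
      calc Module.finrank K (Wm M) ≤ Module.finrank K Xm := Submodule.finrank_mono h1
        _ ≤ Module.finrank K (AA I (N - 1)) := Submodule.finrank_map_le _ _
        _ ≤ n ^ (N - 1) := finrank_AA_le I (N - 1)
  -- the colon ideal
  let φ' : MvPolynomial (Fin n) K →ₗ[K] K := φ ∘ₗ LinearMap.mulLeft K g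
  have hφ' : Deg φ' (σ - i) := by
    intro p hp h hh
    change φ (g * h) = 0
    exact hφ (i + p) (by omega) _ (hg.mul hh)
  have hcol : ∀ h, h ∈ gor φ' ↔ g * h ∈ gor φ := by
    intro h
    constructor
    · intro hh x
      have := hh x
      change φ (g * (h * x)) = 0 at this
      rwa [← mul_assoc] at this
    · intro hh x
      change φ (g * (h * x)) = 0
      rw [← mul_assoc]
      exact hh x
  have hle : gor φ ≤ gor φ' := fun h hh => (hcol h).mpr ((gor φ).mul_mem_left _ hh)
  -- upper bound for the length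
  have hup : Module.finrank K (MvPolynomial (Fin n) K ⧸ gor φ') ≤ (σ - i + 1) * n ^ (N - 1) := by
    let m : Q →ₗ[K] Q := LinearMap.mulRight K w
    let c : Q →ₗ[K] (MvPolynomial (Fin n) K ⧸ gor φ') := (Ideal.Quotient.factorₐ K hle).toLinearMap
    have hc : Function.Surjective c := Ideal.Quotient.factor_surjective hle
    have hker : LinearMap.ker m = LinearMap.ker c := by
      ext y
      obtain ⟨h, rfl⟩ := Ideal.Quotient.mk_surjective y
      rw [LinearMap.mem_ker, LinearMap.mem_ker]
      change Ideal.Quotient.mk I h * Ideal.Quotient.mk I g = 0 ↔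
        Ideal.Quotient.mk (gor φ') h = 0
      rw [← map_mul, Ideal.Quotient.eq_zero_iff_mem, Ideal.Quotient.eq_zero_iff_mem, hcol, mul_comm]
    have e1 := LinearMap.finrank_range_add_finrank_ker m
    have e2 := LinearMap.finrank_range_add_finrank_ker c
    rw [LinearMap.range_eq_top.mpr hc, finrank_top, ← hker] at e2
    have e3 : LinearMap.range m ≤ ⨆ M ∈ Finset.range (σ - i + 1), Wm M := by
      rintro _ ⟨y, rfl⟩
      obtain ⟨h, rfl⟩ := Ideal.Quotient.mk_surjective y
      rw [← sum_homogeneousComponent h, map_sum, map_sum]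
      refine Submodule.sum_mem _ fun M _ => ?_
      by_cases hM : M < σ - i + 1
      · have h2 : Wm M ≤ ⨆ M ∈ Finset.range (σ - i + 1), Wm M :=
          le_biSup (fun M => Wm M) (Finset.mem_range.mpr hM)
        exact h2 ⟨_, mem_AA.mpr ⟨_, homogeneousComponent_isHomogeneous _ _, rfl⟩, rfl⟩
      · have h2 : homogeneousComponent M h * g ∈ I := by
          refine annP_of_gt hφ ?_ ((homogeneousComponent_isHomogeneous _ _).mul hg)
          omega
        have h3 : m (Ideal.Quotient.mk I (homogeneousComponent M h)) = 0 := by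
          change Ideal.Quotient.mk I (homogeneousComponent M h) * Ideal.Quotient.mk I g = 0
          rw [← map_mul]
          exact Ideal.Quotient.eq_zero_iff_mem.mpr h2
        rw [h3]
        exact Submodule.zero_mem _
    have e4 := Submodule.finrank_mono e3
    have e5 := finrank_sum_le Wm hWm (σ - i + 1)
    omega
  -- lower bound for the length
  obtain ⟨r, hr1, hr2⟩ := hnum i hiN
  have hne : ∃ h : MvPolynomial (Fin n) K, h.IsHomogeneous (σ - i) ∧ h ∉ gor φ' := by
    by_contra hcon
    push Not at hcon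
    apply hgI
    apply annP_of_homog hφ (by omega) hg
    intro v hv
    have := hcon v hv 1
    rw [mul_one] at this
    exact this
  have hlow := length_lower hN hG hm r (σ - i) (gor φ') (gor_homog hφ')
    (fun g hg => hle (hGI g hg)) (gor_finite hφ') hne hr1
  omega

end TH130CI
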