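import Pool.Agent.TH130.CI.Bc

/-!
Complete intersections with reducible generators: exponential lower bounds for the length of a
principal ideal.
-/

open MvPolynomial
open Pool.Agent.W515.SLP (AnnP Deg annP_zero annP_of_gt annP_of_homog lin)
open H503R3.QCI (Homog comp_mul comp_mul_of_lt NZD Reg homog_span isSocleDegree_ci gr mem_gr HS_ci
  HS cip)

namespace TH130CI

variable {K : Type*} [Field K] {n : ℕ}

/-- the colon ideal `I : w` -/
def colI (I : Ideal (MvPolynomial (Fin n) K)) (w : MvPolynomial (Fin n) K) :
    Ideal (MvPolynomial (Fin n) K) where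
  carrier := {h | w * h ∈ I}
  add_mem' := by intro x y hx hy; simpa [mul_add] using I.add_mem hx hy
  zero_mem' := by simp
  smul_mem' := by
    intro c x hx
    have : w * (c * x) = c * (w * x) := by ring
    simpa [this] using I.mul_mem_left c hx

lemma mem_colI {I : Ideal (MvPolynomial (Fin n) K)} {w h : MvPolynomial (Fin n) K} :
    h ∈ colI I w ↔ w * h ∈ I := Iff.rfl

lemma le_colI (I : Ideal (MvPolynomial (Fin n) K)) (w : MvPolynomial (Fin n) K) :
    I ≤ colI I w := fun _ hh => I.mul_mem_left _ hh

lemma nzd_factor {P : Ideal (MvPolynomial (Fin n) K)} {g h : MvPolynomial (Fin n) K}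
    (hn : NZD P (g * h)) : NZD P g := by
  intro x hx
  apply hn
  have : g * h * x = h * (g * x) := by ring
  rw [this]
  exact P.mul_mem_left _ hx

/-- an element killed by a factor of a generator comes from the smaller complete intersection -/
lemma factor_colon {P : Ideal (MvPolynomial (Fin n) K)} (hP : Homog P)
    {g h : MvPolynomial (Fin n) K} {a : ℕ} (hg : g.IsHomogeneous a) (hgn : NZD P g)
    (hhn : NZD P h) {j : ℕ} {w : MvPolynomial (Fin n) K} (hw : w.IsHomogeneous j)
    (hwI : w ∉ P ⊔ Ideal.span {g * h}) (hwh : w * h ∈ P ⊔ Ideal.span {g * h}) :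
    a ≤ j ∧ ∃ y : MvPolynomial (Fin n) K, y.IsHomogeneous (j - a) ∧ y ∉ P ⊔ Ideal.span {h} ∧
      colI (P ⊔ Ideal.span {g * h}) w = colI (P ⊔ Ideal.span {h}) y := by
  have h1 : w ∈ P ⊔ Ideal.span {g} := by
    obtain ⟨p, hp, r, hr, hpr⟩ := Submodule.mem_sup.mp hwh
    obtain ⟨z, rfl⟩ := Ideal.mem_span_singleton'.mp hr
    have h2 : w - z * g ∈ P := by
      apply hhn
      have h3 : h * (w - z * g) = p := by
        have : h * w = p + z * (g * h) := by rw [hpr]; ring
        rw [mul_sub, this]; ring
      rw [h3]; exact hp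
    have h3 : w = (w - z * g) + z * g := by ring
    rw [h3]
    exact Ideal.add_mem _ (Ideal.mem_sup_left h2) (Ideal.mem_sup_right
      (Ideal.mul_mem_left _ _ (Ideal.mem_span_singleton_self _)))
  rcases sup_comp' hP hg hw h1 with ⟨haj, y, hy, hwy⟩ | h2
  swap
  · exact absurd (Ideal.mem_sup_left h2) hwI
  have hcol : ∀ x, w * x ∈ P ⊔ Ideal.span {g * h} ↔ y * x ∈ P ⊔ Ideal.span {h} := by
    intro x
    constructor
    · intro hx
      obtain ⟨p, hp, r, hr, hpr⟩ := Submodule.mem_sup.mp hx
      obtain ⟨z, rfl⟩ := Ideal.mem_span_singleton'.mp hr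
      have h3 : y * x - z * h ∈ P := by
        apply hgn
        have h4 : g * (y * x - z * h) = p - (w - g * y) * x := by
          have : w * x = p + z * (g * h) := hpr.symm
          rw [sub_mul w, this]; ring
        rw [h4]
        exact P.sub_mem hp (P.mul_mem_right _ hwy)
      have h4 : y * x = (y * x - z * h) + z * h := by ring
      rw [h4]
      exact Ideal.add_mem _ (Ideal.mem_sup_left h3) (Ideal.mem_sup_right
        (Ideal.mul_mem_left _ _ (Ideal.mem_span_singleton_self _)))
    · intro hx
      obtain ⟨p, hp, r, hr, hpr⟩ := Submodule.mem_sup.mp hx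
      obtain ⟨z, rfl⟩ := Ideal.mem_span_singleton'.mp hr
      have h4 : w * x = ((w - g * y) * x + g * p) + z * (g * h) := by
        have : y * x = p + z * h := hpr.symm
        have h5 : w * x = (w - g * y) * x + g * (y * x) := by ring
        rw [h5, this]; ring
      rw [h4]
      exact Ideal.add_mem _ (Ideal.mem_sup_left (P.add_mem (P.mul_mem_right _ hwy)
        (P.mul_mem_left _ hp))) (Ideal.mem_sup_right
        (Ideal.mul_mem_left _ _ (Ideal.mem_span_singleton_self _)))
  refine ⟨haj, y, hy, ?_, ?_⟩
  · intro hyI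
    apply hwI
    have := (hcol 1).mpr (by rwa [mul_one])
    rwa [mul_one] at this
  · ext x
    rw [mem_colI, mem_colI]
    exact hcol x

/-- **Reducible generators.**  If `r` of the generators of an Artinian complete intersection `A` are
reducible, then `dim (w A) ≥ 2 ^ (r - deg w)` for every homogeneous `w ≠ 0` of `A`. -/
theorem red_len (r : ℕ) : ∀ (f : Fin n → MvPolynomial (Fin n) K) (d : Fin n → ℕ),
    (∀ i, (f i).IsHomogeneous (d i)) → (∀ i, 1 ≤ d i) → SRegOn Finset.univ f →
    ∀ R : Finset (Fin n), R.card = r →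
    (∀ i ∈ R, ∃ (g h : MvPolynomial (Fin n) K) (a b : ℕ), 1 ≤ a ∧ 1 ≤ b ∧ g.IsHomogeneous a ∧
      h.IsHomogeneous b ∧ f i = g * h) →
    ∀ (i : ℕ) (w : MvPolynomial (Fin n) K), w.IsHomogeneous i → w ∉ Ideal.span (Set.range f) →
      2 ^ (r - i) ≤ Module.finrank K (MvPolynomial (Fin n) K ⧸ colI (Ideal.span (Set.range f)) w) := by
  classical
  induction r with
  | zero =>
    intro f d hf hd hreg R _ _ i w _ hwI
    have hfin : Module.Finite K (MvPolynomial (Fin n) K ⧸ Ideal.span (Set.range f)) :=
      finite_of_top (isSocleDegree_ci f d hf hd (reg_of_sreg hreg)).2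
    rw [Nat.zero_sub, pow_zero]
    refine finrank_pos_of_notMem (finite_of_le (le_colI _ _) hfin) (g := 1) ?_
    rwa [mem_colI, mul_one]
  | succ r ih =>
    intro f d hf hd hreg R hR hred i w hw hwI
    obtain ⟨t, ht⟩ : R.Nonempty := by rw [← Finset.card_pos]; omega
    obtain ⟨g, h, a, b, ha, hb, hg, hh, hgh⟩ := hred t ht
    set P := Ideal.span (f '' ((Finset.univ.erase t : Finset (Fin n)) : Set (Fin n))) with hP
    have hPh : Homog P := homog_image hf _
    have na : NZD P (f t) := hreg _ (Finset.subset_univ _) t (Finset.mem_univ t)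
      (Finset.notMem_erase t _)
    have ng : NZD P g := nzd_factor (hgh ▸ na)
    have nh : NZD P h := nzd_factor (g := h) (h := g) (by rw [mul_comm]; exact hgh ▸ na)
    have hI : Ideal.span (Set.range f) = P ⊔ Ideal.span {g * h} := by
      rw [range_eq_sup f t, hgh]
    have hfin : Module.Finite K (MvPolynomial (Fin n) K ⧸ Ideal.span (Set.range f)) :=
      finite_of_top (isSocleDegree_ci f d hf hd (reg_of_sreg hreg)).2
    -- the induction hypothesis for a factor `u` of degree `c`
    have key : ∀ (u : MvPolynomial (Fin n) K) (c : ℕ), 1 ≤ c → u.IsHomogeneous c → NZD P u →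
        ∀ (j : ℕ) (y : MvPolynomial (Fin n) K), y.IsHomogeneous j → y ∉ P ⊔ Ideal.span {u} →
        2 ^ (r - j) ≤
          Module.finrank K (MvPolynomial (Fin n) K ⧸ colI (P ⊔ Ideal.span {u}) y) := by
      intro u c hc hu nu j y hy hyI
      have hreg' := sreg_update hf hd hreg t hu nu
      have hf' : ∀ i, (Function.update f t u i).IsHomogeneous (Function.update d t c i) := by
        intro i
        by_cases hi : i = t
        · subst hi; rw [Function.update_self, Function.update_self]; exact hu
        · rw [Function.update_of_ne hi, Function.update_of_ne hi]; exact hf i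
      have hd' : ∀ i, 1 ≤ Function.update d t c i := by
        intro i
        by_cases hi : i = t
        · subst hi; rw [Function.update_self]; exact hc
        · rw [Function.update_of_ne hi]; exact hd i
      have hI' : Ideal.span (Set.range (Function.update f t u)) = P ⊔ Ideal.span {u} := by
        rw [range_eq_sup _ t, Function.update_self]
        congr 2
        apply Set.image_congr
        intro i hi
        rw [Function.update_of_ne]
        rintro rfl
        simp at hi
      have h1 := ih _ _ hf' hd' hreg' (R.erase t) (by rw [Finset.card_erase_of_mem ht, hR]; rfl)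
        (by
          intro i hi
          rw [Function.update_of_ne (Finset.ne_of_mem_erase hi)]
          exact hred i (Finset.mem_of_mem_erase hi)) j y hy (by rwa [hI'])
      rwa [hI'] at h1
    rw [hI] at hwI hfin ⊢
    -- an element killed by the factor `h`
    have kh : ∀ (j : ℕ) (v : MvPolynomial (Fin n) K), v.IsHomogeneous j →
        v ∉ P ⊔ Ideal.span {g * h} → v * h ∈ P ⊔ Ideal.span {g * h} →
        a ≤ j ∧ 2 ^ (r - (j - a)) ≤
          Module.finrank K (MvPolynomial (Fin n) K ⧸ colI (P ⊔ Ideal.span {g * h}) v) := by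
      intro j v hv hvI hvh
      obtain ⟨haj, y, hy, hyI, hc⟩ := factor_colon hPh hg ng nh hv hvI hvh
      refine ⟨haj, ?_⟩
      rw [hc]
      exact key h b hb hh nh _ y hy hyI
    -- an element killed by the factor `g`
    have kg : ∀ (j : ℕ) (v : MvPolynomial (Fin n) K), v.IsHomogeneous j →
        v ∉ P ⊔ Ideal.span {g * h} → v * g ∈ P ⊔ Ideal.span {g * h} →
        b ≤ j ∧ 2 ^ (r - (j - b)) ≤
          Module.finrank K (MvPolynomial (Fin n) K ⧸ colI (P ⊔ Ideal.span {g * h}) v) := by
      intro j v hv hvI hvg
      rw [mul_comm g h] at hvI hvg ⊢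
      obtain ⟨hbj, y, hy, hyI, hc⟩ := factor_colon hPh hh nh ng hv hvI hvg
      refine ⟨hbj, ?_⟩
      rw [hc]
      exact key g a ha hg ng _ y hy hyI
    by_cases hwh : w * h ∈ P ⊔ Ideal.span {g * h}
    · obtain ⟨hai, h1⟩ := kh i w hw hwI hwh
      exact le_trans (Nat.pow_le_pow_right (by norm_num) (by omega)) h1
    by_cases hwg : w * g ∈ P ⊔ Ideal.span {g * h}
    · obtain ⟨hbi, h1⟩ := kg i w hw hwI hwg
      exact le_trans (Nat.pow_le_pow_right (by norm_num) (by omega)) h1
    -- the generic case
    have h1 := (kh (i + a) (w * g) (hw.mul hg) hwg (by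
      rw [mul_assoc]
      exact Ideal.mem_sup_right (Ideal.mul_mem_left _ _ (Ideal.mem_span_singleton_self _)))).2
    have h2 := (kg (i + b) (w * h) (hw.mul hh) hwh (by
      rw [mul_assoc, mul_comm h g]
      exact Ideal.mem_sup_right (Ideal.mul_mem_left _ _ (Ideal.mem_span_singleton_self _)))).2
    rw [Nat.add_sub_cancel] at h1 h2
    set I := P ⊔ Ideal.span {g * h} with hIdef
    have hfinw : Module.Finite K (MvPolynomial (Fin n) K ⧸ colI I w) :=
      finite_of_le (le_colI _ _) hfin
    have h3 := finrank_colon (I := colI I w) (I1 := colI I (w * g)) (x := g) (fun x => by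
      rw [mem_colI, mem_colI, mul_assoc]) hfinw
    have h4 : colI I w ⊔ Ideal.span {g} ≤ colI I (w * h) := by
      rw [sup_le_iff]
      constructor
      · intro x hx
        rw [mem_colI] at hx ⊢
        have : w * h * x = h * (w * x) := by ring
        rw [this]
        exact I.mul_mem_left _ hx
      · rw [Ideal.span_singleton_le_iff_mem, mem_colI, mul_assoc, mul_comm h g]
        exact Ideal.mem_sup_right (Ideal.mul_mem_left _ _ (Ideal.mem_span_singleton_self _))
    have h5 := finrank_le_of_le h4 (finite_of_le le_sup_left hfinw)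
    have h6 : 2 ^ (r + 1 - i) ≤ 2 ^ (r - i) + 2 ^ (r - i) := by
      rcases le_or_gt i r with hir | hir
      · rw [show r + 1 - i = (r - i) + 1 by omega, pow_succ]; omega
      · rw [show r + 1 - i = 0 by omega, show r - i = 0 by omega]; norm_num
    omega

end TH130CI
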