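import Pool.Agent.TH130.CI.Main
import Pool.Agent.TH130.CI.Fin
import Pool.Agent.TH130.CI.Red

/-!
The Lefschetz theorem with an abstract lower bound for the length of a principal ideal, and its
application to complete intersections with reducible generators.
-/

open MvPolynomial
open Pool.Agent.W515.SLP (AnnP Deg annP_zero annP_of_gt annP_of_homog lin)
open H503R3.QCI (Homog comp_mul comp_mul_of_lt NZD Reg homog_span isSocleDegree_ci)

namespace TH130CI

variable {K : Type*} [Field K] {n : ℕ}

/-- **Main theorem**, abstract form: if `dim (w A) > (σ + 1) B` for all `w ≠ 0` of degree `< N`, where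
`B` bounds the dimensions of the graded pieces of degree `< N`, then the maps `ℓ ^ k` are injective
in degrees up to `N`. -/
theorem main_len [CharZero K] {I : Ideal (MvPolynomial (Fin n) K)} {σ : ℕ}
    (htop : ∀ p, σ < p → ∀ g : MvPolynomial (Fin n) K, g.IsHomogeneous p → g ∈ I) {N : ℕ} {B : ℕ}
    (hB : ∀ M < N, Module.finrank K (AA I M) ≤ B)
    (hlow : ∀ i < N, ∀ g : MvPolynomial (Fin n) K, g.IsHomogeneous i → g ∉ I →
      (σ + 1) * B < Module.finrank K (MvPolynomial (Fin n) K ⧸ colI I g)) :
    ∃ q : Fin n → K, ∀ i ≤ N, ∀ g : MvPolynomial (Fin n) K, g.IsHomogeneous i →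
      lin q ^ (N - i) * g ∈ I → g ∈ I := by
  classical
  have hf : Module.Finite K (MvPolynomial (Fin n) K ⧸ I) := finite_of_top htop
  obtain ⟨q, hq⟩ := exists_max I N
  refine ⟨q, fun i hi g hg hgl => ?_⟩
  by_contra hgI
  have hiN : i < N := by
    rcases lt_or_eq_of_le hi with h | h
    · exact h
    · subst h
      rw [Nat.sub_self, pow_zero, one_mul] at hgl
      exact absurd hgl hgI
  set Q := MvPolynomial (Fin n) K ⧸ I with hQ
  set w : Q := Ideal.Quotient.mk I g with hw
  have hk : 1 ≤ N - i := by omega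
  have hwk : (Ideal.Quotient.mk I (lin q)) ^ (N - i) * w = 0 := by
    rw [hw, ← map_pow, ← map_mul]
    exact Ideal.Quotient.eq_zero_iff_mem.mpr hgl
  have hwA : w ∈ AA I i := mem_AA.mpr ⟨g, hg, rfl⟩
  -- the bound on the graded pieces of `w A`
  let Wm : ℕ → Submodule K Q := fun M => (AA I M).map (LinearMap.mulRight K w)
  have hWm : ∀ M, Module.finrank K (Wm M) ≤ B := by
    intro M
    rcases lt_or_ge M (N - i - 1) with hM | hM
    · exact le_trans (Submodule.finrank_map_le _ _) (hB M (by omega))
    · set Xm : Submodule K Q := (AA I (N - 1)).map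
        (LinearMap.mulLeft K ((Ideal.Quotient.mk I (lin q)) ^ (M - (N - i - 1)))) with hXm
      have h1 : Wm M ≤ Xm := by
        rintro _ ⟨x, hx, rfl⟩
        obtain ⟨h, hh, rfl⟩ := mem_AA.mp hx
        let Wc : Submodule K (MvPolynomial (Fin n) K) :=
          Xm.comap ((LinearMap.mulRight K w) ∘ₗ (Ideal.Quotient.mkₐ K I).toLinearMap)
        have h2 : ∀ q' : Fin n → K, (lin q' ^ M : MvPolynomial (Fin n) K) ∈ Wc := by
          intro q'
          change Ideal.Quotient.mk I (lin q' ^ M) * w ∈ Xm
          rw [map_pow]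
          refine lift_mem (V := AA I i) hk hM ?_ ?_ hwA hwk
          · rintro v hv a b hab
            obtain ⟨v', hv', rfl⟩ := mem_AA.mp hv
            rw [← map_pow, ← map_pow, ← map_mul, ← map_mul]
            refine mem_AA.mpr ⟨_, ?_, rfl⟩
            have := (((lin_homog q).pow a).mul ((lin_homog q').pow b)).mul hv'
            rwa [show 1 * a + 1 * b + i = N - 1 by omega] at this
          · have h3 := finite_excess hf hi hq q'
            refine h3.subset ?_
            intro t ht
            change rk I N i q < rk I N i (q + t • q')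
            have e1 : rk I N i q = Module.finrank K ((AA I i).map
              (LinearMap.mulLeft K ((Ideal.Quotient.mk I (lin q)) ^ (N - i)))) := rfl
            have e2 : rk I N i (q + t • q') = Module.finrank K ((AA I i).map
              (LinearMap.mulLeft K ((Ideal.Quotient.mk I (lin q) +
                t • Ideal.Quotient.mk I (lin q')) ^ (N - i)))) := by
              rw [rk, lin_add_smul, map_add]
              rfl
            rw [e1, e2]
            exact ht
        exact pow_span h2 hh
      calc Module.finrank K (Wm M) ≤ Module.finrank K Xm := Submodule.finrank_mono h1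
        _ ≤ Module.finrank K (AA I (N - 1)) := Submodule.finrank_map_le _ _
        _ ≤ B := hB _ (by omega)
  -- upper bound for the length
  have hup : Module.finrank K (MvPolynomial (Fin n) K ⧸ colI I g) ≤ (σ + 1) * B := by
    let m : Q →ₗ[K] Q := LinearMap.mulRight K w
    let c : Q →ₗ[K] (MvPolynomial (Fin n) K ⧸ colI I g) :=
      (Ideal.Quotient.factorₐ K (le_colI I g)).toLinearMap
    have hc : Function.Surjective c := Ideal.Quotient.factor_surjective (le_colI I g)
    have hker : LinearMap.ker m = LinearMap.ker c := by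
      ext y
      obtain ⟨h, rfl⟩ := Ideal.Quotient.mk_surjective y
      rw [LinearMap.mem_ker, LinearMap.mem_ker]
      change Ideal.Quotient.mk I h * Ideal.Quotient.mk I g = 0 ↔
        Ideal.Quotient.mk (colI I g) h = 0
      rw [← map_mul, Ideal.Quotient.eq_zero_iff_mem, Ideal.Quotient.eq_zero_iff_mem, mem_colI,
        mul_comm]
    have e1 := LinearMap.finrank_range_add_finrank_ker m
    have e2 := LinearMap.finrank_range_add_finrank_ker c
    rw [LinearMap.range_eq_top.mpr hc, finrank_top, ← hker] at e2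
    have e3 : LinearMap.range m ≤ ⨆ M ∈ Finset.range (σ + 1), Wm M := by
      rintro _ ⟨y, rfl⟩
      obtain ⟨h, rfl⟩ := Ideal.Quotient.mk_surjective y
      rw [← sum_homogeneousComponent h, map_sum, map_sum]
      refine Submodule.sum_mem _ fun M _ => ?_
      by_cases hM : M < σ + 1
      · have h2 : Wm M ≤ ⨆ M ∈ Finset.range (σ + 1), Wm M :=
          le_biSup (fun M => Wm M) (Finset.mem_range.mpr hM)
        exact h2 ⟨_, mem_AA.mpr ⟨_, homogeneousComponent_isHomogeneous _ _, rfl⟩, rfl⟩
      · have h2 := htop M (by omega) _ (homogeneousComponent_isHomogeneous M h)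
        rw [Ideal.Quotient.eq_zero_iff_mem.mpr h2, map_zero]
        exact Submodule.zero_mem _
    have e4 := Submodule.finrank_mono e3
    have e5 := finrank_sum_le Wm hWm (σ + 1)
    omega
  exact absurd (hlow i hiN g hg hgI) (not_lt.mpr hup)

theorem finrank_hom (n s : ℕ) :
    Module.finrank K (homogeneousSubmodule (Fin (n + 1)) K s) = (n + s).choose n := by
  classical
  rw [homogeneousSubmodule_eq_finsupp_supported]
  rw [LinearEquiv.finrank_eq (AddMonoidAlgebra.supportedEquivFinsupp (S := K) (R := K)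
    {d : Fin (n + 1) →₀ ℕ | d.degree = s})]
  have hset : {d : Fin (n + 1) →₀ ℕ | d.degree = s} =
      ((Finset.univ : Finset (Fin (n + 1))).finsuppAntidiag s : Set (Fin (n + 1) →₀ ℕ)) := by
    ext d
    simp [Finset.mem_finsuppAntidiag, Finsupp.degree_eq_sum]
  have hfin : Finite {d : Fin (n + 1) →₀ ℕ | d.degree = s} := by
    rw [hset]; exact Finset.finite_toSet _
  have := Fintype.ofFinite {d : Fin (n + 1) →₀ ℕ | d.degree = s}
  rw [Module.finrank_finsupp_self, ← Nat.card_eq_fintype_card, Nat.card_coe_set_eq, hset,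
    Set.ncard_coe_finset, Finset.card_finsuppAntidiag_nat_eq_choose]
  simp only [Finset.card_univ, Fintype.card_fin]
  rw [show n + 1 + s - 1 = n + s by omega]
  exact (Nat.choose_symm_of_eq_add rfl).symm ▸ rfl

/-- the case of a generator of large degree -/
lemma inj_of_large [Infinite K] {f : Fin n → MvPolynomial (Fin n) K} {d : Fin n → ℕ}
    (hf : ∀ i, (f i).IsHomogeneous (d i)) (hd : ∀ i, 1 ≤ d i) (hreg : Reg f) {N : ℕ} {t : Fin n}
    (ht : N < d t) :
    ∃ q : Fin n → K, ∀ i k : ℕ, i + k ≤ N → ∀ g : MvPolynomial (Fin n) K, g.IsHomogeneous i →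
      lin q ^ k * g ∈ Ideal.span (Set.range f) → g ∈ Ideal.span (Set.range f) := by
  have hnz := reg_drop hf hd hreg t
  obtain ⟨q, hq⟩ := exists_lin_nzd (hf t) (hd t) hnz
  set J := Ideal.span (f '' {j | j ≠ t}) with hJ
  have hJh : Homog J := homog_span (by rintro _ ⟨j, _, rfl⟩; exact ⟨d j, hf j⟩)
  have hIJ : Ideal.span (Set.range f) = J ⊔ Ideal.span {f t} := by
    rw [hJ, ← Ideal.span_union]
    congr 1
    rw [← Set.image_singleton, ← Set.image_union, ← Set.image_univ]
    congr 1
    ext j
    simp only [Set.mem_univ, Set.mem_union, Set.mem_ofPred_eq, Set.mem_singleton_iff, true_iff]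
    tauto
  refine ⟨q, fun i k hik g hg h => ?_⟩
  have hhom : (lin q ^ k * g).IsHomogeneous (k + i) := by
    have := ((lin_homog q).pow k).mul hg
    rwa [one_mul] at this
  rw [hIJ] at h ⊢
  rcases sup_comp' hJh (hf t) hhom h with ⟨h3, _⟩ | h3
  · omega
  · apply Ideal.mem_sup_left
    clear h hhom hik
    induction k with
    | zero => rwa [pow_zero, one_mul] at h3
    | succ k ih =>
      apply ih
      apply hq
      rwa [← mul_assoc, ← pow_succ']

/-- Lefschetz maps of complete intersections with `r` reducible generators, injectivity -/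
theorem red_inj [CharZero K] (hn : 1 ≤ n) {f : Fin n → MvPolynomial (Fin n) K} {d : Fin n → ℕ}
    (hf : ∀ i, (f i).IsHomogeneous (d i)) (hd : ∀ i, 1 ≤ d i) (hreg : Reg f)
    {R : Finset (Fin n)} (hred : ∀ i ∈ R, ∃ (g h : MvPolynomial (Fin n) K) (a b : ℕ), 1 ≤ a ∧
      1 ≤ b ∧ g.IsHomogeneous a ∧ h.IsHomogeneous b ∧ f i = g * h) {N B : ℕ} (hB1 : 1 ≤ B)
    (hB : ∀ M < N, Module.finrank K (homogeneousSubmodule (Fin n) K M) ≤ B)
    (hnum : 1 ≤ N → n * N * B * 2 ^ (N - 1) < 2 ^ R.card) :
    ∃ q : Fin n → K, ∀ i k : ℕ, i + k ≤ N → ∀ g : MvPolynomial (Fin n) K, g.IsHomogeneous i →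
      lin q ^ k * g ∈ Ideal.span (Set.range f) → g ∈ Ideal.span (Set.range f) := by
  classical
  by_cases hall : ∀ i, d i ≤ N
  swap
  · push Not at hall
    obtain ⟨t, ht⟩ := hall
    exact inj_of_large hf hd hreg ht
  have hsd := isSocleDegree_ci f d hf hd hreg
  set σ := ∑ i, (d i - 1) with hσ
  have hσn : 1 ≤ N → σ + 1 ≤ n * N := by
    intro hN
    have h3 : σ ≤ n * (N - 1) := by
      rw [hσ]
      calc ∑ i, (d i - 1) ≤ ∑ _i : Fin n, (N - 1) :=
            Finset.sum_le_sum fun i _ => by have := hall i; omega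
        _ = n * (N - 1) := by simp
    have h4 : n * N = n * (N - 1) + n := by
      conv_lhs => rw [show N = (N - 1) + 1 by omega]
      ring
    omega
  obtain ⟨q, hq⟩ := main_len (σ := σ) (N := N) (B := B) hsd.2
    (fun M hM => le_trans (Submodule.finrank_map_le _ _) (hB M hM)) (by
      intro i hi g hg hgI
      have h1 := red_len R.card f d hf hd (sreg_of_reg hf hd hreg) R rfl hred i g hg hgI
      refine lt_of_lt_of_le ?_ h1
      have h2 := hnum (by omega)
      have h3 : σ + 1 ≤ n * N := hσn (by omega)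
      have h4 : (σ + 1) * B * 2 ^ (N - 1) < 2 ^ R.card :=
        lt_of_le_of_lt (Nat.mul_le_mul_right _ (Nat.mul_le_mul_right _ h3)) h2
      have h5 : N - 1 ≤ R.card := by
        by_contra hcon
        push Not at hcon
        have h6 : 2 ^ R.card ≤ 2 ^ (N - 1) := Nat.pow_le_pow_right (by norm_num) (by omega)
        have h7 : 0 < (σ + 1) * B := Nat.mul_pos (Nat.succ_pos _) hB1
        have h8 : 2 ^ (N - 1) ≤ (σ + 1) * B * 2 ^ (N - 1) := Nat.le_mul_of_pos_left _ h7
        omega
      have h6 : 2 ^ R.card = 2 ^ (R.card - (N - 1)) * 2 ^ (N - 1) := by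
        rw [← pow_add]; congr 1; omega
      rw [h6] at h4
      have h7 : (σ + 1) * B < 2 ^ (R.card - (N - 1)) := lt_of_mul_lt_mul_right h4 (Nat.zero_le _)
      refine lt_of_lt_of_le h7 (Nat.pow_le_pow_right (by norm_num) (by omega)))
  refine ⟨q, fun i k hik g hg h => hq i (by omega) g hg ?_⟩
  have h3 : lin q ^ (N - i) * g = lin q ^ (N - i - k) * (lin q ^ k * g) := by
    rw [← mul_assoc, ← pow_add, show N - i - k + k = N - i by omega]
  rw [h3]
  exact Ideal.mul_mem_left _ _ h

end TH130CI
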