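import Pool.Agent.TH130.CI.Win

/-!
Homogeneous regular sequences: dropping one element, and linear nonzerodivisors.
-/

open MvPolynomial
open Pool.Agent.W515.SLP (lin)
open H503R3.QCI (Homog comp_mul comp_mul_of_lt NZD Reg homog_span)

namespace TH130CI

variable {K : Type*} [Field K] {n : ℕ}

lemma homog_sup_span {I : Ideal (MvPolynomial (Fin n) K)} (hI : Homog I)
    {a : MvPolynomial (Fin n) K} {d : ℕ} (ha : a.IsHomogeneous d) :
    Homog (I ⊔ Ideal.span {a}) := by
  intro p hp k
  obtain ⟨u, hu, v, hv, rfl⟩ := Submodule.mem_sup.mp hp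
  rw [map_add]
  refine Ideal.add_mem _ (Ideal.mem_sup_left (hI u hu k)) (Ideal.mem_sup_right ?_)
  exact homog_span (s := {a}) (by rintro x rfl; exact ⟨d, ha⟩) v hv k

/-- the homogeneous test for nonzerodivisors -/
lemma nzd_of_homog {I : Ideal (MvPolynomial (Fin n) K)} (hI : Homog I)
    {b : MvPolynomial (Fin n) K} {e : ℕ} (hb : b.IsHomogeneous e)
    (h : ∀ m, ∀ g : MvPolynomial (Fin n) K, g.IsHomogeneous m → b * g ∈ I → g ∈ I) : NZD I b := by
  intro g hg
  rw [← sum_homogeneousComponent g]
  refine Ideal.sum_mem _ fun m _ => ?_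
  apply h m _ (homogeneousComponent_isHomogeneous _ _)
  rw [← comp_mul hb]
  exact hI _ hg _

/-- a homogeneous element of `I + (a)` -/
lemma sup_comp' {I : Ideal (MvPolynomial (Fin n) K)} (hI : Homog I) {a : MvPolynomial (Fin n) K}
    {d m : ℕ} (ha : a.IsHomogeneous d) {h : MvPolynomial (Fin n) K} (hh : h.IsHomogeneous m)
    (hmem : h ∈ I ⊔ Ideal.span {a}) :
    (d ≤ m ∧ ∃ b : MvPolynomial (Fin n) K, b.IsHomogeneous (m - d) ∧ h - a * b ∈ I) ∨ h ∈ I := by
  obtain ⟨u, hu, c, hc, rfl⟩ := Submodule.mem_sup.mp hmem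
  obtain ⟨b, rfl⟩ := Ideal.mem_span_singleton'.mp hc
  have h1 : homogeneousComponent m (u + b * a) = u + b * a := by
    rw [homogeneousComponent_of_mem hh, if_pos rfl]
  rcases le_or_gt d m with hdm | hdm
  · left
    refine ⟨hdm, homogeneousComponent (m - d) b, homogeneousComponent_isHomogeneous _ _, ?_⟩
    have h2 : homogeneousComponent m (a * b) = a * homogeneousComponent (m - d) b := by
      have h3 := comp_mul (v := b) (k := m - d) ha
      rwa [show d + (m - d) = m by omega] at h3
    have h4 : u + b * a - a * homogeneousComponent (m - d) b = homogeneousComponent m u := by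
      rw [← h2]
      conv_lhs => rw [← h1]
      rw [map_add, mul_comm b, add_sub_cancel_right]
    rw [h4]
    exact hI u hu m
  · right
    have h2 : homogeneousComponent m (a * b) = 0 := comp_mul_of_lt ha hdm
    rw [← h1, map_add, mul_comm b, h2, add_zero]
    exact hI u hu m

/-- swapping two consecutive elements of a homogeneous regular sequence -/
lemma swap_nzd {I : Ideal (MvPolynomial (Fin n) K)} (hI : Homog I) {a b : MvPolynomial (Fin n) K}
    {da db : ℕ} (ha : a.IsHomogeneous da) (hda : 1 ≤ da) (hb : b.IsHomogeneous db)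
    (na : NZD I a) (nb : NZD (I ⊔ Ideal.span {a}) b) : NZD (I ⊔ Ideal.span {b}) a := by
  have h1 : NZD I b := by
    apply nzd_of_homog hI hb
    intro m
    induction m using Nat.strong_induction_on with
    | _ m ih =>
      intro g hg hbg
      have h2 : g ∈ I ⊔ Ideal.span {a} := nb g (Ideal.mem_sup_left hbg)
      rcases sup_comp' hI ha hg h2 with ⟨hdm, c, hc, hgc⟩ | h3
      · have h4 : b * c ∈ I := by
          apply na
          have h5 : a * (b * c) = b * g - b * (g - a * c) := by ring
          rw [h5]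
          exact I.sub_mem hbg (I.mul_mem_left _ hgc)
        have h6 := ih (m - da) (by omega) c hc h4
        have h7 : g = (g - a * c) + a * c := by ring
        rw [h7]
        exact I.add_mem hgc (I.mul_mem_left _ h6)
      · exact h3
  intro g hg
  obtain ⟨u, hu, c, hc, hgc⟩ := Submodule.mem_sup.mp hg
  obtain ⟨v, rfl⟩ := Ideal.mem_span_singleton'.mp hc
  have h2 : v ∈ I ⊔ Ideal.span {a} := by
    apply nb
    have h3 : b * v = a * g - u := by rw [← hgc]; ring
    rw [h3]
    exact Ideal.sub_mem _ (Ideal.mem_sup_right (Ideal.mul_mem_right _ _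
      (Ideal.mem_span_singleton_self a))) (Ideal.mem_sup_left hu)
  obtain ⟨u', hu', c', hc', hv⟩ := Submodule.mem_sup.mp h2
  obtain ⟨v', rfl⟩ := Ideal.mem_span_singleton'.mp hc'
  have h3 : g - b * v' ∈ I := by
    apply na
    have h4 : a * (g - b * v') = u + u' * b := by
      have : a * g = u + v * b := hgc.symm
      rw [mul_sub, this, ← hv]; ring
    rw [h4]
    exact I.add_mem hu (I.mul_mem_right _ hu')
  have h5 : g = (g - b * v') + b * v' := by ring
  rw [h5]
  exact Ideal.add_mem _ (Ideal.mem_sup_left h3) (Ideal.mem_sup_right (Ideal.mul_mem_right _ _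
    (Ideal.mem_span_singleton_self b)))

/-- every element of a homogeneous regular sequence is a nonzerodivisor modulo the others -/
theorem reg_drop {m : ℕ} {f : Fin m → MvPolynomial (Fin n) K} {d : Fin m → ℕ}
    (hf : ∀ i, (f i).IsHomogeneous (d i)) (hd : ∀ i, 1 ≤ d i) (hreg : Reg f) (t : Fin m) :
    NZD (Ideal.span (f '' {j | j ≠ t})) (f t) := by
  have key : ∀ p, t.1 + 1 + p ≤ m →
      NZD (Ideal.span (f '' {j | j.1 < t.1 + 1 + p ∧ j ≠ t})) (f t) := by
    intro p
    induction p with
    | zero =>
      intro _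
      have h1 : {j : Fin m | j.1 < t.1 + 1 + 0 ∧ j ≠ t} = {j | j < t} := by
        ext j
        simp only [Set.mem_ofPred_eq, Fin.lt_def, Ne, Fin.ext_iff]
        omega
      rw [h1]
      exact hreg t
    | succ p ih =>
      intro hp
      have ih' := ih (by omega)
      set s : Fin m := ⟨t.1 + 1 + p, by omega⟩ with hs
      set I := Ideal.span (f '' {j | j.1 < t.1 + 1 + p ∧ j ≠ t}) with hI
      have e1 : Ideal.span (f '' {j | j.1 < t.1 + 1 + (p + 1) ∧ j ≠ t}) = I ⊔ Ideal.span {f s} := by
        rw [hI, ← Ideal.span_union]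
        congr 1
        rw [← Set.image_singleton, ← Set.image_union]
        congr 1
        ext j
        simp only [Set.mem_ofPred_eq, Set.mem_union, Set.mem_singleton_iff, Ne, Fin.ext_iff, hs]
        omega
      have e2 : Ideal.span (f '' {j | j < s}) = I ⊔ Ideal.span {f t} := by
        rw [hI, ← Ideal.span_union]
        congr 1
        rw [← Set.image_singleton, ← Set.image_union]
        congr 1
        ext j
        simp only [Set.mem_ofPred_eq, Set.mem_union, Set.mem_singleton_iff, Ne, Fin.ext_iff,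
          Fin.lt_def, hs]
        omega
      rw [e1]
      have hIh : Homog I := homog_span (by
        rintro _ ⟨j, _, rfl⟩
        exact ⟨d j, hf j⟩)
      exact swap_nzd hIh (hf t) (hd t) (hf s) ih' (e2 ▸ hreg s)
  have h1 := key (m - (t.1 + 1)) (by have := t.2; omega)
  have h2 : {j : Fin m | j.1 < t.1 + 1 + (m - (t.1 + 1)) ∧ j ≠ t} = {j | j ≠ t} := by
    ext j
    have := j.2
    have := t.2
    simp only [Set.mem_ofPred_eq]
    constructor
    · exact fun h => h.2
    · exact fun h => ⟨by omega, h⟩
  rwa [h2] at h1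

/-- existence of a linear nonzerodivisor -/
theorem exists_lin_nzd [Infinite K] {J : Ideal (MvPolynomial (Fin n) K)}
    {f : MvPolynomial (Fin n) K} {d : ℕ} (hf : f.IsHomogeneous d) (hd : 1 ≤ d) (hnz : NZD J f) :
    ∃ q : Fin n → K, NZD J (lin q) := by
  classical
  have hfin := associatedPrimes.finite (MvPolynomial (Fin n) K) (MvPolynomial (Fin n) K ⧸ J)
  have hun := biUnion_associatedPrimes_eq_zero_divisors (MvPolynomial (Fin n) K)
    (MvPolynomial (Fin n) K ⧸ J)
  -- the bad subspaces
  let L : (Fin n → K) →ₗ[K] MvPolynomial (Fin n) K :=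
    { toFun := fun q => lin q
      map_add' := by
        intro a b
        simp only [lin, Pi.add_apply, map_add, add_mul, Finset.sum_add_distrib]
      map_smul' := by
        intro a b
        simp only [lin, Pi.smul_apply, smul_eq_mul, map_mul, RingHom.id_apply, Finset.smul_sum,
          smul_eq_C_mul, mul_assoc] }
  let Vp : Ideal (MvPolynomial (Fin n) K) → Submodule K (Fin n → K) :=
    fun p => (p.restrictScalars K).comap L
  let s : Finset (Submodule K (Fin n → K)) := hfin.toFinset.image Vp
  have hs : (⊤ : Submodule K (Fin n → K)) ∉ s := by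
    intro htop
    obtain ⟨p, hp, hpt⟩ := Finset.mem_image.mp htop
    rw [Set.Finite.mem_toFinset] at hp
    have hX : ∀ i, (X i : MvPolynomial (Fin n) K) ∈ p := by
      intro i
      have h1 : (Pi.single i 1 : Fin n → K) ∈ Vp p := by rw [hpt]; exact Submodule.mem_top
      have h2 : (lin (Pi.single i 1 : Fin n → K) : MvPolynomial (Fin n) K) ∈ p := h1
      have h3 : (lin (Pi.single i 1 : Fin n → K) : MvPolynomial (Fin n) K) = X i := by
        rw [lin, Finset.sum_eq_single i]
        · rw [Pi.single_eq_same, map_one, one_mul]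
        · intro j _ hj
          rw [Pi.single_eq_of_ne hj, map_zero, zero_mul]
        · intro h; exact absurd (Finset.mem_univ i) h
      rwa [h3] at h2
    have hfp : f ∈ p := by
      rw [f.as_sum]
      refine p.sum_mem fun a ha => ?_
      have hadeg : a.degree = d := by
        by_contra hne
        exact (mem_support_iff.1 ha) (hf.coeff_eq_zero hne)
      have hane : a ≠ 0 := by rintro rfl; simp at hadeg; omega
      obtain ⟨i, hi⟩ := Finsupp.ne_iff.mp hane
      rw [Finsupp.coe_zero, Pi.zero_apply] at hi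
      have hle1 : Finsupp.single i 1 ≤ a := by
        rw [Finsupp.single_le_iff]; omega
      have h4 : monomial a (coeff a f) = monomial (a - Finsupp.single i 1) (coeff a f) * X i := by
        rw [X, monomial_mul, mul_one, tsub_add_cancel_of_le hle1]
      rw [h4]
      exact p.mul_mem_left _ (hX i)
    have h1 : f ∈ ⋃ p ∈ associatedPrimes (MvPolynomial (Fin n) K) (MvPolynomial (Fin n) K ⧸ J),
        (p : Set (MvPolynomial (Fin n) K)) := Set.mem_biUnion hp hfp
    rw [hun] at h1
    obtain ⟨x, hx, hfx⟩ := h1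
    obtain ⟨g, rfl⟩ := Ideal.Quotient.mk_surjective x
    apply hx
    rw [Ideal.Quotient.eq_zero_iff_mem]
    apply hnz
    have h2 : Ideal.Quotient.mk J (f * g) = 0 := hfx
    exact Ideal.Quotient.eq_zero_iff_mem.mp h2
  have hne := Subspace.biUnion_ne_univ_of_top_notMem hs
  obtain ⟨q, hq⟩ := (Set.ne_univ_iff_exists_notMem _).mp hne
  refine ⟨q, ?_⟩
  intro g hg
  by_contra hgJ
  have h1 : (lin q : MvPolynomial (Fin n) K) ∈
      {r : MvPolynomial (Fin n) K | ∃ x : MvPolynomial (Fin n) K ⧸ J, x ≠ 0 ∧ r • x = 0} := by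
    refine ⟨Ideal.Quotient.mk J g, ?_, ?_⟩
    · rwa [Ne, Ideal.Quotient.eq_zero_iff_mem]
    · have h2 : Ideal.Quotient.mk J (lin q * g) = 0 := Ideal.Quotient.eq_zero_iff_mem.mpr hg
      exact h2
  rw [← hun] at h1
  obtain ⟨p, hp, hqp⟩ := Set.mem_iUnion₂.mp h1
  apply hq
  refine Set.mem_biUnion (x := Vp p) ?_ ?_
  · exact Finset.mem_coe.mpr (Finset.mem_image.mpr ⟨p, (Set.Finite.mem_toFinset _).mpr hp, rfl⟩)
  · exact hqp

end TH130CI
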