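import Pool.Agent.TH130.CI.Red

/-!
Complete intersections whose generators have several factors: lower bounds for the length of a
principal ideal in terms of the numbers of factors.
-/

open MvPolynomial
open Pool.Agent.W515.SLP (AnnP Deg annP_zero annP_of_gt annP_of_homog lin)
open H503R3.QCI (Homog comp_mul comp_mul_of_lt NZD Reg homog_span isSocleDegree_ci gr mem_gr HS_ci
  HS cip)

namespace TH130CI

variable {K : Type*} [Field K] {n : ℕ}

/-- the length of the principal ideal generated by `w` in `S / I` -/
noncomputable def Ln (I : Ideal (MvPolynomial (Fin n) K)) (w : MvPolynomial (Fin n) K) : ℕ :=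
  Module.finrank K (MvPolynomial (Fin n) K ⧸ colI I w)

lemma telescope {I : Ideal (MvPolynomial (Fin n) K)}
    (hfin : Module.Finite K (MvPolynomial (Fin n) K ⧸ I)) {ι : Type*} [DecidableEq ι]
    (g : ι → MvPolynomial (Fin n) K) (T : Finset ι) : ∀ w : MvPolynomial (Fin n) K,
    w * ∏ j ∈ T, g j ∈ I → ∑ j ∈ T, Ln I (w * ∏ l ∈ T.erase j, g l) ≤ Ln I w := by
  induction T using Finset.induction_on with
  | empty => intro w _; simp
  | insert a T ha ih =>
    intro w hw
    have hfinw : Module.Finite K (MvPolynomial (Fin n) K ⧸ colI I w) :=
      finite_of_le (le_colI _ _) hfin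
    rw [Finset.prod_insert ha] at hw
    have h1 := ih (w * g a) (by rwa [mul_assoc])
    have h3 := finrank_colon (I := colI I w) (I1 := colI I (w * g a)) (x := g a) (fun x => by
      rw [mem_colI, mem_colI, mul_assoc]) hfinw
    have h4 : colI I w ⊔ Ideal.span {g a} ≤ colI I (w * ∏ j ∈ T, g j) := by
      rw [sup_le_iff]
      constructor
      · intro x hx
        rw [mem_colI] at hx ⊢
        have : w * (∏ j ∈ T, g j) * x = (∏ j ∈ T, g j) * (w * x) := by ring
        rw [this]
        exact I.mul_mem_left _ hx
      · rw [Ideal.span_singleton_le_iff_mem, mem_colI, mul_assoc, mul_comm _ (g a)]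
        exact hw
    have h5 := finrank_le_of_le h4 (finite_of_le le_sup_left hfinw)
    rw [Finset.sum_insert ha, Finset.erase_insert ha]
    have h6 : ∑ j ∈ T, Ln I (w * ∏ l ∈ (insert a T).erase j, g l) =
        ∑ j ∈ T, Ln I (w * g a * ∏ l ∈ T.erase j, g l) := by
      refine Finset.sum_congr rfl fun j hj => ?_
      have h7 : (insert a T).erase j = insert a (T.erase j) := by
        rw [Finset.erase_insert_of_ne]
        rintro rfl
        exact ha hj
      rw [h7, Finset.prod_insert (fun h => ha (Finset.mem_of_mem_erase h)), mul_assoc]
    rw [h6]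
    have h8 : Ln I (w * ∏ j ∈ T, g j) ≤
        Module.finrank K (MvPolynomial (Fin n) K ⧸ (colI I w ⊔ Ideal.span {g a})) := h5
    have h9 : Ln I (w * g a) +
        Module.finrank K (MvPolynomial (Fin n) K ⧸ (colI I w ⊔ Ideal.span {g a})) = Ln I w := h3
    omega

/-- **Generators with several factors.**  If the generator `f_t` of an Artinian complete
intersection `A` is a product of `k_t ≥ 1` forms of positive degree, then for every homogeneous
`w ≠ 0` of `A` there are `0 ≤ u_t < k_t` with `∑ u_t ≤ deg w` and `dim (w A) ≥ ∏ (k_t - u_t)`. -/
theorem fac_len (c : ℕ) : ∀ (f : Fin n → MvPolynomial (Fin n) K) (k : Fin n → ℕ)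
    (g : (t : Fin n) → Fin (k t) → MvPolynomial (Fin n) K) (e : (t : Fin n) → Fin (k t) → ℕ),
    (∀ t, 1 ≤ k t) → (∀ t j, 1 ≤ e t j) → (∀ t j, (g t j).IsHomogeneous (e t j)) →
    (∀ t, f t = ∏ j, g t j) → SRegOn Finset.univ f →
    (Finset.univ.filter fun t => k t ≠ 1).card = c →
    ∀ (i : ℕ) (w : MvPolynomial (Fin n) K), w.IsHomogeneous i → w ∉ Ideal.span (Set.range f) →
      ∃ u : Fin n → ℕ, (∀ t, u t < k t) ∧ ∑ t, u t ≤ i ∧
        ∏ t, (k t - u t) ≤ Ln (Ideal.span (Set.range f)) w := by
  classical
  induction c with
  | zero =>
    intro f k g e hk he hg hfg hreg hc i w _ hwI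
    rw [Finset.card_eq_zero, Finset.filter_eq_empty_iff] at hc
    have hk1 : ∀ t, k t = 1 := fun t => by
      have := hc (Finset.mem_univ t)
      push Not at this
      exact this
    have hf : ∀ t, (f t).IsHomogeneous (∑ j, e t j) := by
      intro t
      rw [hfg t]
      exact IsHomogeneous.prod _ _ _ fun j _ => hg t j
    have hd : ∀ t, 1 ≤ ∑ j, e t j := by
      intro t
      have h1 : k t ≤ ∑ j, e t j := by
        calc k t = ∑ _j : Fin (k t), 1 := by simp
          _ ≤ _ := Finset.sum_le_sum fun j _ => he t j
      exact le_trans (hk t) h1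
    have hfin : Module.Finite K (MvPolynomial (Fin n) K ⧸ Ideal.span (Set.range f)) :=
      finite_of_top (isSocleDegree_ci f _ hf hd (reg_of_sreg hreg)).2
    refine ⟨fun _ => 0, fun t => hk t, by simp, ?_⟩
    simp only [hk1, Nat.sub_zero, Finset.prod_const_one]
    refine finrank_pos_of_notMem (finite_of_le (le_colI _ _) hfin) (g := 1) ?_
    rwa [mem_colI, mul_one]
  | succ c ih =>
    intro f k g e hk he hg hfg hreg hc i w hw hwI
    obtain ⟨t, ht⟩ : (Finset.univ.filter fun t => k t ≠ 1).Nonempty := by
      rw [← Finset.card_pos]; omega
    have hf : ∀ t, (f t).IsHomogeneous (∑ j, e t j) := by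
      intro t
      rw [hfg t]
      exact IsHomogeneous.prod _ _ _ fun j _ => hg t j
    have hd : ∀ t, 1 ≤ ∑ j, e t j := by
      intro t
      have h1 : k t ≤ ∑ j, e t j := by
        calc k t = ∑ _j : Fin (k t), 1 := by simp
          _ ≤ _ := Finset.sum_le_sum fun j _ => he t j
      exact le_trans (hk t) h1
    have hfin : Module.Finite K (MvPolynomial (Fin n) K ⧸ Ideal.span (Set.range f)) :=
      finite_of_top (isSocleDegree_ci f _ hf hd (reg_of_sreg hreg)).2
    set I := Ideal.span (Set.range f) with hIdef
    set P := Ideal.span (f '' ((Finset.univ.erase t : Finset (Fin n)) : Set (Fin n))) with hP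
    have hPh : Homog P := homog_image hf _
    have na : NZD P (f t) := hreg _ (Finset.subset_univ _) t (Finset.mem_univ t)
      (Finset.notMem_erase t _)
    -- a minimal set of factors killing `w`
    have hex : ∃ T : Finset (Fin (k t)), w * ∏ j ∈ T, g t j ∈ I := by
      refine ⟨Finset.univ, ?_⟩
      rw [← hfg t]
      exact I.mul_mem_left _ (Ideal.subset_span ⟨t, rfl⟩)
    obtain ⟨T, hT, hTmin⟩ : ∃ T : Finset (Fin (k t)), w * ∏ j ∈ T, g t j ∈ I ∧
        ∀ T' ⊂ T, w * ∏ j ∈ T', g t j ∉ I := by
      obtain ⟨T0, hT0⟩ := hex
      induction T0 using Finset.strongInduction with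
      | H T0 ihT =>
        by_cases h : ∃ T' ⊂ T0, w * ∏ j ∈ T', g t j ∈ I
        · obtain ⟨T', hT', hwT'⟩ := h
          exact ihT T' hT' hwT'
        · push Not at h
          exact ⟨T0, hT0, h⟩
    have hTne : T.Nonempty := by
      rw [Finset.nonempty_iff_ne_empty]
      rintro rfl
      apply hwI
      rwa [Finset.prod_empty, mul_one] at hT
    -- the bound for one factor
    have key : ∀ j ∈ T, ∃ u : Fin n → ℕ, (∀ s, u s < k s) ∧ u t = 0 ∧
        ∑ s, u s + (k t - T.card) ≤ i ∧
        ∏ s ∈ Finset.univ.erase t, (k s - u s) ≤ Ln I (w * ∏ l ∈ T.erase j, g t l) := by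
      intro j hj
      have hv : w * ∏ l ∈ T.erase j, g t l ∉ I := hTmin _ (Finset.erase_ssubset hj)
      have hvg : w * (∏ l ∈ T.erase j, g t l) * g t j ∈ I := by
        rw [mul_assoc, mul_comm _ (g t j), Finset.mul_prod_erase _ _ hj]
        exact hT
      have hco : f t = (∏ l ∈ Finset.univ.erase j, g t l) * g t j := by
        rw [hfg t, mul_comm, Finset.mul_prod_erase _ _ (Finset.mem_univ j)]
      have hgn : NZD P (∏ l ∈ Finset.univ.erase j, g t l) := nzd_factor (hco ▸ na)
      have hhn : NZD P (g t j) :=
        nzd_factor (g := g t j) (h := ∏ l ∈ Finset.univ.erase j, g t l)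
          (by rw [mul_comm]; exact hco ▸ na)
      have hI : I = P ⊔ Ideal.span {(∏ l ∈ Finset.univ.erase j, g t l) * g t j} := by
        rw [hIdef, range_eq_sup f t, hco]
      have hcoh : (∏ l ∈ Finset.univ.erase j, g t l).IsHomogeneous
          (∑ l ∈ Finset.univ.erase j, e t l) := IsHomogeneous.prod _ _ _ fun l _ => hg t l
      have hvh : (w * ∏ l ∈ T.erase j, g t l).IsHomogeneous (i + ∑ l ∈ T.erase j, e t l) :=
        hw.mul (IsHomogeneous.prod _ _ _ fun l _ => hg t l)
      obtain ⟨hle, y, hy, hyI, hcol⟩ := factor_colon hPh hcoh hgn hhn hvh (by rwa [← hI])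
        (by rwa [← hI])
      rw [← hI] at hcol
      -- the smaller complete intersection
      let k' : Fin n → ℕ := Function.update k t 1
      let f' : Fin n → MvPolynomial (Fin n) K := Function.update f t (g t j)
      let g' : (s : Fin n) → Fin (k' s) → MvPolynomial (Fin n) K := fun s l =>
        if hs : s = t then g t j else g s (Fin.cast (by simp [k', Function.update_of_ne hs]) l)
      let e' : (s : Fin n) → Fin (k' s) → ℕ := fun s l =>
        if hs : s = t then e t j else e s (Fin.cast (by simp [k', Function.update_of_ne hs]) l)
      have hI' : Ideal.span (Set.range f') = P ⊔ Ideal.span {g t j} := by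
        rw [range_eq_sup _ t]
        simp only [f', Function.update_self]
        congr 2
        apply Set.image_congr
        intro s hs
        rw [Function.update_of_ne]
        rintro rfl
        simp at hs
      have h1 := ih f' k' g' e' (by
          intro s
          by_cases hs : s = t
          · subst hs; simp [k']
          · simp only [k', Function.update_of_ne hs]; exact hk s)
        (by
          intro s l
          by_cases hs : s = t
          · simp only [e', dif_pos hs]; exact he t j
          · simp only [e', dif_neg hs]; exact he s _)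
        (by
          intro s l
          by_cases hs : s = t
          · simp only [e', g', dif_pos hs]; exact hg t j
          · simp only [e', g', dif_neg hs]; exact hg s _)
        (by
          intro s
          by_cases hs : s = t
          · subst hs
            simp [f', g', k']
          · simp only [f', Function.update_of_ne hs, g', dif_neg hs]
            rw [hfg s]
            have hks : k' s = k s := by simp [k', Function.update_of_ne hs]
            exact (Fintype.prod_equiv (finCongr hks) _ _ (fun l => rfl)).symm)
        (sreg_update hf hd hreg t (hg t j) hhn) (by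
          have h2 : (Finset.univ.filter fun s => k' s ≠ 1) =
              (Finset.univ.filter fun s => k s ≠ 1).erase t := by
            ext s
            simp only [Finset.mem_filter, Finset.mem_univ, true_and, Finset.mem_erase, k']
            by_cases hs : s = t
            · subst hs; simp
            · rw [Function.update_of_ne hs]; tauto
          rw [h2, Finset.card_erase_of_mem ht]
          omega) _ y hy (by rwa [hI'])
      rw [hI'] at h1
      obtain ⟨u, hu1, hu2, hu3⟩ := h1
      have hut : u t = 0 := by
        have := hu1 t
        simp only [k', Function.update_self] at this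
        omega
      refine ⟨u, ?_, hut, ?_, ?_⟩
      · intro s
        by_cases hs : s = t
        · subst hs
          rw [hut]
          exact hk s
        · have := hu1 s
          simpa only [k', Function.update_of_ne hs] using this
      · -- the degree count
        have h3 : ∑ l ∈ Finset.univ.erase j, e t l =
            ∑ l ∈ T.erase j, e t l + ∑ l ∈ Finset.univ \ T, e t l := by
          rw [← Finset.sum_union]
          · congr 1
            ext l
            simp only [Finset.mem_erase, Finset.mem_univ, Finset.mem_union, Finset.mem_sdiff,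
              and_true, true_and]
            by_cases hl : l = j
            · subst hl; simp [hj]
            · tauto
          · rw [Finset.disjoint_left]
            intro l hl1 hl2
            rw [Finset.mem_sdiff] at hl2
            exact hl2.2 (Finset.mem_of_mem_erase hl1)
        have h4 : k t - T.card ≤ ∑ l ∈ Finset.univ \ T, e t l := by
          calc k t - T.card = (Finset.univ \ T).card := by
                rw [Finset.card_sdiff_of_subset (Finset.subset_univ T), Finset.card_univ,
                  Fintype.card_fin]
            _ = ∑ _l ∈ Finset.univ \ T, 1 := by simp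
            _ ≤ _ := Finset.sum_le_sum fun l _ => he t l
        omega
      · have h3 : ∏ s, (k' s - u s) = ∏ s ∈ Finset.univ.erase t, (k s - u s) := by
          rw [← Finset.mul_prod_erase Finset.univ _ (Finset.mem_univ t)]
          simp only [k', Function.update_self]
          rw [hut, Nat.sub_zero, one_mul]
          refine Finset.prod_congr rfl fun s hs => ?_
          rw [Function.update_of_ne (Finset.ne_of_mem_erase hs)]
        rw [h3] at hu3
        have h5 : Ln (P ⊔ Ideal.span {g t j}) y = Ln I (w * ∏ l ∈ T.erase j, g t l) := by
          rw [Ln, Ln, hcol]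
        rwa [h5] at hu3
    -- choose the factor with the smallest length
    obtain ⟨j0, hj0, hmin⟩ := Finset.exists_min_image T
      (fun j => Ln I (w * ∏ l ∈ T.erase j, g t l)) hTne
    obtain ⟨u, hu1, hu2, hu3, hu4⟩ := key j0 hj0
    have htel := telescope hfin (g t) T w hT
    have hcard : T.card ≤ k t := by
      have := Finset.card_le_univ T
      rwa [Fintype.card_fin] at this
    have hcpos : 0 < T.card := Finset.card_pos.mpr hTne
    refine ⟨Function.update u t (k t - T.card), ?_, ?_, ?_⟩
    · intro s
      by_cases hs : s = t
      · subst hs; rw [Function.update_self]; omega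
      · rw [Function.update_of_ne hs]; exact hu1 s
    · rw [← Finset.add_sum_erase Finset.univ _ (Finset.mem_univ t), Function.update_self]
      have h1 : ∑ s ∈ Finset.univ.erase t, Function.update u t (k t - T.card) s =
          ∑ s ∈ Finset.univ.erase t, u s :=
        Finset.sum_congr rfl fun s hs => by rw [Function.update_of_ne (Finset.ne_of_mem_erase hs)]
      have h2 := Finset.add_sum_erase Finset.univ u (Finset.mem_univ t)
      rw [h1]
      omega
    · rw [← Finset.mul_prod_erase Finset.univ _ (Finset.mem_univ t), Function.update_self,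
        show k t - (k t - T.card) = T.card by omega]
      have h1 : ∏ s ∈ Finset.univ.erase t, (k s - Function.update u t (k t - T.card) s) =
          ∏ s ∈ Finset.univ.erase t, (k s - u s) :=
        Finset.prod_congr rfl fun s hs => by rw [Function.update_of_ne (Finset.ne_of_mem_erase hs)]
      rw [h1]
      calc T.card * ∏ s ∈ Finset.univ.erase t, (k s - u s)
          ≤ T.card * Ln I (w * ∏ l ∈ T.erase j0, g t l) := Nat.mul_le_mul_left _ hu4
        _ = ∑ _j ∈ T, Ln I (w * ∏ l ∈ T.erase j0, g t l) := by simp
        _ ≤ ∑ j ∈ T, Ln I (w * ∏ l ∈ T.erase j, g t l) := Finset.sum_le_sum fun j hj => hmin j hj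
        _ ≤ Ln I w := htel

end TH130CI
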