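import Pool.Agent.TH130.CI.Abs
import Pool.Agent.TH130.CI.Red2
import Pool.Agent.TH130.CI.Dep

/-!
Gorenstein algebras containing products of linear forms without common zeros: lower bound for the
length in terms of the socle degree.
-/

open MvPolynomial
open Pool.Agent.W515.SLP (AnnP Deg annP_zero annP_of_gt annP_of_homog lin)
open H503R3.QCI (Homog comp_mul comp_mul_of_lt)

namespace TH130CI

variable {K : Type*} [Field K] {n : ℕ}

lemma pow_aux (a b : ℕ) (h : a ≤ b + 1) : (b + 2) ^ a ≤ (a + 1) * (b + 1) ^ a := by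
  have h1 : (b + 2) ^ a = ∑ k ∈ Finset.range (a + 1), (b + 1) ^ (a - k) * Nat.choose a k := by
    have := add_pow 1 (b + 1) a
    rw [show 1 + (b + 1) = b + 2 by ring] at this
    rw [this]
    refine Finset.sum_congr rfl fun k hk => ?_
    simp
  rw [h1]
  calc ∑ k ∈ Finset.range (a + 1), (b + 1) ^ (a - k) * Nat.choose a k
      ≤ ∑ k ∈ Finset.range (a + 1), (b + 1) ^ a := by
        refine Finset.sum_le_sum fun k hk => ?_
        have hk' : k ≤ a := by have := Finset.mem_range.1 hk; omega
        have h2 : Nat.choose a k ≤ (b + 1) ^ k :=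
          le_trans (Nat.choose_le_pow a k |> fun h => by exact_mod_cast h)
            (Nat.pow_le_pow_left h k)
        calc (b + 1) ^ (a - k) * Nat.choose a k ≤ (b + 1) ^ (a - k) * (b + 1) ^ k :=
              Nat.mul_le_mul_left _ h2
          _ = (b + 1) ^ a := by rw [← pow_add]; congr 1; omega
    _ = (a + 1) * (b + 1) ^ a := by simp

/-- `(b + 1) ^ a ≤ (a + 1) ^ b` for `a ≤ b` -/
lemma pow_swap {a b : ℕ} (h : a ≤ b) : (b + 1) ^ a ≤ (a + 1) ^ b := by
  induction b, h using Nat.le_induction with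
  | base => exact le_rfl
  | succ b hab ih =>
    calc (b + 1 + 1) ^ a ≤ (a + 1) * (b + 1) ^ a := pow_aux a b (by omega)
      _ ≤ (a + 1) * (a + 1) ^ b := Nat.mul_le_mul_left _ ih
      _ = (a + 1) ^ (b + 1) := by rw [pow_succ, mul_comm]

lemma colI_gor (φ : MvPolynomial (Fin n) K →ₗ[K] K) (w : MvPolynomial (Fin n) K) :
    colI (gor φ) w = gor (φ ∘ₗ LinearMap.mulLeft K w) := by
  ext h
  constructor
  · intro hh x
    change φ (w * (h * x)) = 0
    rw [← mul_assoc]
    exact hh x
  · intro hh x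
    have := hh x
    change φ (w * (h * x)) = 0 at this
    rwa [← mul_assoc] at this

lemma deg_comp {φ : MvPolynomial (Fin n) K →ₗ[K] K} {s i : ℕ} (hφ : Deg φ s)
    {w : MvPolynomial (Fin n) K} (hw : w.IsHomogeneous i) :
    Deg (φ ∘ₗ LinearMap.mulLeft K w) (s - i) := by
  intro p hp h hh
  change φ (w * h) = 0
  exact hφ (i + p) (by omega) _ (hw.mul hh)

lemma ne_comp {φ : MvPolynomial (Fin n) K →ₗ[K] K} {s i : ℕ} (hφ : Deg φ s)
    {w : MvPolynomial (Fin n) K} (hw : w.IsHomogeneous i) (hwI : w ∉ gor φ) :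
    i ≤ s ∧ ∃ h : MvPolynomial (Fin n) K, h.IsHomogeneous (s - i) ∧
      h ∉ gor (φ ∘ₗ LinearMap.mulLeft K w) := by
  have his : i ≤ s := by
    by_contra hcon
    exact hwI (annP_of_gt hφ (by omega) hw)
  refine ⟨his, ?_⟩
  by_contra hcon
  push Not at hcon
  apply hwI
  apply annP_of_homog hφ his hw
  intro v hv
  have := hcon v hv 1
  rw [mul_one] at this
  exact this

/-- an ideal containing a linear factor of every element of `G` contains all variables -/
lemma all_lin {G : Set (MvPolynomial (Fin n) K)} (hm : ∀ i, ∃ m, X i ^ m ∈ Ideal.span G)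
    {I : Ideal (MvPolynomial (Fin n) K)}
    (h : ∀ g ∈ G, ∃ (q : Fin n → K) (u : MvPolynomial (Fin n) K), g = lin q * u ∧ lin q ∈ I)
    (i : Fin n) : (X i : MvPolynomial (Fin n) K) ∈ I := by
  classical
  let V : Submodule K (Fin n → K) := (I.restrictScalars K).comap (linL K n)
  obtain ⟨s, hs⟩ := V.mkQ.exists_rightInverse_of_surjective (LinearMap.range_eq_top.mpr
    V.mkQ_surjective)
  let π : (Fin n → K) →ₗ[K] (Fin n → K) := s ∘ₗ V.mkQ
  have hQ : ∀ u, V.mkQ (π u) = V.mkQ u := fun u => LinearMap.congr_fun hs (V.mkQ u)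
  let ρ : MvPolynomial (Fin n) K →ₐ[K] MvPolynomial (Fin n) K :=
    aeval fun j => linL K n (π (Pi.single j 1))
  have hρ : ∀ u, ρ (linL K n u) = linL K n (π u) := by
    intro u
    have h1 : ρ.toLinearMap ∘ₗ linL K n = linL K n ∘ₗ π := by
      apply LinearMap.pi_ext'
      intro j
      apply LinearMap.ext_ring
      change ρ (linL K n (Pi.single j 1)) = linL K n (π (Pi.single j 1))
      rw [linL_single, aeval_X]
    exact LinearMap.congr_fun h1 u
  have hker : ∀ x ∈ Ideal.span G, ρ x = 0 := by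
    intro x hx
    have h1 : Ideal.span G ≤ RingHom.ker ρ := by
      rw [Ideal.span_le]
      intro g hg
      change ρ g = 0
      obtain ⟨q, u, hgu, hq⟩ := h g hg
      have h2 : V.mkQ q = 0 := (Submodule.Quotient.mk_eq_zero V).mpr hq
      have h3 : ρ (lin q) = 0 := by
        have := hρ q
        have h4 : π q = 0 := by
          change s (V.mkQ q) = 0
          rw [h2, map_zero]
        rw [h4, map_zero] at this
        exact this
      rw [hgu, map_mul, h3, zero_mul]
    exact h1 hx
  obtain ⟨m, hmi⟩ := hm i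
  have h1 := hker _ hmi
  rw [map_pow] at h1
  have h2 : ρ (X i) = 0 := eq_zero_of_pow_eq_zero h1
  rw [aeval_X] at h2
  have h3 : π (Pi.single i 1) = 0 := by
    ext j
    rw [← coeff_linL (π (Pi.single i 1)), h2, coeff_zero, Pi.zero_apply]
  have h4 : V.mkQ (Pi.single i 1) = 0 := by
    rw [← hQ, h3, map_zero]
  have h5 : (Pi.single i 1 : Fin n → K) ∈ V := (Submodule.Quotient.mk_eq_zero V).mp h4
  have h6 : linL K n (Pi.single i 1) ∈ I := h5
  rwa [linL_single] at h6

/-- homogeneous elements of positive degree lie in an ideal containing all variables -/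
lemma mem_of_X {I : Ideal (MvPolynomial (Fin n) K)} (h : ∀ i, (X i : MvPolynomial (Fin n) K) ∈ I)
    {s : ℕ} (hs : 1 ≤ s) {g : MvPolynomial (Fin n) K} (hg : g.IsHomogeneous s) : g ∈ I := by
  rw [g.as_sum]
  refine Ideal.sum_mem _ fun a ha => ?_
  have hadeg : a.degree = s := by
    by_contra hne
    exact (mem_support_iff.1 ha) (hg.coeff_eq_zero hne)
  have hane : a ≠ 0 := by rintro rfl; simp at hadeg; omega
  obtain ⟨i, hi⟩ := Finsupp.ne_iff.mp hane
  rw [Finsupp.coe_zero, Pi.zero_apply] at hi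
  have hle1 : Finsupp.single i 1 ≤ a := by
    rw [Finsupp.single_le_iff]; omega
  have h1 : monomial a (coeff a g) = X i * monomial (a - Finsupp.single i 1) (coeff a g) := by
    rw [X, monomial_mul, one_mul, add_comm, tsub_add_cancel_of_le hle1]
  rw [h1]
  exact I.mul_mem_right _ (h i)

lemma prod_lin_homog (Ls : List (Fin n → K)) :
    ((Ls.map fun q => (lin q : MvPolynomial (Fin n) K)).prod).IsHomogeneous Ls.length := by
  induction Ls with
  | nil => exact isHomogeneous_one _ _
  | cons a Ls ih =>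
    rw [List.map_cons, List.prod_cons, List.length_cons, Nat.add_comm]
    exact (lin_homog a).mul ih

lemma lin_prod_homog {t : ℕ} (l : Fin t → Fin n → K) (T : Finset (Fin t)) :
    (∏ j ∈ T, (lin (l j) : MvPolynomial (Fin n) K)).IsHomogeneous T.card := by
  have := IsHomogeneous.prod T (fun j => (lin (l j) : MvPolynomial (Fin n) K)) (fun _ => 1)
    (fun j _ => lin_homog (l j))
  simpa using this

/-- **Length of a Gorenstein algebra containing split forms.**  If the Gorenstein ideal of the
functional `ψ` of degree `s` contains products of at most `δ` linear forms without common zeros,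
then the length `F` of the quotient satisfies `F ^ (δ - 1) ≥ δ ^ s`. -/
theorem split_len {δ : ℕ} (hδ : 2 ≤ δ) {G : Set (MvPolynomial (Fin n) K)}
    (hG : ∀ g ∈ G, ∃ (t : ℕ) (l : Fin t → Fin n → K), t ≤ δ ∧ g = ∏ j, lin (l j))
    (hm : ∀ i, ∃ m, X i ^ m ∈ Ideal.span G) :
    ∀ (s : ℕ) (ψ : MvPolynomial (Fin n) K →ₗ[K] K), Deg ψ s → (∀ g ∈ G, g ∈ gor ψ) →
      (∃ h : MvPolynomial (Fin n) K, h.IsHomogeneous s ∧ h ∉ gor ψ) →
      δ ^ s ≤ (Module.finrank K (MvPolynomial (Fin n) K ⧸ gor ψ)) ^ (δ - 1) := by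
  classical
  intro s
  induction s using Nat.strong_induction_on with
  | _ s ih =>
    intro ψ hψ hGψ hne
    have hfin := gor_finite hψ
    have hpos : 1 ≤ Module.finrank K (MvPolynomial (Fin n) K ⧸ gor ψ) := by
      obtain ⟨h, -, hh⟩ := hne
      exact finrank_pos_of_notMem hfin hh
    rcases Nat.eq_zero_or_pos s with hs | hs
    · subst hs
      rw [pow_zero]
      exact Nat.one_le_pow _ _ hpos
    -- some element of `G` without a linear factor in the ideal
    obtain ⟨g, hgG, hgno⟩ : ∃ g ∈ G, ¬ ∃ (q : Fin n → K) (u : MvPolynomial (Fin n) K),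
        g = lin q * u ∧ lin q ∈ gor ψ := by
      by_contra hcon
      push Not at hcon
      have h1 := all_lin hm (I := gor ψ) (fun g hg => by
        obtain ⟨q, u, h1, h2⟩ := hcon g hg
        exact ⟨q, u, h1, h2⟩)
      obtain ⟨h, hh, hhI⟩ := hne
      exact hhI (mem_of_X h1 hs hh)
    obtain ⟨t, l, htδ, hgl⟩ := hG g hgG
    -- a minimal subproduct in the ideal
    let P : ℕ → Prop := fun c => ∃ T : Finset (Fin t), T.card = c ∧ ∏ j ∈ T, lin (l j) ∈ gor ψ
    have hP : ∃ c, P c := ⟨_, Finset.univ, rfl, by rw [← hgl]; exact hGψ g hgG⟩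
    obtain ⟨T, hTc, hT⟩ := Nat.find_spec hP
    have hmin : ∀ T' : Finset (Fin t), T'.card < T.card → ∏ j ∈ T', lin (l j) ∉ gor ψ := by
      intro T' hT' h1
      rw [hTc] at hT'
      exact Nat.find_min hP hT' ⟨T', rfl, h1⟩
    have hT1 : 1 ≤ T.card := by
      by_contra hcon
      have h0 : T = ∅ := Finset.card_eq_zero.1 (by omega)
      rw [h0, Finset.prod_empty] at hT
      obtain ⟨h, -, hh⟩ := hne
      apply hh
      have := (gor ψ).mul_mem_left h hT
      rwa [mul_one] at this
    have hT2 : 2 ≤ T.card := by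
      by_contra hcon
      obtain ⟨j, hj⟩ := Finset.card_eq_one.1 (show T.card = 1 by omega)
      rw [hj, Finset.prod_singleton] at hT
      apply hgno
      refine ⟨l j, ∏ i ∈ Finset.univ.erase j, lin (l i), ?_, hT⟩
      rw [hgl]
      exact (Finset.mul_prod_erase Finset.univ (fun i => (lin (l i) : MvPolynomial (Fin n) K))
        (Finset.mem_univ j)).symm
    have hTδ : T.card ≤ δ := by
      have := Finset.card_le_univ T
      rw [Fintype.card_fin] at this
      omega
    set a := T.card - 1 with ha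
    -- the quotients
    have hterm : ∀ j ∈ T, a ≤ s ∧ δ ^ (s - a) ≤
        (Ln (gor ψ) (1 * ∏ i ∈ T.erase j, lin (l i))) ^ (δ - 1) := by
      intro j hj
      have hc : (T.erase j).card = a := by rw [Finset.card_erase_of_mem hj]
      have h1 : ∏ i ∈ T.erase j, lin (l i) ∉ gor ψ := hmin _ (by omega)
      have h2 := lin_prod_homog (K := K) l (T.erase j)
      rw [hc] at h2
      obtain ⟨h3, h4⟩ := ne_comp hψ h2 h1
      refine ⟨h3, ?_⟩
      rw [one_mul, Ln, colI_gor]
      refine ih (s - a) (by omega) _ (deg_comp hψ h2) ?_ h4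
      intro g hg
      rw [← colI_gor]
      exact le_colI _ _ (hGψ g hg)
    obtain ⟨j0, hj0⟩ : T.Nonempty := by rw [← Finset.card_pos]; omega
    have has : a ≤ s := (hterm j0 hj0).1
    -- the smallest of the lengths
    obtain ⟨j1, hj1, hj1min⟩ := Finset.exists_min_image T
      (fun j => Ln (gor ψ) (1 * ∏ i ∈ T.erase j, lin (l i))) ⟨j0, hj0⟩
    set F := Ln (gor ψ) (1 * ∏ i ∈ T.erase j1, lin (l i)) with hF
    have htel := telescope hfin (fun j => (lin (l j) : MvPolynomial (Fin n) K)) T 1
      (by rw [one_mul]; exact hT)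
    have h5 : T.card * F ≤ Ln (gor ψ) 1 := by
      refine le_trans ?_ htel
      rw [← smul_eq_mul]
      exact Finset.card_nsmul_le_sum T _ F (fun j hj => hj1min j hj)
    have h6 : Ln (gor ψ) 1 = Module.finrank K (MvPolynomial (Fin n) K ⧸ gor ψ) := by
      have : colI (gor ψ) 1 = gor ψ := by
        ext x
        rw [mem_colI, one_mul]
      rw [Ln, this]
    rw [h6] at h5
    calc δ ^ s = δ ^ a * δ ^ (s - a) := by rw [← pow_add]; congr 1; omega
      _ ≤ T.card ^ (δ - 1) * F ^ (δ - 1) := by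
          refine Nat.mul_le_mul ?_ (hterm j1 hj1).2
          have := pow_swap (a := a) (b := δ - 1) (by omega)
          rwa [show δ - 1 + 1 = δ by omega, show a + 1 = T.card by omega] at this
      _ = (T.card * F) ^ (δ - 1) := by rw [mul_pow]
      _ ≤ _ := Nat.pow_le_pow_left h5 _

end TH130CI
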