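import Pool.Agent.TH274.PT.Small
import Pool.Agent.TH130.CI.Split

/-!
Artinian reductions of Gorenstein point sets: Lefschetz properties in low and high degrees when the
points lie on a finite set cut out by forms of low degree, or by products of few linear forms.
-/

open MvPolynomial Finset Module
open Pool.Agent.W515.SLP (AnnP Deg annP_zero annP_of_gt annP_of_homog)

namespace TH130CI

open Pool.Agent.H500R2.WLP (IZ Rd ev mem_Rd)
open Pool.Agent.TH274.PT (GorPts red)

/-- The Hilbert function of `Z`: the dimension of the space of functions on `Z` given by forms of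
degree `j`. -/
noncomputable def hilbZ {K : Type*} [Field K] {n : ℕ} (Z : Finset (Fin (n + 1) → K)) (j : ℕ) : ℕ :=
  Module.finrank K (Rd Z j)

/-- The `h`-vector of `Z`. -/
noncomputable def hvec {K : Type*} [Field K] {n : ℕ} (Z : Finset (Fin (n + 1) → K)) : ℕ → ℕ
  | 0 => hilbZ Z 0
  | j + 1 => hilbZ Z (j + 1) - hilbZ Z j

/-- `D` is the last degree of the `h`-vector. -/
def LastDeg {K : Type*} [Field K] {n : ℕ} (Z : Finset (Fin (n + 1) → K)) (D : ℕ) : Prop :=
  hilbZ Z D = Z.card ∧ hilbZ Z (D - 1) < Z.card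

/-- The finite set `W` is cut out (set-theoretically) by its equations in the class `P`: every
element of the ideal of `W` has a power in the ideal generated by the elements of that ideal which
belong to `P`. -/
def CutOutBy {K : Type*} [Field K] {n : ℕ} (P : MvPolynomial (Fin (n + 1)) K → Prop)
    (W : Finset (Fin (n + 1) → K)) : Prop :=
  ∀ f ∈ IZ W, ∃ m : ℕ, f ^ m ∈ Ideal.span {g : MvPolynomial (Fin (n + 1)) K | g ∈ IZ W ∧ P g}

/-- Forms of degree at most `δ`. -/
def LowForm {K : Type*} [Field K] {n : ℕ} (δ : ℕ) (g : MvPolynomial (Fin (n + 1)) K) : Prop :=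
  ∃ d ≤ δ, g.IsHomogeneous d

/-- Products of at most `δ` linear forms. -/
def SplitForm {K : Type*} [Field K] {n : ℕ} (δ : ℕ) (g : MvPolynomial (Fin (n + 1)) K) : Prop :=
  ∃ (t : ℕ) (l : Fin t → Fin (n + 1) → K), t ≤ δ ∧ g = ∏ j, Pool.Agent.H500R2.WLP.lin (l j)

/-- Multiplication by the powers `ℓ ^ k` of one linear form on `A = R / J` is injective from
`A_i` to `A_{i+k}` for `i + k ≤ N`, and surjective for `i ≥ D - N`. -/
def LefRange {K : Type*} [Field K] {n : ℕ} (J : Ideal (MvPolynomial (Fin (n + 1)) K))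
    (D N : ℕ) : Prop :=
  ∃ L : MvPolynomial (Fin (n + 1)) K, L.IsHomogeneous 1 ∧
    (∀ i k : ℕ, i + k ≤ N → ∀ f : MvPolynomial (Fin (n + 1)) K, f.IsHomogeneous i →
      L ^ k * f ∈ J → f ∈ J) ∧
    (∀ i k : ℕ, D ≤ i + N → ∀ g : MvPolynomial (Fin (n + 1)) K, g.IsHomogeneous (i + k) →
      ∃ f : MvPolynomial (Fin (n + 1)) K, f.IsHomogeneous i ∧ g - L ^ k * f ∈ J)

variable {K : Type*} [Field K] {n : ℕ}

lemma X_pow_mem {W : Finset (Fin (n + 1) → K)} {c : Fin (n + 1) → K}
    (hc : ∀ w ∈ W, eval w (Pool.Agent.H500R2.WLP.lin c) ≠ 0)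
    {P : MvPolynomial (Fin (n + 1)) K → Prop} (hW : CutOutBy P W) (i : Fin (n + 1)) :
    ∃ m, (X i : MvPolynomial (Fin (n + 1)) K) ^ m ∈
      Ideal.span ({g : MvPolynomial (Fin (n + 1)) K | g ∈ IZ W ∧ P g} ∪
        {Pool.Agent.H500R2.WLP.lin c}) := by
  classical
  set L := (Pool.Agent.H500R2.WLP.lin c : MvPolynomial (Fin (n + 1)) K) with hL
  set S := Ideal.span ({g : MvPolynomial (Fin (n + 1)) K | g ∈ IZ W ∧ P g} ∪ {L}) with hS
  let f : MvPolynomial (Fin (n + 1)) K := ∏ w ∈ W, (C (eval w L) * X i - C (w i) * L)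
  have hf : f ∈ IZ W := by
    apply Ideal.subset_span
    refine ⟨∑ w ∈ W, 1, ?_, ?_⟩
    · refine IsHomogeneous.prod W _ (fun _ => 1) (fun w _ => ?_)
      apply IsHomogeneous.sub
      · have := (isHomogeneous_C (Fin (n + 1)) (eval w L)).mul (isHomogeneous_X K i)
        rwa [zero_add] at this
      · have := (isHomogeneous_C (Fin (n + 1)) (w i)).mul
          (Pool.Agent.H500R2.WLP.lin_isHomogeneous c)
        rwa [zero_add] at this
    · intro p hp
      change eval p (∏ w ∈ W, (C (eval w L) * X i - C (w i) * L)) = 0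
      rw [map_prod]
      apply Finset.prod_eq_zero hp
      rw [map_sub, map_mul, map_mul, eval_C, eval_C, eval_X]
      ring
  obtain ⟨m, hm⟩ := hW f hf
  have hmS : f ^ m ∈ S := Ideal.span_mono Set.subset_union_left hm
  have hLS : L ∈ S := Ideal.subset_span (Or.inr rfl)
  refine ⟨W.card * m, ?_⟩
  have h1 : Ideal.Quotient.mk S f = Ideal.Quotient.mk S (C (∏ w ∈ W, eval w L) * X i ^ W.card) := by
    have h2 : ∀ w, Ideal.Quotient.mk S (C (eval w L) * X i - C (w i) * L) =
        Ideal.Quotient.mk S (C (eval w L) * X i) := by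
      intro w
      rw [map_sub, Ideal.Quotient.eq_zero_iff_mem.mpr (S.mul_mem_left _ hLS), sub_zero]
    change Ideal.Quotient.mk S (∏ w ∈ W, (C (eval w L) * X i - C (w i) * L)) = _
    rw [map_prod, Finset.prod_congr rfl (fun w _ => h2 w), ← map_prod, Finset.prod_mul_distrib,
      Finset.prod_const, map_prod C]
  have h3 : (C (∏ w ∈ W, eval w L) * X i ^ W.card : MvPolynomial (Fin (n + 1)) K) ^ m ∈ S := by
    rw [← Ideal.Quotient.eq_zero_iff_mem, map_pow, ← h1, ← map_pow,
      Ideal.Quotient.eq_zero_iff_mem]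
    exact hmS
  have h4 : (∏ w ∈ W, eval w L) ≠ 0 := Finset.prod_ne_zero_iff.2 hc
  have h5 := S.mul_mem_left (C (((∏ w ∈ W, eval w L) ^ m)⁻¹)) h3
  rw [mul_pow, ← pow_mul, ← mul_assoc, ← C_pow, ← C_mul, inv_mul_cancel₀ (pow_ne_zero m h4),
    C_1, one_mul] at h5
  exact h5

lemma IZ_mono {Z W : Finset (Fin (n + 1) → K)} (h : Z ⊆ W) : IZ W ≤ IZ Z := by
  apply Ideal.span_mono
  rintro f ⟨d, hd, hf⟩
  exact ⟨d, hd, fun p hp => hf p (h hp)⟩

/-- **Core theorem for point sets.** -/
theorem core_pts [CharZero K] {Z W : Finset (Fin (n + 1) → K)} {D : ℕ} (hG : GorPts Z)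
    (hD : 1 ≤ D) (hL : LastDeg Z D) (hZW : Z ⊆ W)
    {P : MvPolynomial (Fin (n + 1)) K → Prop} (hP : ∀ g, P g → ∃ d, g.IsHomogeneous d)
    (hW : CutOutBy P W)
    {c : Fin (n + 1) → K} (hc : ∀ p ∈ W, eval p (Pool.Agent.H500R2.WLP.lin c) ≠ 0)
    (hPc : P (Pool.Agent.H500R2.WLP.lin c))
    {N B : ℕ} (hND : N ≤ D) (hB1 : 1 ≤ N → 1 ≤ B) (hB : ∀ j < N, hvec Z j ≤ B)
    (hlen : ∀ i < N, ∀ G : Set (MvPolynomial (Fin (n + 1)) K), (∀ g ∈ G, P g) →
      (∀ i, ∃ m, X i ^ m ∈ Ideal.span G) → ∀ ψ : MvPolynomial (Fin (n + 1)) K →ₗ[K] K,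
      Deg ψ (D - i) → (∀ g ∈ G, g ∈ gor ψ) →
      (∃ h : MvPolynomial (Fin (n + 1)) K, h.IsHomogeneous (D - i) ∧ h ∉ gor ψ) →
      (D - i + 1) * B < Module.finrank K (MvPolynomial (Fin (n + 1)) K ⧸ gor ψ)) :
    LefRange (red Z c) D N := by
  classical
  obtain ⟨c1, h, s, hs1, hs2, hs3⟩ := hG
  obtain ⟨φ, hdual⟩ := Pool.Agent.TH274.PT.exists_dual' hD hL.1 hL.2 h s hs1 hs2 hs3
  have hIZ : red Z c = IZ (Pool.Agent.TH274.PT.resc Z c1) ⊔
      Ideal.span {Pool.Agent.H500R2.WLP.lin c} := by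
    rw [Pool.Agent.TH274.PT.IZ_resc h]
    rfl
  have hx := Pool.Agent.TH274.PT.resc_ev h (fun p hp => hc p (hZW hp))
  set Φ := Pool.Agent.TH274.PT.phiC (Pool.Agent.TH274.PT.resc Z c1) D φ c with hΦ
  have hΦd : Deg Φ D := Pool.Agent.TH274.PT.deg_phiC
  have hlink : ∀ {j : ℕ} {f : MvPolynomial (Fin (n + 1)) K}, f.IsHomogeneous j →
      (f ∈ red Z c ↔ f ∈ gor Φ) := by
    intro j f hf
    rw [hIZ]
    exact Pool.Agent.TH274.PT.link hdual hx hf
  -- the Hilbert function
  have hAA : ∀ M < N, Module.finrank K (AA (gor Φ) M) ≤ B := by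
    intro M hM
    rcases Nat.eq_zero_or_pos M with h0 | h0
    · subst h0
      refine le_trans (finrank_AA_le _ 0) ?_
      rw [pow_zero]
      exact hB1 (by omega)
    · obtain ⟨M', rfl⟩ : ∃ M', M = M' + 1 := ⟨M - 1, by omega⟩
      have h1 : Pool.Agent.TH274.GR.hil Φ (M' + 1) + finrank K (Rd Z M') =
          finrank K (Rd Z (M' + 1)) := by
        have h1 := Pool.Agent.TH274.PT.hil_phiC hdual hx M'
        rwa [Pool.Agent.TH274.PT.finrank_resc h, Pool.Agent.TH274.PT.finrank_resc h] at h1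
      have h2 := hB (M' + 1) hM
      change hilbZ Z (M' + 1) - hilbZ Z M' ≤ B at h2
      unfold hilbZ at h2
      have h3 : Module.finrank K (AA (gor Φ) (M' + 1)) =
          Pool.Agent.TH274.GR.hil Φ (M' + 1) := by
        have e1 := LinearMap.finrank_range_add_finrank_ker
          ((Pool.Agent.TH274.GR.annI Φ).mkQ.comp
            (homogeneousSubmodule (Fin (n + 1)) K (M' + 1)).subtype)
        have e2 := LinearMap.finrank_range_add_finrank_ker
          ((Ideal.Quotient.mkₐ K (gor Φ)).toLinearMap.comp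
            (homogeneousSubmodule (Fin (n + 1)) K (M' + 1)).subtype)
        have hfin : Module.Finite K (homogeneousSubmodule (Fin (n + 1)) K (M' + 1)) :=
          Module.Finite.iff_fg.2 (homogeneousSubmodule_fg _ _ _)
        have hker : LinearMap.ker ((Pool.Agent.TH274.GR.annI Φ).mkQ.comp
            (homogeneousSubmodule (Fin (n + 1)) K (M' + 1)).subtype) =
            LinearMap.ker ((Ideal.Quotient.mkₐ K (gor Φ)).toLinearMap.comp
            (homogeneousSubmodule (Fin (n + 1)) K (M' + 1)).subtype) := by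
          ext g
          rw [LinearMap.mem_ker, LinearMap.mem_ker]
          constructor
          · intro h4
            have h5 : (g : MvPolynomial (Fin (n + 1)) K) ∈ Pool.Agent.TH274.GR.annI Φ :=
              (Submodule.Quotient.mk_eq_zero _).1 h4
            exact (Ideal.Quotient.eq_zero_iff_mem (I := gor Φ)).mpr h5
          · intro h4
            have h5 : (g : MvPolynomial (Fin (n + 1)) K) ∈ gor Φ :=
              Ideal.Quotient.eq_zero_iff_mem.mp h4
            exact (Submodule.Quotient.mk_eq_zero _).2 h5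
        have e3 : Pool.Agent.TH274.GR.hil Φ (M' + 1) = finrank K (LinearMap.range
            ((Pool.Agent.TH274.GR.annI Φ).mkQ.comp
            (homogeneousSubmodule (Fin (n + 1)) K (M' + 1)).subtype)) := by
          rw [LinearMap.range_comp, Submodule.range_subtype]
          rfl
        have e4 : Module.finrank K (AA (gor Φ) (M' + 1)) = finrank K (LinearMap.range
            ((Ideal.Quotient.mkₐ K (gor Φ)).toLinearMap.comp
            (homogeneousSubmodule (Fin (n + 1)) K (M' + 1)).subtype)) := by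
          rw [LinearMap.range_comp, Submodule.range_subtype]
          rfl
        rw [hker] at e1
        omega
      omega
  -- the forms in the ideal
  set G : Set (MvPolynomial (Fin (n + 1)) K) :=
    {g : MvPolynomial (Fin (n + 1)) K | g ∈ IZ W ∧ P g} ∪ {Pool.Agent.H500R2.WLP.lin c} with hGdef
  have hGP : ∀ g ∈ G, P g := by
    rintro g (⟨-, hg⟩ | hg)
    · exact hg
    · rw [Set.mem_singleton_iff.1 hg]; exact hPc
  have hGI : ∀ g ∈ G, g ∈ gor Φ := by
    intro g hg
    obtain ⟨d, hd⟩ := hP g (hGP g hg)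
    rw [← hlink hd]
    rcases hg with ⟨hg, -⟩ | hg
    · exact Ideal.mem_sup_left (IZ_mono hZW hg)
    · rw [Set.mem_singleton_iff.1 hg]
      exact Ideal.mem_sup_right (Ideal.mem_span_singleton_self _)
  obtain ⟨q, hq⟩ := main_abs hΦd hND hAA (by
    intro i hi ψ hψ hle hne
    exact hlen i hi G hGP (X_pow_mem hc hW) ψ hψ (fun g hg => hle (hGI g hg)) hne)
  have hlq : (Pool.Agent.W515.SLP.lin q : MvPolynomial (Fin (n + 1)) K).IsHomogeneous 1 :=
    lin_homog q
  have hinj : ∀ i k : ℕ, i + k ≤ N → ∀ f : MvPolynomial (Fin (n + 1)) K, f.IsHomogeneous i →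
      Pool.Agent.W515.SLP.lin q ^ k * f ∈ gor Φ → f ∈ gor Φ := by
    intro i k hik f hf hfm
    apply hq i (by omega) f hf
    have h1 : Pool.Agent.W515.SLP.lin q ^ (N - i) * f =
        Pool.Agent.W515.SLP.lin q ^ (N - i - k) * (Pool.Agent.W515.SLP.lin q ^ k * f) := by
      rw [← mul_assoc, ← pow_add]
      congr 2
      omega
    rw [h1]
    exact (gor Φ).mul_mem_left _ hfm
  refine ⟨Pool.Agent.W515.SLP.lin q, hlq, ?_, ?_⟩
  · intro i k hik f hf hfm
    rw [hlink hf]
    apply hinj i k hik f hf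
    have h1 := (hlq.pow k).mul hf
    rwa [hlink h1] at hfm
  · intro i k hi g hg
    by_cases hik : i + k ≤ D
    · obtain ⟨f, hf, hf2⟩ := surj_of_inj (φ := Φ) hΦd hlq hik (by
        intro u hu hu2
        exact hinj (D - (i + k)) k (by omega) u hu hu2) hg
      refine ⟨f, hf, ?_⟩
      have h3 : (g - Pool.Agent.W515.SLP.lin q ^ k * f).IsHomogeneous (i + k) := by
        have := (hlq.pow k).mul hf
        rw [one_mul, Nat.add_comm k i] at this
        exact hg.sub this
      rw [hlink h3]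
      exact hf2
    · refine ⟨0, isHomogeneous_zero _ _ _, ?_⟩
      rw [mul_zero, sub_zero, hlink hg]
      exact annP_of_gt hΦd (by omega) hg

end TH130CI
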