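import Pool.Agent.TH130.CI.Pts

/-!
Artinian reductions of Gorenstein point sets: the two main theorems.
-/

open MvPolynomial Finset Module
open Pool.Agent.W515.SLP (AnnP Deg annP_zero annP_of_gt annP_of_homog)

namespace TH130CI

open Pool.Agent.H500R2.WLP (IZ Rd ev mem_Rd)
open Pool.Agent.TH274.PT (GorPts red)

variable {K : Type*} [Field K] {n : ℕ}

lemma hvec_zero_pos {Z : Finset (Fin (n + 1) → K)} (hZ : Z.Nonempty) : 1 ≤ hvec Z 0 := by
  obtain ⟨p, hp⟩ := hZ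
  change 1 ≤ Module.finrank K (Rd Z 0)
  have h1 : (1 : Z → K) ∈ Rd Z 0 := by
    refine (mem_Rd Z 0 _).2 ⟨1, isHomogeneous_one _ _, ?_⟩
    rw [map_one]
  have h2 : (⟨1, h1⟩ : Rd Z 0) ≠ 0 := by
    intro h
    have h3 := congrArg (fun x : Rd Z 0 => (x : Z → K) ⟨p, hp⟩) h
    simp at h3
  have : Nontrivial (Rd Z 0) := ⟨⟨_, _, h2⟩⟩
  exact Module.finrank_pos

lemma last_pos {Z : Finset (Fin (n + 1) → K)} {D : ℕ} (hL : LastDeg Z D) :
    Z.Nonempty ∧ 1 ≤ D := by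
  obtain ⟨h1, h2⟩ := hL
  constructor
  · rw [← Finset.card_pos]; omega
  · by_contra hcon
    have h0 : D = 0 := by omega
    subst h0
    rw [Nat.zero_sub] at h2
    omega

/-- **Equations of low degree.** -/
theorem low_pts [CharZero K] {Z W : Finset (Fin (n + 1) → K)} {D : ℕ} (hG : GorPts Z)
    (hL : LastDeg Z D) (hZW : Z ⊆ W) {δ : ℕ} (hδ : 1 ≤ δ) (hW : CutOutBy (LowForm δ) W)
    {c : Fin (n + 1) → K} (hc : ∀ p ∈ W, eval p (Pool.Agent.H500R2.WLP.lin c) ≠ 0)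
    {N r : ℕ} (hND : N ≤ D) (hr : 4 ^ r * δ ≤ D - N + 1)
    (hB : ∀ j < N, (D + 1) * hvec Z j < 2 ^ (r ^ 2) * δ ^ r) :
    LefRange (red Z c) D N := by
  classical
  obtain ⟨hZne, hD⟩ := last_pos hL
  -- the maximum of the entries
  let B := (Finset.range N).sup (hvec Z)
  have hBj : ∀ j < N, hvec Z j ≤ B := fun j hj => Finset.le_sup (f := hvec Z)
    (Finset.mem_range.2 hj)
  have hB1 : 1 ≤ N → 1 ≤ B := fun hN => le_trans (hvec_zero_pos hZne) (hBj 0 (by omega))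
  have hBB : 1 ≤ N → (D + 1) * B < 2 ^ (r ^ 2) * δ ^ r := by
    intro hN
    obtain ⟨j, hj, hjB⟩ := Finset.exists_mem_eq_sup (Finset.range N)
      ⟨0, Finset.mem_range.2 (by omega)⟩ (hvec Z)
    change (D + 1) * (Finset.range N).sup (hvec Z) < _
    rw [hjB]
    exact hB j (Finset.mem_range.1 hj)
  refine core_pts hG hD hL hZW (P := LowForm δ) (fun g ⟨d, _, hg⟩ => ⟨d, hg⟩) hW hc
    ⟨1, hδ, Pool.Agent.H500R2.WLP.lin_isHomogeneous c⟩ hND hB1 hBj ?_
  intro i hi G hGP hm ψ hψ hGI hne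
  have h1 := length_lower hδ (G := G) (fun g hg => hGP g hg) hm r (D - i) (gor ψ) (gor_homog hψ)
    hGI (gor_finite hψ) hne (by omega)
  have h2 := hBB (by omega)
  have h3 : (D - i + 1) * B ≤ (D + 1) * B := Nat.mul_le_mul_right _ (by omega)
  omega

lemma grow {b B : ℕ} (hB : 1 ≤ B) {s0 : ℕ} (h : ((s0 + 1) * B) ^ b < (b + 1) ^ s0) {s : ℕ}
    (hs : s0 ≤ s) : ((s + 1) * B) ^ b < (b + 1) ^ s := by
  induction s, hs using Nat.le_induction with
  | base => exact h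
  | succ s _ ih =>
    have hbs : b ≤ s + 1 := by
      by_contra hcon
      have h1 : (b + 1) ^ s ≤ (s + 1) ^ b := pow_swap (by omega)
      have h2 : (s + 1) ^ b ≤ ((s + 1) * B) ^ b :=
        Nat.pow_le_pow_left (Nat.le_mul_of_pos_right _ hB) b
      omega
    calc ((s + 1 + 1) * B) ^ b = (s + 2) ^ b * B ^ b := by rw [mul_pow]
      _ ≤ ((b + 1) * (s + 1) ^ b) * B ^ b := Nat.mul_le_mul_right _ (pow_aux b s hbs)
      _ = (b + 1) * ((s + 1) * B) ^ b := by rw [mul_pow]; ring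
      _ < (b + 1) * (b + 1) ^ s := Nat.mul_lt_mul_of_pos_left ih (by omega)
      _ = (b + 1) ^ (s + 1) := by rw [pow_succ, mul_comm]

/-- **Split equations.** -/
theorem split_pts [CharZero K] {Z W : Finset (Fin (n + 1) → K)} {D : ℕ} (hG : GorPts Z)
    (hL : LastDeg Z D) (hZW : Z ⊆ W) {δ : ℕ} (hδ : 2 ≤ δ) (hW : CutOutBy (SplitForm δ) W)
    {c : Fin (n + 1) → K} (hc : ∀ p ∈ W, eval p (Pool.Agent.H500R2.WLP.lin c) ≠ 0)
    {N : ℕ} (hND : N ≤ D)
    (hB : ∀ j < N, ((D - N + 2) * hvec Z j) ^ (δ - 1) < δ ^ (D - N + 1)) :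
    LefRange (red Z c) D N := by
  classical
  obtain ⟨hZne, hD⟩ := last_pos hL
  let B := (Finset.range N).sup (hvec Z)
  have hBj : ∀ j < N, hvec Z j ≤ B := fun j hj => Finset.le_sup (f := hvec Z)
    (Finset.mem_range.2 hj)
  have hB1 : 1 ≤ N → 1 ≤ B := fun hN => le_trans (hvec_zero_pos hZne) (hBj 0 (by omega))
  have hBB : 1 ≤ N → ((D - N + 1 + 1) * B) ^ (δ - 1) < (δ - 1 + 1) ^ (D - N + 1) := by
    intro hN
    obtain ⟨j, hj, hjB⟩ := Finset.exists_mem_eq_sup (Finset.range N)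
      ⟨0, Finset.mem_range.2 (by omega)⟩ (hvec Z)
    change ((D - N + 2) * (Finset.range N).sup (hvec Z)) ^ (δ - 1) < _
    rw [hjB, show δ - 1 + 1 = δ by omega]
    exact hB j (Finset.mem_range.1 hj)
  refine core_pts hG hD hL hZW (P := SplitForm δ) ?_ hW hc ?_ hND hB1 hBj ?_
  · rintro g ⟨t, l, -, rfl⟩
    exact ⟨_, lin_prod_homog l Finset.univ⟩
  · exact ⟨1, fun _ => c, by omega, by simp⟩
  intro i hi G hGP hm ψ hψ hGI hne
  have h1 := split_len hδ (G := G) (fun g hg => by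
    obtain ⟨t, l, ht, hg⟩ := hGP g hg
    exact ⟨t, l, ht, hg⟩) hm (D - i) ψ hψ hGI hne
  have h2 := grow (hB1 (by omega)) (hBB (by omega)) (s := D - i) (by omega)
  rw [show δ - 1 + 1 = δ by omega] at h2
  by_contra hcon
  have h3 : Module.finrank K (MvPolynomial (Fin (n + 1)) K ⧸ gor ψ) ≤ (D - i + 1) * B := by
    omega
  have h4 := Nat.pow_le_pow_left h3 (δ - 1)
  omega

end TH130CI
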