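import Pool.Agent.TH130.CI.Bc

/-!
Saturated ideals of projective dimension zero: generic linear forms, Hilbert functions, and lower
bounds for the degree.
-/

open MvPolynomial
open Pool.Agent.W515.SLP (AnnP Deg annP_zero annP_of_gt annP_of_homog lin)
open H503R3.QCI (Homog comp_mul comp_mul_of_lt NZD Reg homog_span isSocleDegree_ci gr mem_gr HS_ci
  HS cip)

namespace TH130CI

variable {K : Type*} [Field K] {n : ℕ}

/-- `q ↦ ∑ q_i X_i` as a linear map -/
noncomputable def linL (K : Type*) [Field K] (n : ℕ) :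
    (Fin n → K) →ₗ[K] MvPolynomial (Fin n) K :=
  { toFun := fun q => lin q
    map_add' := by
      intro a b
      simp only [lin, Pi.add_apply, map_add, add_mul, Finset.sum_add_distrib]
    map_smul' := by
      intro a b
      simp only [lin, Pi.smul_apply, smul_eq_mul, map_mul, RingHom.id_apply, Finset.smul_sum,
        smul_eq_C_mul, mul_assoc] }

lemma linL_single (i : Fin n) : linL K n (Pi.single i 1) = X i := by
  change lin (Pi.single i 1 : Fin n → K) = X i
  rw [lin, Finset.sum_eq_single i]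
  · rw [Pi.single_eq_same, map_one, one_mul]
  · intro j _ hj
    rw [Pi.single_eq_of_ne hj, map_zero, zero_mul]
  · intro h; exact absurd (Finset.mem_univ i) h

lemma linL_homog (q : Fin n → K) : (linL K n q).IsHomogeneous 1 := by
  refine IsHomogeneous.sum _ _ _ fun i _ => ?_
  exact isHomogeneous_C_mul_X _ _

/-- a generic linear form is a nonzerodivisor modulo an ideal of positive depth, and does not vanish
at finitely many given nonzero points -/
theorem exists_lin_nzd_avoid [Infinite K] {J : Ideal (MvPolynomial (Fin n) K)}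
    (hsat : ∀ f : MvPolynomial (Fin n) K, (∀ i, X i * f ∈ J) → f ∈ J)
    (Z : Finset (Fin n → K)) (hZ : ∀ z ∈ Z, z ≠ 0) :
    ∃ q : Fin n → K, NZD J (linL K n q) ∧ ∀ z ∈ Z, eval z (linL K n q) ≠ 0 := by
  classical
  have hfin := associatedPrimes.finite (MvPolynomial (Fin n) K) (MvPolynomial (Fin n) K ⧸ J)
  have hun := biUnion_associatedPrimes_eq_zero_divisors (MvPolynomial (Fin n) K)
    (MvPolynomial (Fin n) K ⧸ J)
  let Vp : Ideal (MvPolynomial (Fin n) K) → Submodule K (Fin n → K) :=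
    fun p => (p.restrictScalars K).comap (linL K n)
  let Vz : (Fin n → K) → Submodule K (Fin n → K) :=
    fun z => LinearMap.ker ((aeval (R := K) z).toLinearMap ∘ₗ linL K n)
  let s : Finset (Submodule K (Fin n → K)) := hfin.toFinset.image Vp ∪ Z.image Vz
  have hs : (⊤ : Submodule K (Fin n → K)) ∉ s := by
    intro htop
    rcases Finset.mem_union.mp htop with htop | htop
    · obtain ⟨p, hp, hpt⟩ := Finset.mem_image.mp htop
      rw [Set.Finite.mem_toFinset] at hp
      have hX : ∀ i, (X i : MvPolynomial (Fin n) K) ∈ p := by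
        intro i
        have h1 : (Pi.single i 1 : Fin n → K) ∈ Vp p := by rw [hpt]; exact Submodule.mem_top
        have h2 : linL K n (Pi.single i 1 : Fin n → K) ∈ p := h1
        rwa [linL_single] at h2
      obtain ⟨hpp, x, hx⟩ := isAssociatedPrime_iff.mp hp
      obtain ⟨g, rfl⟩ := Ideal.Quotient.mk_surjective x
      have hg : g ∈ J := by
        apply hsat
        intro i
        have h1 := hX i
        rw [hx, Submodule.mem_colon_singleton, Submodule.mem_bot] at h1
        have h2 : Ideal.Quotient.mk J (X i * g) = 0 := h1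
        exact Ideal.Quotient.eq_zero_iff_mem.mp h2
      apply hpp.ne_top
      rw [Ideal.eq_top_iff_one, hx, Submodule.mem_colon_singleton, Submodule.mem_bot, one_smul]
      exact Ideal.Quotient.eq_zero_iff_mem.mpr hg
    · obtain ⟨z, hz, hzt⟩ := Finset.mem_image.mp htop
      apply hZ z hz
      ext i
      have h1 : (Pi.single i 1 : Fin n → K) ∈ Vz z := by rw [hzt]; exact Submodule.mem_top
      have h2 : aeval (R := K) z (linL K n (Pi.single i 1 : Fin n → K)) = 0 := h1
      rw [linL_single, aeval_X] at h2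
      exact h2
  have hne := Subspace.biUnion_ne_univ_of_top_notMem hs
  obtain ⟨q, hq⟩ := (Set.ne_univ_iff_exists_notMem _).mp hne
  refine ⟨q, ?_, ?_⟩
  · intro g hg
    by_contra hgJ
    have h1 : (linL K n q : MvPolynomial (Fin n) K) ∈
        {r : MvPolynomial (Fin n) K | ∃ x : MvPolynomial (Fin n) K ⧸ J, x ≠ 0 ∧ r • x = 0} := by
      refine ⟨Ideal.Quotient.mk J g, ?_, ?_⟩
      · rwa [Ne, Ideal.Quotient.eq_zero_iff_mem]
      · have h2 : Ideal.Quotient.mk J (linL K n q * g) = 0 := Ideal.Quotient.eq_zero_iff_mem.mpr hg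
        exact h2
    rw [← hun] at h1
    obtain ⟨p, hp, hqp⟩ := Set.mem_iUnion₂.mp h1
    apply hq
    refine Set.mem_biUnion (x := Vp p) ?_ ?_
    · exact Finset.mem_coe.mpr (Finset.mem_union_left _
        (Finset.mem_image.mpr ⟨p, (Set.Finite.mem_toFinset _).mpr hp, rfl⟩))
    · exact hqp
  · intro z hz h0
    apply hq
    refine Set.mem_biUnion (x := Vz z) ?_ ?_
    · exact Finset.mem_coe.mpr (Finset.mem_union_right _ (Finset.mem_image.mpr ⟨z, hz, rfl⟩))
    · exact h0

lemma eval_smul_homog {p : MvPolynomial (Fin n) K} {e : ℕ} (hp : p.IsHomogeneous e) (c : K)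
    (x : Fin n → K) : eval (c • x) p = c ^ e * eval x p := by
  rw [eval_eq, eval_eq, Finset.mul_sum]
  refine Finset.sum_congr rfl fun a ha => ?_
  have hadeg : a.degree = e := by
    by_contra hne
    exact (mem_support_iff.1 ha) (hp.coeff_eq_zero hne)
  have h1 : ∏ i ∈ a.support, (c • x) i ^ a i = c ^ e * ∏ i ∈ a.support, x i ^ a i := by
    simp only [Pi.smul_apply, smul_eq_mul, mul_pow]
    rw [Finset.prod_mul_distrib, Finset.prod_pow_eq_pow_sum, ← hadeg, Finsupp.degree_apply]
  rw [h1]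
  ring

/-- Hilbert functions of the quotient by a linear nonzerodivisor -/
lemma AA_succ {J : Ideal (MvPolynomial (Fin n) K)} (hJ : Homog J) {ℓ : MvPolynomial (Fin n) K}
    (hℓ : ℓ.IsHomogeneous 1) (hn : NZD J ℓ) (k : ℕ) :
    Module.finrank K (AA (J ⊔ Ideal.span {ℓ}) (k + 1)) + Module.finrank K (AA J k) =
      Module.finrank K (AA J (k + 1)) := by
  have h1 := finrank_AA (I := J ⊔ Ideal.span {ℓ}) (k + 1)
  have h2 := finrank_AA (I := J) (k + 1)
  have h3 := finrank_AA (I := J) k
  have h4 := H503R3.QCI.gr_dim (k := k) hJ hℓ hn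
  rw [add_comm 1 k] at h4
  omega

lemma AA_zero {J : Ideal (MvPolynomial (Fin n) K)} (hJ : Homog J) {ℓ : MvPolynomial (Fin n) K}
    (hℓ : ℓ.IsHomogeneous 1) :
    Module.finrank K (AA (J ⊔ Ideal.span {ℓ}) 0) = Module.finrank K (AA J 0) := by
  have h1 := finrank_AA (I := J ⊔ Ideal.span {ℓ}) 0
  have h2 := finrank_AA (I := J) 0
  rw [H503R3.QCI.gr_low hJ hℓ (by norm_num)] at h1
  omega

lemma AA_sum {J : Ideal (MvPolynomial (Fin n) K)} (hJ : Homog J) {ℓ : MvPolynomial (Fin n) K}
    (hℓ : ℓ.IsHomogeneous 1) (hn : NZD J ℓ) (k : ℕ) :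
    ∑ i ∈ Finset.range (k + 1), Module.finrank K (AA (J ⊔ Ideal.span {ℓ}) i) =
      Module.finrank K (AA J k) := by
  induction k with
  | zero => rw [Finset.sum_range_one, AA_zero hJ hℓ]
  | succ k ih =>
    rw [Finset.sum_range_succ, ih, add_comm]
    exact AA_succ hJ hℓ hn k

lemma mem_of_finrank_AA {I : Ideal (MvPolynomial (Fin n) K)} {p : ℕ}
    (h : Module.finrank K (AA I p) = 0) {g : MvPolynomial (Fin n) K} (hg : g.IsHomogeneous p) :
    g ∈ I := by
  have h1 : Ideal.Quotient.mk I g ∈ AA I p := mem_AA.mpr ⟨g, hg, rfl⟩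
  rw [Submodule.finrank_eq_zero.mp h, Submodule.mem_bot] at h1
  exact Ideal.Quotient.eq_zero_iff_mem.mp h1

/-- **The degree of a scheme failing to impose independent conditions.** -/
theorem deg_bound {J : Ideal (MvPolynomial (Fin n) K)} (hJ : Homog J) {ℓ : MvPolynomial (Fin n) K}
    (hℓ : ℓ.IsHomogeneous 1) (hn : NZD J ℓ) {D : ℕ} (hD : 1 ≤ D) {G : Set (MvPolynomial (Fin n) K)}
    (hG : ∀ g ∈ G, g ∈ J ∧ ∃ d ≤ D, g.IsHomogeneous d)
    (hm : ∀ i, ∃ m, X i ^ m ∈ Ideal.span G ⊔ Ideal.span {ℓ}) {e N m r : ℕ}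
    (he : ∀ k ≥ N, Module.finrank K (AA J k) = e) (hlt : Module.finrank K (AA J m) < e)
    (hr : 3 ^ r * D ≤ m + 1) : 3 ^ (r.choose 2) * D ^ r * (D + 1) ≤ e := by
  set I := J ⊔ Ideal.span {ℓ} with hI
  have hIh : Homog I := homog_sup_span hJ hℓ
  have htop : ∀ p, N < p → ∀ g : MvPolynomial (Fin n) K, g.IsHomogeneous p → g ∈ I := by
    intro p hp g hg
    obtain ⟨k, rfl⟩ : ∃ k, p = k + 1 := ⟨p - 1, by omega⟩
    refine mem_of_finrank_AA ?_ hg
    have h1 := AA_succ hJ hℓ hn k
    rw [he k (by omega), he (k + 1) (by omega)] at h1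
    rw [hI]
    omega
  have hsum := finrank_eq_sum hIh htop
  rw [hI, AA_sum hJ hℓ hn, he N le_rfl, ← hI] at hsum
  have hmN : m < N := by
    by_contra hcon
    have := he m (by omega)
    omega
  -- a nonzero piece in a degree above `m`
  obtain ⟨s, hs, g, hg, hgI⟩ : ∃ s, m + 1 ≤ s ∧ ∃ g : MvPolynomial (Fin n) K,
      g.IsHomogeneous s ∧ g ∉ I := by
    by_contra hcon
    push Not at hcon
    have h1 := finrank_eq_sum hIh (s := m) (fun p hp g hg => hcon p (by omega) g hg)
    rw [hI, AA_sum hJ hℓ hn, ← hI] at h1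
    omega
  rw [← hsum]
  apply length_lower3 hD (G := G ∪ {ℓ}) ?_ ?_ r s I hIh ?_ (finite_of_top htop) ⟨g, hg, hgI⟩
    (by omega)
  · rintro x (hx | rfl)
    · exact (hG x hx).2
    · exact ⟨1, hD, hℓ⟩
  · intro i
    rw [Ideal.span_union]
    exact hm i
  · rintro x (hx | rfl)
    · exact Ideal.mem_sup_left (hG x hx).1
    · exact Ideal.mem_sup_right (Ideal.mem_span_singleton_self _)

end TH130CI
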