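import Pool.Agent.W515.SLP.Mac
import Pool.Agent.H503R3.QCI.Hilb

/-!
Gorenstein quotients of a polynomial ring whose ideal contains forms of degree at most `D` without
common zeros: a linear section still lives in half of the socle degree.
-/

open MvPolynomial
open Pool.Agent.W515.SLP (AnnP Deg annP_zero annP_of_gt annP_of_homog)
open H503R3.QCI (Homog comp_mul comp_mul_of_lt)

namespace TH130CI

variable {K : Type*} [Field K] {n : ℕ}

/-- the annihilator ideal of a linear functional -/
def gor (φ : MvPolynomial (Fin n) K →ₗ[K] K) : Ideal (MvPolynomial (Fin n) K) where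
  carrier := {g | AnnP φ g}
  add_mem' := fun ha hb => ha.add hb
  zero_mem' := annP_zero
  smul_mem' := fun c _ hx => hx.mul_left c

lemma mem_gor {φ : MvPolynomial (Fin n) K →ₗ[K] K} {g : MvPolynomial (Fin n) K} :
    g ∈ gor φ ↔ AnnP φ g := Iff.rfl

lemma gor_homog {φ : MvPolynomial (Fin n) K →ₗ[K] K} {s : ℕ} (hφ : Deg φ s) : Homog (gor φ) := by
  intro p hp k
  rcases lt_or_ge s k with hk | hk
  · exact annP_of_gt hφ hk (homogeneousComponent_isHomogeneous _ _)
  · apply annP_of_homog hφ hk (homogeneousComponent_isHomogeneous _ _)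
    intro v hv
    have h1 := hp v
    rw [← sum_homogeneousComponent p, Finset.sum_mul, map_sum] at h1
    by_cases hk' : k ∈ Finset.range (p.totalDegree + 1)
    · rw [Finset.sum_eq_single k] at h1
      · exact h1
      · intro b _ hb
        exact hφ (b + (s - k)) (by omega) _ ((homogeneousComponent_isHomogeneous _ _).mul hv)
      · intro h; exact absurd hk' h
    · rw [homogeneousComponent_eq_zero k p (by simpa using hk'), zero_mul, map_zero]

/-- a homogeneous element of `I + (X i)` -/
lemma sup_comp {I : Ideal (MvPolynomial (Fin n) K)} (hI : Homog I) {i : Fin n} {p : ℕ} (hp : 1 ≤ p)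
    {h : MvPolynomial (Fin n) K} (hh : h.IsHomogeneous p) (hm : h ∈ I ⊔ Ideal.span {X i}) :
    ∃ b : MvPolynomial (Fin n) K, b.IsHomogeneous (p - 1) ∧ h - X i * b ∈ I := by
  obtain ⟨a, ha, c, hc, rfl⟩ := Submodule.mem_sup.mp hm
  obtain ⟨b, rfl⟩ := Ideal.mem_span_singleton'.mp hc
  refine ⟨homogeneousComponent (p - 1) b, homogeneousComponent_isHomogeneous _ _, ?_⟩
  have h1 : homogeneousComponent p (a + b * X i) = a + b * X i := by
    rw [homogeneousComponent_of_mem hh, if_pos rfl]
  have h2 : homogeneousComponent p (X i * b) = X i * homogeneousComponent (p - 1) b := by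
    have h3 := comp_mul (v := b) (k := p - 1) (isHomogeneous_X K i)
    rwa [show 1 + (p - 1) = p by omega] at h3
  have h4 : a + b * X i - X i * homogeneousComponent (p - 1) b = homogeneousComponent p a := by
    rw [← h2]
    conv_lhs => rw [← h1]
    rw [map_add, mul_comm b, add_sub_cancel_right]
  rw [h4]
  exact hI a ha p

/-- if all forms of degree `k₀` are in an ideal so are those of larger degree -/
lemma up_mem {J : Ideal (MvPolynomial (Fin n) K)} {k0 : ℕ}
    (h : ∀ h : MvPolynomial (Fin n) K, h.IsHomogeneous k0 → h ∈ J) {p : ℕ} (hp : k0 ≤ p)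
    {g : MvPolynomial (Fin n) K} (hg : g.IsHomogeneous p) : g ∈ J := by
  have hmon : ∀ q, ∀ a : Fin n →₀ ℕ, a.degree = k0 + q → monomial a (1 : K) ∈ J := by
    intro q
    induction q with
    | zero => intro a ha; exact h _ (isHomogeneous_monomial 1 ha)
    | succ q ih =>
      intro a ha
      have hne : a ≠ 0 := by rintro rfl; simp at ha
      obtain ⟨j, hj⟩ := Finsupp.ne_iff.mp hne
      rw [Finsupp.coe_zero, Pi.zero_apply] at hj
      have hle : Finsupp.single j 1 ≤ a := by
        rw [Finsupp.single_le_iff]; omega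
      have h1 : a = (a - Finsupp.single j 1) + Finsupp.single j 1 := (tsub_add_cancel_of_le hle).symm
      have h2 : (a - Finsupp.single j 1).degree = k0 + q := by
        have h3 := congrArg Finsupp.degree h1
        rw [map_add, Finsupp.degree_single] at h3
        omega
      have h4 : monomial a (1 : K) = X j * monomial (a - Finsupp.single j 1) 1 := by
        rw [X, monomial_mul, one_mul, add_comm, tsub_add_cancel_of_le hle]
      rw [h4]
      exact J.mul_mem_left _ (ih _ h2)
  rw [g.as_sum]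
  refine J.sum_mem fun a ha => ?_
  have h2 : a.degree = p := by
    by_contra hne
    exact (mem_support_iff.1 ha) (hg.coeff_eq_zero hne)
  have h3 : monomial a (coeff a g) = C (coeff a g) * monomial a 1 := by rw [C_mul_monomial, mul_one]
  rw [h3]
  exact J.mul_mem_left _ (hmon (p - k0) a (by omega))

/-- evaluation of polynomials at commuting endomorphisms -/
lemma exists_ev {M : Type*} [AddCommGroup M] [Module K M] (θ : Fin n → Module.End K M)
    (hc : ∀ j l, θ j * θ l = θ l * θ j) :
    ∃ E : MvPolynomial (Fin n) K →ₐ[K] Module.End K M, ∀ j, E (X j) = θ j := by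
  have hc' : ∀ a ∈ Set.range θ, ∀ b ∈ Set.range θ, a * b = b * a := by
    rintro _ ⟨j, rfl⟩ _ ⟨l, rfl⟩
    exact hc j l
  let _i : CommRing (Algebra.adjoin K (Set.range θ)) :=
    { (Algebra.adjoin K (Set.range θ)).toRing with
      mul_comm := (Algebra.isMulCommutative_adjoin K hc').is_comm.comm }
  let ev : MvPolynomial (Fin n) K →ₐ[K] Algebra.adjoin K (Set.range θ) :=
    aeval fun j => ⟨θ j, Algebra.subset_adjoin ⟨j, rfl⟩⟩
  refine ⟨(Algebra.adjoin K (Set.range θ)).val.comp ev, fun j => ?_⟩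
  simp [ev]

/-- If multiplication by `X i` is onto from degree `k-1` to `k` and injective from degree `k` to
`k+1`, and the forms of degree at most `k` in the ideal contain a power of `X i` in their span,
then the quotient vanishes in degree `k`. -/
theorem persist_abs {M : Type*} [AddCommGroup M] [Module K M]
    {I : Ideal (MvPolynomial (Fin n) K)} (cc : MvPolynomial (Fin n) K →ₗ[K] M) {k : ℕ}
    (hk : 1 ≤ k) (P1 : ∀ g : MvPolynomial (Fin n) K, g.IsHomogeneous k → (cc g = 0 ↔ g ∈ I))
    (P2 : ∀ m : M, ∃ g : MvPolynomial (Fin n) K, g.IsHomogeneous k ∧ cc g = m) (i : Fin n)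
    (hs : ∀ h : MvPolynomial (Fin n) K, h.IsHomogeneous k → ∃ b : MvPolynomial (Fin n) K,
      b.IsHomogeneous (k - 1) ∧ h - X i * b ∈ I)
    (hi : ∀ g : MvPolynomial (Fin n) K, g.IsHomogeneous k → X i * g ∈ I → g ∈ I)
    {G : Set (MvPolynomial (Fin n) K)} (hG : ∀ g ∈ G, ∃ d ≤ k, g.IsHomogeneous d)
    (hGI : ∀ g ∈ G, g ∈ I) {m : ℕ} (hm : X i ^ m ∈ Ideal.span G) (x : M) : x = 0 := by
  classical
  have hX : ∀ (j : Fin n) {b : MvPolynomial (Fin n) K}, b.IsHomogeneous (k - 1) →
      (X j * b).IsHomogeneous k := by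
    intro j b hb
    have := (isHomogeneous_X K j).mul hb
    rwa [show 1 + (k - 1) = k by omega] at this
  -- choice of a representative divided by `X i`
  let U := homogeneousSubmodule (Fin n) K (k - 1)
  let α : Fin n → U →ₗ[K] M := fun j => (cc ∘ₗ LinearMap.mulLeft K (X j)) ∘ₗ U.subtype
  have hα : ∀ j (b : U), α j b = cc (X j * (b : MvPolynomial (Fin n) K)) := fun j b => rfl
  have hsur : Function.Surjective (α i) := by
    intro x
    obtain ⟨g, hg, rfl⟩ := P2 x
    obtain ⟨b, hb, hb'⟩ := hs g hg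
    refine ⟨⟨b, hb⟩, ?_⟩
    rw [hα]
    have h1 := (P1 (g - X i * b) (hg.sub (hX i hb))).mpr hb'
    rw [map_sub, sub_eq_zero] at h1
    exact h1.symm
  have hker : ∀ j (b : U), α i b = 0 → α j b = 0 := by
    intro j b hb
    rw [hα] at hb ⊢
    have hbh : (b : MvPolynomial (Fin n) K).IsHomogeneous (k - 1) := b.2
    rw [P1 _ (hX _ hbh)] at hb ⊢
    apply hi _ (hX _ hbh)
    have h1 : X i * (X j * (b : MvPolynomial (Fin n) K)) =
        X j * (X i * (b : MvPolynomial (Fin n) K)) := by ring
    rw [h1]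
    exact I.mul_mem_left _ hb
  obtain ⟨s, hs'⟩ := (α i).exists_rightInverse_of_surjective (LinearMap.range_eq_top.mpr hsur)
  let θ : Fin n → Module.End K M := fun j => α j ∘ₗ s
  have hθ : ∀ j (b : U), θ j (α i b) = α j b := by
    intro j b
    have h1 : α i (s (α i b) - b) = 0 := by
      rw [map_sub, sub_eq_zero]
      exact LinearMap.congr_fun hs' (α i b)
    have h2 := hker j _ h1
    rw [map_sub, sub_eq_zero] at h2
    exact h2
  have hθ' : ∀ (j : Fin n) (b : MvPolynomial (Fin n) K), b.IsHomogeneous (k - 1) →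
      θ j (cc (X i * b)) = cc (X j * b) := fun j b hb => hθ j ⟨b, hb⟩
  have hrep : ∀ x : M, ∃ b : MvPolynomial (Fin n) K, b.IsHomogeneous (k - 1) ∧ cc (X i * b) = x := by
    intro x
    obtain ⟨b, hb⟩ := hsur x
    exact ⟨b, b.2, hb⟩
  have hcomm : ∀ j l, θ j * θ l = θ l * θ j := by
    intro j l
    apply LinearMap.ext
    intro x
    obtain ⟨b, hb, rfl⟩ := hrep x
    rw [Module.End.mul_apply, Module.End.mul_apply, hθ' l b hb, hθ' j b hb]
    obtain ⟨b1, hb1, h1⟩ := hrep (cc (X l * b))
    obtain ⟨b2, hb2, h2⟩ := hrep (cc (X j * b))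
    rw [← h1, ← h2, hθ' j b1 hb1, hθ' l b2 hb2]
    rw [← sub_eq_zero, ← map_sub]
    rw [P1 _ ((hX _ hb1).sub (hX _ hb2))]
    apply hi _ ((hX _ hb1).sub (hX _ hb2))
    have e1 : X i * b1 - X l * b ∈ I := by
      rw [← P1 _ ((hX _ hb1).sub (hX _ hb)), map_sub, sub_eq_zero]; exact h1
    have e2 : X i * b2 - X j * b ∈ I := by
      rw [← P1 _ ((hX _ hb2).sub (hX _ hb)), map_sub, sub_eq_zero]; exact h2
    have h3 : X i * (X j * b1 - X l * b2) = X j * (X i * b1 - X l * b) - X l * (X i * b2 - X j * b) := by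
      ring
    rw [h3]
    exact I.sub_mem (I.mul_mem_left _ e1) (I.mul_mem_left _ e2)
  obtain ⟨E, hE⟩ := exists_ev θ hcomm
  -- the cyclic vector
  set v : M := cc (X i ^ k) with hv
  have key : ∀ p, ∀ a : Fin n →₀ ℕ, a.degree = p → p ≤ k →
      E (monomial a 1) v = cc (X i ^ (k - p) * monomial a 1) := by
    intro p
    induction p with
    | zero =>
      intro a ha _
      have : a = 0 := (Finsupp.degree_eq_zero_iff a).mp ha
      subst this
      have h1 : (monomial (0 : Fin n →₀ ℕ) (1 : K)) = 1 := rfl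
      rw [h1, map_one, Module.End.one_apply, Nat.sub_zero, mul_one]
    | succ p ih =>
      intro a ha hpk
      have hne : a ≠ 0 := by rintro rfl; simp at ha
      obtain ⟨j, hj⟩ := Finsupp.ne_iff.mp hne
      rw [Finsupp.coe_zero, Pi.zero_apply] at hj
      have hle : Finsupp.single j 1 ≤ a := by
        rw [Finsupp.single_le_iff]; omega
      have h1 : a = (a - Finsupp.single j 1) + Finsupp.single j 1 := (tsub_add_cancel_of_le hle).symm
      have h2 : (a - Finsupp.single j 1).degree = p := by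
        have h3 := congrArg Finsupp.degree h1
        rw [map_add, Finsupp.degree_single] at h3
        omega
      have h4 : monomial a (1 : K) = X j * monomial (a - Finsupp.single j 1) 1 := by
        rw [X, monomial_mul, one_mul, add_comm, tsub_add_cancel_of_le hle]
      rw [h4, map_mul, Module.End.mul_apply, ih _ h2 (by omega), hE]
      have h5 : X i ^ (k - p) * monomial (a - Finsupp.single j 1) (1 : K) =
          X i * (X i ^ (k - (p + 1)) * monomial (a - Finsupp.single j 1) (1 : K)) := by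
        rw [← mul_assoc, ← pow_succ', show k - (p + 1) + 1 = k - p by omega]
      have h6 : X i ^ (k - (p + 1)) * (X j * monomial (a - Finsupp.single j 1) (1 : K)) =
          X j * (X i ^ (k - (p + 1)) * monomial (a - Finsupp.single j 1) (1 : K)) := by ring
      rw [h5, h6]
      apply hθ'
      have h7 := (isHomogeneous_X_pow (R := K) i (k - (p + 1))).mul
        (isHomogeneous_monomial (1 : K) h2)
      rwa [show k - (p + 1) + p = k - 1 by omega] at h7
  have key2 : ∀ p ≤ k, ∀ g : MvPolynomial (Fin n) K, g.IsHomogeneous p →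
      E g v = cc (X i ^ (k - p) * g) := by
    intro p hp g hg
    have hsum : g = ∑ a ∈ g.support, coeff a g • monomial a (1 : K) := by
      conv_lhs => rw [g.as_sum]
      refine Finset.sum_congr rfl fun a _ => ?_
      rw [smul_monomial, smul_eq_mul, mul_one]
    have hdeg : ∀ a ∈ g.support, a.degree = p := by
      intro a ha
      by_contra hne
      exact (mem_support_iff.1 ha) (hg.coeff_eq_zero hne)
    conv_lhs => rw [hsum]
    conv_rhs => rw [hsum]
    rw [map_sum, Finset.mul_sum, map_sum, LinearMap.sum_apply]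
    refine Finset.sum_congr rfl fun a ha => ?_
    rw [map_smul, LinearMap.smul_apply, key p a (hdeg a ha) hp, mul_smul_comm, map_smul]
  have hspan : ∀ x : M, ∃ g, E g v = x := by
    intro x
    obtain ⟨g, hg, rfl⟩ := P2 x
    refine ⟨g, ?_⟩
    rw [key2 k le_rfl g hg, Nat.sub_self, pow_zero, one_mul]
  have hEc : ∀ f g, E f * E g = E g * E f := by
    intro f g; rw [← map_mul, ← map_mul, mul_comm]
  have hkill : ∀ f ∈ G, E f = 0 := by
    intro f hf
    obtain ⟨d, hd, hfd⟩ := hG f hf
    apply LinearMap.ext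
    intro x
    obtain ⟨g, rfl⟩ := hspan x
    have h1 : E f (E g v) = E g (E f v) := LinearMap.congr_fun (hEc f g) v
    rw [h1, key2 d hd f hfd]
    have h2 : cc (X i ^ (k - d) * f) = 0 := by
      rw [P1]
      · exact I.mul_mem_left _ (hGI f hf)
      · have h7 := (isHomogeneous_X_pow (R := K) i (k - d)).mul hfd
        rwa [show k - d + d = k by omega] at h7
    rw [h2, map_zero, LinearMap.zero_apply]
  have hker2 : Ideal.span G ≤ RingHom.ker (E : MvPolynomial (Fin n) K →ₐ[K] Module.End K M) := by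
    rw [Ideal.span_le]
    intro f hf
    exact hkill f hf
  have h1 : E (X i ^ m) = 0 := hker2 hm
  have hθi : θ i = 1 := by
    apply LinearMap.ext
    intro x
    obtain ⟨b, hb, rfl⟩ := hrep x
    rw [hθ' i b hb, Module.End.one_apply]
  rw [map_pow, hE, hθi, one_pow] at h1
  have h2 := LinearMap.congr_fun h1 x
  rwa [Module.End.one_apply, LinearMap.zero_apply] at h2

/-- Concrete form of `persist_abs`. -/
theorem persist {I : Ideal (MvPolynomial (Fin n) K)} {k : ℕ} (hk : 1 ≤ k) (i : Fin n)
    (hs : ∀ h : MvPolynomial (Fin n) K, h.IsHomogeneous k → ∃ b : MvPolynomial (Fin n) K,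
      b.IsHomogeneous (k - 1) ∧ h - X i * b ∈ I)
    (hi : ∀ g : MvPolynomial (Fin n) K, g.IsHomogeneous k → X i * g ∈ I → g ∈ I)
    {G : Set (MvPolynomial (Fin n) K)} (hG : ∀ g ∈ G, ∃ d ≤ k, g.IsHomogeneous d)
    (hGI : ∀ g ∈ G, g ∈ I) {m : ℕ} (hm : X i ^ m ∈ Ideal.span G) {g : MvPolynomial (Fin n) K}
    (hg : g.IsHomogeneous k) : g ∈ I := by
  let f : MvPolynomial (Fin n) K →ₗ[K] (MvPolynomial (Fin n) K ⧸ I) :=
    (Ideal.Quotient.mkₐ K I).toLinearMap ∘ₗ homogeneousComponent k
  have hf : ∀ g : MvPolynomial (Fin n) K, g.IsHomogeneous k → (f g = 0 ↔ g ∈ I) := by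
    intro g hg
    change Ideal.Quotient.mk I (homogeneousComponent k g) = 0 ↔ g ∈ I
    rw [homogeneousComponent_of_mem hg, if_pos rfl, Ideal.Quotient.eq_zero_iff_mem]
  have P1 : ∀ g : MvPolynomial (Fin n) K, g.IsHomogeneous k → (f.rangeRestrict g = 0 ↔ g ∈ I) := by
    intro g hg
    rw [← hf g hg]
    exact ⟨fun h => congrArg Subtype.val h, fun h => Subtype.ext h⟩
  have P2 : ∀ m : LinearMap.range f, ∃ g : MvPolynomial (Fin n) K, g.IsHomogeneous k ∧
      f.rangeRestrict g = m := by
    rintro ⟨_, g, rfl⟩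
    refine ⟨homogeneousComponent k g, homogeneousComponent_isHomogeneous _ _, ?_⟩
    apply Subtype.ext
    change Ideal.Quotient.mk I (homogeneousComponent k (homogeneousComponent k g)) =
      Ideal.Quotient.mk I (homogeneousComponent k g)
    rw [homogeneousComponent_of_mem (homogeneousComponent_isHomogeneous k g), if_pos rfl]
  exact (P1 g hg).mp (persist_abs f.rangeRestrict hk P1 P2 i hs hi hG hGI hm _)

/-- The section by a coordinate hyperplane of a Gorenstein quotient of socle degree `s` is nonzero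
in degree `k₀` as soon as `2 k₀ ≤ s` and `k₀ + D ≤ s`. -/
theorem window {φ : MvPolynomial (Fin n) K →ₗ[K] K} {s D k0 : ℕ} (hφ : Deg φ s)
    {G : Set (MvPolynomial (Fin n) K)} (hG : ∀ g ∈ G, ∃ d ≤ D, g.IsHomogeneous d)
    (hGI : ∀ g ∈ G, g ∈ gor φ) (i : Fin n) {m : ℕ} (hm : X i ^ m ∈ Ideal.span G)
    {g0 : MvPolynomial (Fin n) K} (hg0 : g0.IsHomogeneous s) (hne : φ g0 ≠ 0) (hk0 : 1 ≤ k0)
    (h1 : 2 * k0 ≤ s) (h2 : k0 + D ≤ s) :
    ∃ h : MvPolynomial (Fin n) K, h.IsHomogeneous k0 ∧ h ∉ gor φ ⊔ Ideal.span {X i} := by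
  by_contra hcon
  push Not at hcon
  have hI := gor_homog hφ
  have hk : 1 ≤ s - k0 := by omega
  have hall : ∀ g : MvPolynomial (Fin n) K, g.IsHomogeneous (s - k0) → g ∈ gor φ := by
    intro g hg
    refine persist hk i ?_ ?_ (G := G) (fun g hg => ?_) hGI hm hg
    · intro h hh
      exact sup_comp hI hk hh (up_mem hcon (by omega) hh)
    · intro g hg hXg
      apply annP_of_homog hφ (by omega : s - k0 ≤ s) hg
      intro v hv
      rw [show s - (s - k0) = k0 by omega] at hv
      obtain ⟨b, _, hb⟩ := sup_comp hI hk0 hv (hcon v hv)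
      have e1 : g * v = (v - X i * b) * g + (X i * g) * b := by ring
      rw [e1, map_add, hb g, hXg b, add_zero]
    · obtain ⟨d, hd, hgd⟩ := hG g hg
      exact ⟨d, by omega, hgd⟩
  have h3 : g0 ∈ gor φ := up_mem hall (by omega) hg0
  have h4 := h3 1
  rw [mul_one] at h4
  exact hne h4

/-- a functional of degree `s` vanishing on a homogeneous ideal -/
lemma exists_functional {I : Ideal (MvPolynomial (Fin n) K)} (hI : Homog I) {s : ℕ}
    {g : MvPolynomial (Fin n) K} (hg : g.IsHomogeneous s) (hgI : g ∉ I) :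
    ∃ φ : MvPolynomial (Fin n) K →ₗ[K] K, Deg φ s ∧ I ≤ gor φ ∧ φ g ≠ 0 := by
  have hg' : g ∉ I.restrictScalars K := hgI
  obtain ⟨ψ, hψ, hle⟩ := Submodule.exists_le_ker_of_notMem hg'
  refine ⟨ψ ∘ₗ homogeneousComponent s, ?_, ?_, ?_⟩
  · intro i hi h hh
    rw [LinearMap.comp_apply, homogeneousComponent_of_mem hh, if_neg (by omega), map_zero]
  · intro x hx h
    rw [LinearMap.comp_apply]
    exact hle (hI _ (I.mul_mem_right h hx) s)
  · rw [LinearMap.comp_apply, homogeneousComponent_of_mem hg, if_pos rfl]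
    exact hψ

lemma finite_of_le {I J : Ideal (MvPolynomial (Fin n) K)} (h : I ≤ J)
    (hf : Module.Finite K (MvPolynomial (Fin n) K ⧸ I)) :
    Module.Finite K (MvPolynomial (Fin n) K ⧸ J) :=
  Module.Finite.of_surjective (Ideal.Quotient.factorₐ K h).toLinearMap
    (Ideal.Quotient.factor_surjective h)

lemma finrank_le_of_le {I J : Ideal (MvPolynomial (Fin n) K)} (h : I ≤ J)
    (hf : Module.Finite K (MvPolynomial (Fin n) K ⧸ I)) :
    Module.finrank K (MvPolynomial (Fin n) K ⧸ J) ≤ Module.finrank K (MvPolynomial (Fin n) K ⧸ I) :=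
  LinearMap.finrank_le_finrank_of_surjective (f := (Ideal.Quotient.factorₐ K h).toLinearMap)
    (Ideal.Quotient.factor_surjective h)

/-- additivity of the length along multiplication by `x` -/
lemma finrank_colon {I I1 : Ideal (MvPolynomial (Fin n) K)} {x : MvPolynomial (Fin n) K}
    (h1 : ∀ g, g ∈ I1 ↔ x * g ∈ I) (hf : Module.Finite K (MvPolynomial (Fin n) K ⧸ I)) :
    Module.finrank K (MvPolynomial (Fin n) K ⧸ I1) +
      Module.finrank K (MvPolynomial (Fin n) K ⧸ (I ⊔ Ideal.span {x})) =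
      Module.finrank K (MvPolynomial (Fin n) K ⧸ I) := by
  let q : (MvPolynomial (Fin n) K ⧸ I) →ₗ[K] (MvPolynomial (Fin n) K ⧸ (I ⊔ Ideal.span {x})) :=
    (Ideal.Quotient.factorₐ K (le_sup_left : I ≤ I ⊔ Ideal.span {x})).toLinearMap
  have hq : Function.Surjective q :=
    Ideal.Quotient.factor_surjective (le_sup_left : I ≤ I ⊔ Ideal.span {x})
  have hle : I ≤ I1 := fun g hg => (h1 g).mpr (I.mul_mem_left _ hg)
  let m : (MvPolynomial (Fin n) K ⧸ I) →ₗ[K] (MvPolynomial (Fin n) K ⧸ I) :=
    LinearMap.mulLeft K (Ideal.Quotient.mk I x)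
  let c : (MvPolynomial (Fin n) K ⧸ I) →ₗ[K] (MvPolynomial (Fin n) K ⧸ I1) :=
    (Ideal.Quotient.factorₐ K hle).toLinearMap
  have hc : Function.Surjective c := Ideal.Quotient.factor_surjective hle
  have hker : LinearMap.ker m = LinearMap.ker c := by
    ext y
    obtain ⟨g, rfl⟩ := Ideal.Quotient.mk_surjective y
    rw [LinearMap.mem_ker, LinearMap.mem_ker]
    change Ideal.Quotient.mk I x * Ideal.Quotient.mk I g = 0 ↔ Ideal.Quotient.mk I1 g = 0
    rw [← map_mul, Ideal.Quotient.eq_zero_iff_mem, Ideal.Quotient.eq_zero_iff_mem, h1]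
  have hran : LinearMap.range m = LinearMap.ker q := by
    ext y
    obtain ⟨g, rfl⟩ := Ideal.Quotient.mk_surjective y
    rw [LinearMap.mem_range, LinearMap.mem_ker]
    change (∃ y, Ideal.Quotient.mk I x * y = _) ↔
      Ideal.Quotient.mk (I ⊔ Ideal.span {x}) g = 0
    rw [Ideal.Quotient.eq_zero_iff_mem]
    constructor
    · rintro ⟨y, hy⟩
      obtain ⟨b, rfl⟩ := Ideal.Quotient.mk_surjective y
      rw [← map_mul, Ideal.Quotient.mk_eq_mk_iff_sub_mem] at hy
      have h2 : g = x * b - (x * b - g) := by ring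
      rw [h2]
      exact Ideal.sub_mem _ (Ideal.mul_mem_right _ _ (Ideal.mem_sup_right (Ideal.mem_span_singleton_self x)))
        (Ideal.mem_sup_left hy)
    · intro hg
      obtain ⟨a, ha, b, hb, rfl⟩ := Submodule.mem_sup.mp hg
      obtain ⟨b, rfl⟩ := Ideal.mem_span_singleton'.mp hb
      refine ⟨Ideal.Quotient.mk I b, ?_⟩
      rw [← map_mul, Ideal.Quotient.mk_eq_mk_iff_sub_mem]
      have h2 : x * b - (a + b * x) = -a := by ring
      rw [h2]
      exact I.neg_mem ha
  have e1 := LinearMap.finrank_range_add_finrank_ker m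
  have e2 := LinearMap.finrank_range_add_finrank_ker c
  have e3 := LinearMap.finrank_range_add_finrank_ker q
  rw [LinearMap.range_eq_top.mpr hc, finrank_top, ← hker] at e2
  rw [LinearMap.range_eq_top.mpr hq, finrank_top, ← hran] at e3
  omega

/-- The recursion step. -/
theorem step {I : Ideal (MvPolynomial (Fin n) K)} (hI : Homog I) {s D : ℕ} (hD : 1 ≤ D)
    (hs : 2 * D ≤ s) {G : Set (MvPolynomial (Fin n) K)}
    (hG : ∀ g ∈ G, ∃ d ≤ D, g.IsHomogeneous d) (hGI : ∀ g ∈ G, g ∈ I)
    (hm : ∀ i, ∃ m, X i ^ m ∈ Ideal.span G) (hf : Module.Finite K (MvPolynomial (Fin n) K ⧸ I))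
    (hne : ∃ g : MvPolynomial (Fin n) K, g.IsHomogeneous s ∧ g ∉ I) :
    ∃ I1 I2 : Ideal (MvPolynomial (Fin n) K), (∀ g ∈ G, g ∈ I1) ∧ (∀ g ∈ G, g ∈ I2) ∧
      Homog I1 ∧ Homog I2 ∧ Module.Finite K (MvPolynomial (Fin n) K ⧸ I1) ∧
      Module.Finite K (MvPolynomial (Fin n) K ⧸ I2) ∧
      (∃ g : MvPolynomial (Fin n) K, g.IsHomogeneous (s - 1) ∧ g ∉ I1) ∧
      (∃ g : MvPolynomial (Fin n) K, g.IsHomogeneous (s / 2) ∧ g ∉ I2) ∧
      Module.finrank K (MvPolynomial (Fin n) K ⧸ I1) +
        Module.finrank K (MvPolynomial (Fin n) K ⧸ I2) ≤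
        Module.finrank K (MvPolynomial (Fin n) K ⧸ I) := by
  obtain ⟨g, hg, hgI⟩ := hne
  obtain ⟨φ, hφ, hle, hφg⟩ := exists_functional hI hg hgI
  -- a monomial not killed by `φ`
  obtain ⟨a, hamem, ha⟩ : ∃ a ∈ g.support, φ (monomial a 1) ≠ 0 := by
    by_contra hcon
    push Not at hcon
    apply hφg
    rw [g.as_sum, map_sum]
    refine Finset.sum_eq_zero fun a ha => ?_
    have h1 : monomial a (coeff a g) = coeff a g • monomial a (1 : K) := by
      rw [smul_monomial, smul_eq_mul, mul_one]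
    rw [h1, map_smul, hcon a ha, smul_zero]
  have hadeg : a.degree = s := by
    by_contra hne
    exact (mem_support_iff.1 hamem) (hg.coeff_eq_zero hne)
  have hane : a ≠ 0 := by rintro rfl; simp at hadeg; omega
  obtain ⟨i, hi⟩ := Finsupp.ne_iff.mp hane
  rw [Finsupp.coe_zero, Pi.zero_apply] at hi
  have hle1 : Finsupp.single i 1 ≤ a := by
    rw [Finsupp.single_le_iff]; omega
  have h2 : (a - Finsupp.single i 1).degree = s - 1 := by
    have h1 : a = (a - Finsupp.single i 1) + Finsupp.single i 1 := (tsub_add_cancel_of_le hle1).symm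
    have h3 := congrArg Finsupp.degree h1
    rw [map_add, Finsupp.degree_single] at h3
    omega
  have h4 : monomial a (1 : K) = X i * monomial (a - Finsupp.single i 1) 1 := by
    rw [X, monomial_mul, one_mul, add_comm, tsub_add_cancel_of_le hle1]
  let φ' : MvPolynomial (Fin n) K →ₗ[K] K := φ ∘ₗ LinearMap.mulLeft K (X i)
  have hφ' : Deg φ' (s - 1) := by
    intro p hp h hh
    change φ (X i * h) = 0
    exact hφ (1 + p) (by omega) _ ((isHomogeneous_X K i).mul hh)
  have hcol : ∀ h, h ∈ gor φ' ↔ X i * h ∈ gor φ := by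
    intro h
    constructor
    · intro hh x
      have := hh x
      change φ (X i * (h * x)) = 0 at this
      rwa [← mul_assoc] at this
    · intro hh x
      change φ (X i * (h * x)) = 0
      rw [← mul_assoc]
      exact hh x
  have hfg := finite_of_le hle hf
  have hle' : gor φ ≤ gor φ' := fun h hh => (hcol h).mpr ((gor φ).mul_mem_left _ hh)
  obtain ⟨m, hmi⟩ := hm i
  have hwin := window hφ (k0 := s / 2) hG (fun g hg => hle (hGI g hg)) i hmi
    (isHomogeneous_monomial (1 : K) hadeg) ha (by omega) (by omega) (by omega)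
  refine ⟨gor φ', gor φ ⊔ Ideal.span {X i}, fun g hg => hle' (hle (hGI g hg)),
    fun g hg => Ideal.mem_sup_left (hle (hGI g hg)), gor_homog hφ', ?_, finite_of_le hle' hfg,
    finite_of_le le_sup_left hfg, ⟨monomial (a - Finsupp.single i 1) 1,
      isHomogeneous_monomial _ h2, ?_⟩, hwin, ?_⟩
  · -- homogeneity of the sum
    intro p hp k
    obtain ⟨u, hu, v, hv, rfl⟩ := Submodule.mem_sup.mp hp
    rw [map_add]
    refine Ideal.add_mem _ (Ideal.mem_sup_left (gor_homog hφ u hu k)) (Ideal.mem_sup_right ?_)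
    exact H503R3.QCI.homog_span (s := {X i}) (by
      rintro x rfl
      exact ⟨1, isHomogeneous_X K i⟩) v hv k
  · intro hmem
    rw [hcol] at hmem
    have := hmem 1
    rw [mul_one, ← h4] at this
    exact ha this
  · have e1 := finrank_colon (x := X i) hcol hfg
    have e2 := finrank_le_of_le hle hf
    omega

end TH130CI
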